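import Pool.Agent.Lib_helper43.Dyn.Defs

set_option autoImplicit false

/-!
# The alternating shear flow (for MP_220175_an)
-/

namespace Pool.Agent.LibH36.Dyn

open MeasureTheory Filter Topology Set
open scoped ENNReal ContDiff NNReal
open Pool.Agent.Lib_helper43.Dyn

/-! ## Integration over the torus -/

lemma cube_eq_fundamentalDomain :
    cube = ZSpan.fundamentalDomain (Pi.basisFun ℝ (Fin 3)) := by
  ext x
  simp [cube, ZSpan.mem_fundamentalDomain, Pi.basisFun_repr]

lemma measurableSet_cube : MeasurableSet cube := by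
  rw [cube_eq_fundamentalDomain]
  exact ZSpan.fundamentalDomain_measurableSet _

/-- Elements of the lattice are integer vectors. -/
lemma exists_int_of_mem_span {v : R3}
    (hv : v ∈ Submodule.span ℤ (Set.range (Pi.basisFun ℝ (Fin 3)))) :
    ∃ k : Fin 3 → ℤ, v = fun i => (k i : ℝ) := by
  rw [Module.Basis.mem_span_iff_repr_mem] at hv
  choose k hk using hv
  exact ⟨k, funext fun i => by simpa using (hk i).symm⟩

/-- Invariance of the integral of periodic functions under volume-preserving bijections which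
commute with integer translations. -/
lemma integral_cube_comp {E : Type*} [NormedAddCommGroup E] [NormedSpace ℝ E]
    (Ψ : R3 ≃ᵐ R3) (hΨ : MeasurePreserving Ψ volume volume)
    (hcomm : ∀ (x : R3) (k : Fin 3 → ℤ),
      Ψ (fun i => x i + (k i : ℝ)) = fun i => Ψ x i + (k i : ℝ))
    (g : R3 → E) (hg : Periodic3 g) :
    ∫ x in cube, g (Ψ x) = ∫ x in cube, g x := by
  have h1 : ∫ x in cube, g (Ψ x) = ∫ y in Ψ '' cube, g y := by
    have h := hΨ.setIntegral_preimage_emb Ψ.measurableEmbedding g (Ψ '' cube)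
    rw [← h, Set.preimage_image_eq _ Ψ.injective]
  rw [h1]
  have hfd : IsAddFundamentalDomain (Submodule.span ℤ (Set.range (Pi.basisFun ℝ (Fin 3)))) cube
      (volume : Measure R3) := by
    rw [cube_eq_fundamentalDomain]
    exact ZSpan.isAddFundamentalDomain _ _
  have hfd2 : IsAddFundamentalDomain (Submodule.span ℤ (Set.range (Pi.basisFun ℝ (Fin 3))))
      (Ψ '' cube) (volume : Measure R3) := by
    refine hfd.image_of_equiv Ψ.toEquiv hΨ.symm.quasiMeasurePreserving (Equiv.refl _) ?_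
    intro v x
    obtain ⟨k, hk⟩ := exists_int_of_mem_span v.2
    have e1 : ∀ y : R3, v +ᵥ y = fun i => y i + (k i : ℝ) := by
      intro y
      funext i
      have : (v +ᵥ y : R3) i = (v : R3) i + y i := rfl
      rw [this, hk, add_comm]
    show Ψ (v +ᵥ x) = v +ᵥ Ψ x
    rw [e1, e1, hcomm]
  have hinv : VAddInvariantMeasure (Submodule.span ℤ (Set.range (Pi.basisFun ℝ (Fin 3)))) R3
      (volume : Measure R3) :=
    inferInstanceAs <| VAddInvariantMeasure
      (Submodule.span ℤ (Set.range (Pi.basisFun ℝ (Fin 3)))).toAddSubgroup R3 volume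
  refine hfd2.setIntegral_eq hfd ?_
  intro v x
  obtain ⟨k, hk⟩ := exists_int_of_mem_span v.2
  have e1 : ∀ y : R3, v +ᵥ y = fun i => y i + (k i : ℝ) := by
    intro y
    funext i
    have : (v +ᵥ y : R3) i = (v : R3) i + y i := rfl
    rw [this, hk, add_comm]
  rw [e1]
  exact hg x k

lemma integral_cube_shift {E : Type*} [NormedAddCommGroup E] [NormedSpace ℝ E] (g : R3 → E)
    (hg : Periodic3 g) (v : R3) : ∫ x in cube, g (fun i => x i + v i) = ∫ x in cube, g x := by
  refine integral_cube_comp (MeasurableEquiv.addRight v) (measurePreserving_add_right _ v) ?_ g hg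
  intro x k
  funext i
  simp [MeasurableEquiv.addRight]
  ring

/-- Shears along a coordinate axis preserve volume. -/
lemma measurePreserving_shear (i : Fin 3) (a : (Fin 2 → ℝ) → ℝ) (ha : Measurable a) :
    MeasurePreserving (fun x : R3 => i.insertNth (x i + a (i.removeNth x)) (i.removeNth x))
      volume volume := by
  have e1 := volume_preserving_piFinSuccAbove (fun _ : Fin 3 => ℝ) i
  have e2 : MeasurePreserving (fun p : (Fin 2 → ℝ) × ℝ => (p.1, p.2 + a p.1))
      (volume.prod volume) (volume.prod volume) := by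
    refine MeasurePreserving.skew_product (f := id) (MeasurePreserving.id _)
      (g := fun y z => z + a y) ?_ ?_
    · exact measurable_snd.add (ha.comp measurable_fst)
    · refine Filter.Eventually.of_forall fun y => ?_
      exact (measurePreserving_add_right volume (a y)).map_eq
  have e3 : MeasurePreserving (Prod.swap : ℝ × (Fin 2 → ℝ) → (Fin 2 → ℝ) × ℝ)
      (volume.prod volume) (volume.prod volume) := Measure.measurePreserving_swap
  have e4 : MeasurePreserving (Prod.swap : (Fin 2 → ℝ) × ℝ → ℝ × (Fin 2 → ℝ))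
      (volume.prod volume) (volume.prod volume) := Measure.measurePreserving_swap
  have := (e1.symm.comp (e4.comp (e2.comp (e3.comp e1))))
  exact this

/-! ## Shears -/

/-- The shear `x ↦ x + s F(x₁, x₂) e₀`. -/
noncomputable def shX (F : ℝ → ℝ → ℝ) (s : ℝ) (x : R3) : R3 :=
  ![x 0 + s * F (x 1) (x 2), x 1, x 2]

/-- The shear `x ↦ x + s G(x₀, x₂) e₁`. -/
noncomputable def shY (G : ℝ → ℝ → ℝ) (s : ℝ) (x : R3) : R3 :=
  ![x 0, x 1 + s * G (x 0) (x 2), x 2]

/-- The alternating shear velocity. -/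
noncomputable def altU (F G : ℝ → ℝ → ℝ) (t : ℝ) (x : R3) : R3 :=
  if Int.fract t < 1 / 2 then ![2 * F (x 1) (x 2), 0, 0] else ![0, 2 * G (x 0) (x 2), 0]

@[simp] lemma shX_zero_apply (F : ℝ → ℝ → ℝ) (s : ℝ) (x : R3) :
    shX F s x 0 = x 0 + s * F (x 1) (x 2) := rfl
@[simp] lemma shX_one_apply (F : ℝ → ℝ → ℝ) (s : ℝ) (x : R3) : shX F s x 1 = x 1 := rfl
@[simp] lemma shX_two_apply (F : ℝ → ℝ → ℝ) (s : ℝ) (x : R3) : shX F s x 2 = x 2 := rfl
@[simp] lemma shY_zero_apply (F : ℝ → ℝ → ℝ) (s : ℝ) (x : R3) : shY F s x 0 = x 0 := rfl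
@[simp] lemma shY_one_apply (F : ℝ → ℝ → ℝ) (s : ℝ) (x : R3) :
    shY F s x 1 = x 1 + s * F (x 0) (x 2) := rfl
@[simp] lemma shY_two_apply (F : ℝ → ℝ → ℝ) (s : ℝ) (x : R3) : shY F s x 2 = x 2 := rfl

lemma r3_ext {x y : R3} (h0 : x 0 = y 0) (h1 : x 1 = y 1) (h2 : x 2 = y 2) : x = y := by
  funext i
  fin_cases i
  · exact h0
  · exact h1
  · exact h2

lemma shX_add (F : ℝ → ℝ → ℝ) (s s' : ℝ) (x : R3) : shX F s (shX F s' x) = shX F (s + s') x := by
  apply r3_ext
  · simp; ring
  · simp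
  · simp

lemma shY_add (F : ℝ → ℝ → ℝ) (s s' : ℝ) (x : R3) : shY F s (shY F s' x) = shY F (s + s') x := by
  apply r3_ext
  · simp
  · simp; ring
  · simp

lemma shX_zero (F : ℝ → ℝ → ℝ) (x : R3) : shX F 0 x = x := by
  apply r3_ext <;> simp

lemma shY_zero (F : ℝ → ℝ → ℝ) (x : R3) : shY F 0 x = x := by
  apply r3_ext <;> simp

/-- `shX` as a bijection. -/
noncomputable def shXe (F : ℝ → ℝ → ℝ) (s : ℝ) : R3 ≃ R3 where
  toFun := shX F s
  invFun := shX F (-s)
  left_inv x := by rw [shX_add]; simp [shX_zero]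
  right_inv x := by rw [shX_add]; simp [shX_zero]

/-- `shY` as a bijection. -/
noncomputable def shYe (F : ℝ → ℝ → ℝ) (s : ℝ) : R3 ≃ R3 where
  toFun := shY F s
  invFun := shY F (-s)
  left_inv x := by rw [shY_add]; simp [shY_zero]
  right_inv x := by rw [shY_add]; simp [shY_zero]

@[simp] lemma shXe_apply (F : ℝ → ℝ → ℝ) (s : ℝ) (x : R3) : shXe F s x = shX F s x := rfl
@[simp] lemma shYe_apply (F : ℝ → ℝ → ℝ) (s : ℝ) (x : R3) : shYe F s x = shY F s x := rfl

/-! ## The class of good maps -/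

/-- Volume-preserving, bi-Lipschitz bijections commuting with integer translations. -/
structure Good (Ψ : R3 ≃ R3) : Prop where
  lip : ∃ L : ℝ≥0, LipschitzWith L Ψ
  lip_symm : ∃ L : ℝ≥0, LipschitzWith L Ψ.symm
  mp : MeasurePreserving Ψ volume volume
  comm : ∀ (x : R3) (k : Fin 3 → ℤ), Ψ (fun i => x i + (k i : ℝ)) = fun i => Ψ x i + (k i : ℝ)

lemma Good.refl : Good (Equiv.refl R3) where
  lip := ⟨1, LipschitzWith.id⟩
  lip_symm := ⟨1, LipschitzWith.id⟩
  mp := MeasurePreserving.id _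
  comm _ _ := rfl

lemma Good.trans {Ψ Θ : R3 ≃ R3} (h : Good Ψ) (h' : Good Θ) : Good (Ψ.trans Θ) where
  lip := by
    obtain ⟨L, hL⟩ := h.lip
    obtain ⟨L', hL'⟩ := h'.lip
    exact ⟨L' * L, hL'.comp hL⟩
  lip_symm := by
    obtain ⟨L, hL⟩ := h.lip_symm
    obtain ⟨L', hL'⟩ := h'.lip_symm
    exact ⟨L * L', hL.comp hL'⟩
  mp := h'.mp.comp h.mp
  comm x k := by
    show Θ (Ψ _) = fun i => Θ (Ψ x) i + (k i : ℝ)
    rw [h.comm, h'.comm]

lemma Good.pow {Ψ : R3 ≃ R3} (h : Good Ψ) (n : ℕ) : Good ((Ψ : Equiv.Perm R3) ^ n) := by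
  induction n with
  | zero => exact Good.refl
  | succ n ih =>
    rw [pow_succ]
    exact h.trans ih

lemma int_per {F : ℝ → ℝ → ℝ} (hF1 : ∀ y z, F (y + 1) z = F y z)
    (hF2 : ∀ y z, F y (z + 1) = F y z) (y z : ℝ) (k l : ℤ) : F (y + k) (z + l) = F y z := by
  have h1 : Function.Periodic (fun y => F y (z + l)) 1 := fun y => hF1 y _
  have h2 : Function.Periodic (fun z => F y z) 1 := fun z => hF2 y _
  have e1 := h1.int_mul k y
  have e2 := h2.int_mul l z
  simp only [mul_one] at e1 e2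
  rw [e1, e2]

lemma lip_abs {F : ℝ → ℝ → ℝ} {K : ℝ≥0} (hF : LipschitzWith K fun p : ℝ × ℝ => F p.1 p.2)
    (y z y' z' d : ℝ) (h1 : |y - y'| ≤ d) (h2 : |z - z'| ≤ d) :
    |F y z - F y' z'| ≤ K * d := by
  have h := hF.dist_le_mul (y, z) (y', z')
  rw [Real.dist_eq] at h
  refine h.trans (mul_le_mul_of_nonneg_left ?_ K.2)
  rw [Prod.dist_eq, Real.dist_eq, Real.dist_eq]
  exact max_le h1 h2

lemma coord_le (x y : R3) (i : Fin 3) : |x i - y i| ≤ dist x y := by
  rw [← Real.dist_eq]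
  exact dist_le_pi_dist x y i

lemma shX_lip {F : ℝ → ℝ → ℝ} {K : ℝ≥0} (hF : LipschitzWith K fun p : ℝ × ℝ => F p.1 p.2)
    (s : ℝ) : LipschitzWith (1 + ‖s‖₊ * K) (shX F s) := by
  refine LipschitzWith.of_dist_le_mul fun x y => ?_
  have hd : 0 ≤ dist x y := dist_nonneg
  have hK : (0 : ℝ) ≤ K := K.2
  have h1 : dist x y ≤ ((1 + ‖s‖₊ * K : ℝ≥0) : ℝ) * dist x y := by
    push_cast
    have : 0 ≤ |s| * K * dist x y := by positivity
    simp only [Real.norm_eq_abs]
    nlinarith
  rw [dist_pi_le_iff (by positivity)]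
  intro i
  fin_cases i
  · show dist (shX F s x 0) (shX F s y 0) ≤ _
    rw [Real.dist_eq, shX_zero_apply, shX_zero_apply]
    have e : x 0 + s * F (x 1) (x 2) - (y 0 + s * F (y 1) (y 2))
        = (x 0 - y 0) + s * (F (x 1) (x 2) - F (y 1) (y 2)) := by ring
    rw [e]
    refine (abs_add_le _ _).trans ?_
    rw [abs_mul]
    have h3 := lip_abs hF (x 1) (x 2) (y 1) (y 2) (dist x y) (coord_le x y 1) (coord_le x y 2)
    have h4 := mul_le_mul_of_nonneg_left h3 (abs_nonneg s)
    push_cast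
    simp only [Real.norm_eq_abs]
    have := coord_le x y 0
    nlinarith
  · show dist (shX F s x 1) (shX F s y 1) ≤ _
    rw [shX_one_apply, shX_one_apply, Real.dist_eq]
    exact (coord_le x y 1).trans h1
  · show dist (shX F s x 2) (shX F s y 2) ≤ _
    rw [shX_two_apply, shX_two_apply, Real.dist_eq]
    exact (coord_le x y 2).trans h1

lemma shY_lip {F : ℝ → ℝ → ℝ} {K : ℝ≥0} (hF : LipschitzWith K fun p : ℝ × ℝ => F p.1 p.2)
    (s : ℝ) : LipschitzWith (1 + ‖s‖₊ * K) (shY F s) := by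
  refine LipschitzWith.of_dist_le_mul fun x y => ?_
  have hd : 0 ≤ dist x y := dist_nonneg
  have hK : (0 : ℝ) ≤ K := K.2
  have h1 : dist x y ≤ ((1 + ‖s‖₊ * K : ℝ≥0) : ℝ) * dist x y := by
    push_cast
    have : 0 ≤ |s| * K * dist x y := by positivity
    simp only [Real.norm_eq_abs]
    nlinarith
  rw [dist_pi_le_iff (by positivity)]
  intro i
  fin_cases i
  · show dist (shY F s x 0) (shY F s y 0) ≤ _
    rw [shY_zero_apply, shY_zero_apply, Real.dist_eq]
    exact (coord_le x y 0).trans h1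
  · show dist (shY F s x 1) (shY F s y 1) ≤ _
    rw [Real.dist_eq, shY_one_apply, shY_one_apply]
    have e : x 1 + s * F (x 0) (x 2) - (y 1 + s * F (y 0) (y 2))
        = (x 1 - y 1) + s * (F (x 0) (x 2) - F (y 0) (y 2)) := by ring
    rw [e]
    refine (abs_add_le _ _).trans ?_
    rw [abs_mul]
    have h3 := lip_abs hF (x 0) (x 2) (y 0) (y 2) (dist x y) (coord_le x y 0) (coord_le x y 2)
    have h4 := mul_le_mul_of_nonneg_left h3 (abs_nonneg s)
    push_cast
    simp only [Real.norm_eq_abs]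
    have := coord_le x y 1
    nlinarith
  · show dist (shY F s x 2) (shY F s y 2) ≤ _
    rw [shY_two_apply, shY_two_apply, Real.dist_eq]
    exact (coord_le x y 2).trans h1

lemma shX_mp {F : ℝ → ℝ → ℝ} (hF : Measurable fun p : ℝ × ℝ => F p.1 p.2) (s : ℝ) :
    MeasurePreserving (shX F s) volume volume := by
  have hm0 : Measurable fun y : Fin 2 → ℝ => (y 0, y 1) :=
    (measurable_pi_apply 0).prodMk (measurable_pi_apply 1)
  have hm : Measurable fun y : Fin 2 → ℝ => F (y 0) (y 1) := hF.comp hm0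
  have h := measurePreserving_shear 0 (fun y => s * F (y 0) (y 1)) (hm.const_mul s)
  convert h using 1
  funext x
  apply r3_ext
  · simp [Fin.removeNth]
  · have : (1 : Fin 3) = Fin.succAbove 0 0 := rfl
    rw [this, Fin.insertNth_apply_succAbove]
    rfl
  · have : (2 : Fin 3) = Fin.succAbove 0 1 := rfl
    rw [this, Fin.insertNth_apply_succAbove]
    rfl

lemma shY_mp {F : ℝ → ℝ → ℝ} (hF : Measurable fun p : ℝ × ℝ => F p.1 p.2) (s : ℝ) :
    MeasurePreserving (shY F s) volume volume := by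
  have hm0 : Measurable fun y : Fin 2 → ℝ => (y 0, y 1) :=
    (measurable_pi_apply 0).prodMk (measurable_pi_apply 1)
  have hm : Measurable fun y : Fin 2 → ℝ => F (y 0) (y 1) := hF.comp hm0
  have h := measurePreserving_shear 1 (fun y => s * F (y 0) (y 1)) (hm.const_mul s)
  convert h using 1
  funext x
  apply r3_ext
  · have : (0 : Fin 3) = Fin.succAbove 1 0 := rfl
    rw [this, Fin.insertNth_apply_succAbove]
    rfl
  · rw [Fin.insertNth_apply_same]
    rfl
  · have : (2 : Fin 3) = Fin.succAbove 1 1 := rfl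
    rw [this, Fin.insertNth_apply_succAbove]
    rfl

lemma shXe_good {F : ℝ → ℝ → ℝ} {K : ℝ≥0} (hF : LipschitzWith K fun p : ℝ × ℝ => F p.1 p.2)
    (hF1 : ∀ y z, F (y + 1) z = F y z) (hF2 : ∀ y z, F y (z + 1) = F y z) (s : ℝ) :
    Good (shXe F s) where
  lip := ⟨_, shX_lip hF s⟩
  lip_symm := ⟨_, shX_lip hF (-s)⟩
  mp := shX_mp hF.continuous.measurable s
  comm x k := by
    apply r3_ext
    · simp only [shXe_apply, shX_zero_apply]
      rw [int_per hF1 hF2]
      ring
    · simp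
    · simp

lemma shYe_good {F : ℝ → ℝ → ℝ} {K : ℝ≥0} (hF : LipschitzWith K fun p : ℝ × ℝ => F p.1 p.2)
    (hF1 : ∀ y z, F (y + 1) z = F y z) (hF2 : ∀ y z, F y (z + 1) = F y z) (s : ℝ) :
    Good (shYe F s) where
  lip := ⟨_, shY_lip hF s⟩
  lip_symm := ⟨_, shY_lip hF (-s)⟩
  mp := shY_mp hF.continuous.measurable s
  comm x k := by
    apply r3_ext
    · simp
    · simp only [shYe_apply, shY_one_apply]
      rw [int_per hF1 hF2]
      ring
    · simp

/-! ## Consequences of goodness -/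

lemma Good.integral_symm {E : Type*} [NormedAddCommGroup E] [NormedSpace ℝ E] {Ψ : R3 ≃ R3}
    (h : Good Ψ) (g : R3 → E) (hg : Periodic3 g) :
    ∫ x in cube, g (Ψ.symm x) = ∫ x in cube, g x := by
  obtain ⟨L, hL⟩ := h.lip
  obtain ⟨L', hL'⟩ := h.lip_symm
  let Θ : R3 ≃ᵐ R3 :=
    { toEquiv := Ψ
      measurable_toFun := hL.continuous.measurable
      measurable_invFun := hL'.continuous.measurable }
  have hmp : MeasurePreserving Θ volume volume := h.mp
  refine integral_cube_comp Θ.symm hmp.symm ?_ g hg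
  intro x k
  show Ψ.symm _ = fun i => Ψ.symm x i + (k i : ℝ)
  rw [Equiv.symm_apply_eq, h.comm, Equiv.apply_symm_apply]

lemma Good.fderiv_periodic {Ψ : R3 ≃ R3} (h : Good Ψ) (x : R3) (k : Fin 3 → ℤ) :
    fderiv ℝ Ψ (fun i => x i + (k i : ℝ)) = fderiv ℝ Ψ x := by
  have e : (fun y : R3 => Ψ (y + fun i => (k i : ℝ))) = fun y => Ψ y + fun i => (k i : ℝ) := by
    funext y
    exact h.comm y k
  have h1 : fderiv ℝ (fun y : R3 => Ψ (y + fun i => (k i : ℝ))) x
      = fderiv ℝ Ψ (x + fun i => (k i : ℝ)) := fderiv_comp_add_right _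
  have h2 : fderiv ℝ (fun y => Ψ y + fun i => (k i : ℝ)) x = fderiv ℝ Ψ x := fderiv_add_const _
  rw [e, h2] at h1
  exact h1.symm

/-- The change of variables in the flux. -/
lemma Good.flux_eq {Ψ : R3 ≃ R3} (h : Good Ψ) (Bin ψ : R3 → R3) (hB : Periodic3 Bin)
    (hψ : Periodic3 ψ) :
    ∫ x in cube, ∑ i, fderiv ℝ Ψ (Ψ.symm x) (Bin (Ψ.symm x)) i * ψ x i
      = ∫ x in cube, ∑ i, fderiv ℝ Ψ x (Bin x) i * ψ (Ψ x) i := by
  have h1 := h.integral_symm (fun x => ∑ i, fderiv ℝ Ψ x (Bin x) i * ψ (Ψ x) i) ?_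
  · rw [← h1]
    simp only [Equiv.apply_symm_apply]
  · intro x k
    simp only
    rw [h.fderiv_periodic, hB x k, h.comm, hψ]

lemma periodic_bounded {ψ : R3 → R3} (hψ : Periodic3 ψ) (hc : Continuous ψ) :
    ∃ M : ℝ, 0 ≤ M ∧ ∀ x i, |ψ x i| ≤ M := by
  have hK : IsCompact (Icc (0 : R3) 1) := isCompact_Icc
  obtain ⟨M, hM⟩ := hK.exists_bound_of_continuousOn hc.continuousOn
  refine ⟨max M 0, le_max_right _ _, fun x i => ?_⟩
  have e : ψ x = ψ (fun i => Int.fract (x i)) := by
    have h := hψ (fun i => Int.fract (x i)) (fun i => ⌊x i⌋)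
    simp only [Int.fract_add_floor] at h
    exact h
  rw [e]
  have h1 := hM (fun i => Int.fract (x i))
    ⟨fun i => Int.fract_nonneg _, fun i => (Int.fract_lt_one _).le⟩
  have h2 := norm_le_pi_norm (ψ (fun i => Int.fract (x i))) i
  rw [Real.norm_eq_abs] at h2
  exact (h2.trans h1).trans (le_max_left _ _)

lemma Good.exists_weight {Ψ : R3 ≃ R3} (h : Good Ψ) (ψ : R3 → R3) (hψ : Periodic3 ψ)
    (hc : Continuous ψ) :
    ∃ W : R3 → R3, Measurable W ∧ (∃ M, ∀ x i, |W x i| ≤ M) ∧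
      ∀ Bin : R3 → R3, ∀ x, ∑ i, fderiv ℝ Ψ x (Bin x) i * ψ (Ψ x) i = ∑ i, W x i * Bin x i := by
  obtain ⟨L, hL⟩ := h.lip
  obtain ⟨M, hM0, hM⟩ := periodic_bounded hψ hc
  refine ⟨fun x i => ∑ l, fderiv ℝ Ψ x (Pi.single i 1) l * ψ (Ψ x) l, ?_, ?_, ?_⟩
  · refine measurable_pi_iff.2 fun i => ?_
    refine Finset.measurable_sum _ fun l _ => ?_
    refine Measurable.mul ?_ ?_
    · exact (measurable_pi_apply l).comp (measurable_fderiv_apply_const ℝ Ψ (Pi.single i 1))
    · exact (measurable_pi_apply l).comp (hc.comp hL.continuous).measurable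
  · refine ⟨∑ l : Fin 3, L * M, fun x i => ?_⟩
    refine (Finset.abs_sum_le_sum_abs _ _).trans (Finset.sum_le_sum fun l _ => ?_)
    rw [abs_mul]
    refine mul_le_mul ?_ (hM _ _) (abs_nonneg _) L.2
    have h1 : ‖fderiv ℝ Ψ x (Pi.single i 1)‖ ≤ L := by
      refine ((fderiv ℝ Ψ x).le_opNorm _).trans ?_
      have h2 : ‖fderiv ℝ Ψ x‖ ≤ L := norm_fderiv_le_of_lipschitz ℝ hL
      have h3 : ‖(Pi.single i 1 : R3)‖ ≤ 1 := by
        rw [pi_norm_le_iff_of_nonneg zero_le_one]
        intro j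
        by_cases hj : j = i
        · subst hj; simp
        · simp [Pi.single_eq_of_ne hj]
      calc ‖fderiv ℝ Ψ x‖ * ‖(Pi.single i 1 : R3)‖ ≤ L * 1 :=
            mul_le_mul h2 h3 (norm_nonneg _) L.2
        _ = L := mul_one _
    have h2 := norm_le_pi_norm (fderiv ℝ Ψ x (Pi.single i 1)) l
    rw [Real.norm_eq_abs] at h2
    exact h2.trans h1
  · intro Bin x
    have e : Bin x = ∑ i, Bin x i • (Pi.single i 1 : R3) := by
      funext j
      simp [Finset.sum_apply, Pi.single_apply]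
    have e2 : ∀ l, fderiv ℝ Ψ x (Bin x) l = ∑ i, Bin x i * fderiv ℝ Ψ x (Pi.single i 1) l := by
      intro l
      conv_lhs => rw [e]
      rw [map_sum, Finset.sum_apply]
      refine Finset.sum_congr rfl fun i _ => ?_
      rw [map_smul]
      rfl
    simp only [e2, Finset.sum_mul]
    rw [Finset.sum_comm]
    refine Finset.sum_congr rfl fun i _ => ?_
    refine Finset.sum_congr rfl fun l _ => ?_
    ring

/-! ## Admissibility -/

lemma fc_eq_zero (f : R3 → ℝ) (hf : Periodic3 f) (i : Fin 3)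
    (hfi : ∀ (x : R3) (s : ℝ), f (fun j => x j + (Pi.single i s : R3) j) = f x)
    (k : Fin 3 → ℤ) (hk : k i ≠ 0) : fc f k = 0 := by
  have hk' : (k i : ℝ) ≠ 0 := by exact_mod_cast hk
  have hkC : (k i : ℂ) ≠ 0 := by exact_mod_cast hk
  unfold fc
  set g : R3 → ℂ := fun x =>
    (f x : ℂ) * Complex.exp (-(2 * Real.pi * Complex.I * ∑ i, (k i : ℂ) * (x i : ℂ))) with hg
  have hper : Periodic3 g := by
    intro x l
    simp only [hg]
    rw [hf x l]
    congr 1
    have e : -(2 * (Real.pi : ℂ) * Complex.I * ∑ i, (k i : ℂ) * ((x i + (l i : ℝ) : ℝ) : ℂ))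
        = -(2 * Real.pi * Complex.I * ∑ i, (k i : ℂ) * (x i : ℂ))
          + ((-∑ i, k i * l i : ℤ) : ℂ) * (2 * Real.pi * Complex.I) := by
      push_cast
      simp only [mul_add, Finset.sum_add_distrib]
      ring
    rw [e, Complex.exp_add, Complex.exp_int_mul_two_pi_mul_I, mul_one]
  have h1 := integral_cube_shift g hper (Pi.single i (1 / (2 * (k i : ℝ))))
  have h2 : ∀ x : R3, g (fun j => x j + (Pi.single i (1 / (2 * (k i : ℝ))) : R3) j) = -g x := by
    intro x
    simp only [hg]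
    rw [hfi]
    have e : -(2 * (Real.pi : ℂ) * Complex.I * ∑ j, (k j : ℂ) *
          ((x j + (Pi.single i (1 / (2 * (k i : ℝ))) : R3) j : ℝ) : ℂ))
        = -(2 * Real.pi * Complex.I * ∑ i, (k i : ℂ) * (x i : ℂ)) + -(Real.pi * Complex.I) := by
      have e3 : ∑ j, (k j : ℂ) * (((Pi.single i (1 / (2 * (k i : ℝ))) : R3) j : ℝ) : ℂ)
          = 1 / 2 := by
        rw [Finset.sum_eq_single i]
        · rw [Pi.single_eq_same]
          push_cast
          field_simp
        · intro j _ hj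
          rw [Pi.single_eq_of_ne hj]
          simp
        · intro h
          exact absurd (Finset.mem_univ i) h
      push_cast
      simp only [mul_add, Finset.sum_add_distrib]
      rw [e3]
      ring
    rw [e, Complex.exp_add, Complex.exp_neg (Real.pi * Complex.I), Complex.exp_pi_mul_I]
    simp
  simp only [h2] at h1
  rw [integral_neg] at h1
  have h3 : (2 : ℂ) * ∫ x in cube, g x = 0 := by
    linear_combination (-1 : ℂ) * h1
  have h4 := (mul_eq_zero.1 h3).resolve_left two_ne_zero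
  exact h4

lemma fc_zero (k : Fin 3 → ℤ) : fc (fun _ => 0) k = 0 := by
  simp [fc]

lemma altU_lt {F G : ℝ → ℝ → ℝ} {t : ℝ} (ht : Int.fract t < 1 / 2) :
    altU F G t = fun x => ![2 * F (x 1) (x 2), 0, 0] := by
  funext x
  exact if_pos ht

lemma altU_ge {F G : ℝ → ℝ → ℝ} {t : ℝ} (ht : ¬ Int.fract t < 1 / 2) :
    altU F G t = fun x => ![0, 2 * G (x 0) (x 2), 0] := by
  funext x
  exact if_neg ht

lemma altU_admissible {F G : ℝ → ℝ → ℝ} {K : ℝ≥0} {M : ℝ}
    (hF : LipschitzWith K fun p : ℝ × ℝ => F p.1 p.2)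
    (hG : LipschitzWith K fun p : ℝ × ℝ => G p.1 p.2) (hFM : ∀ y z, |F y z| ≤ M)
    (hGM : ∀ x z, |G x z| ≤ M) (hF1 : ∀ y z, F (y + 1) z = F y z)
    (hF2 : ∀ y z, F y (z + 1) = F y z) (hG1 : ∀ x z, G (x + 1) z = G x z)
    (hG2 : ∀ x z, G x (z + 1) = G x z) : Admissible (altU F G) where
  measurable := by
    have hc1 : Continuous fun p : ℝ × R3 => F (p.2 1) (p.2 2) := by
      have : Continuous fun p : ℝ × R3 => (p.2 1, p.2 2) := by fun_prop
      exact hF.continuous.comp this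
    have hc2 : Continuous fun p : ℝ × R3 => G (p.2 0) (p.2 2) := by
      have : Continuous fun p : ℝ × R3 => (p.2 0, p.2 2) := by fun_prop
      exact hG.continuous.comp this
    refine Measurable.ite ?_ ?_ ?_
    · exact measurableSet_lt (measurable_fract.comp measurable_fst) measurable_const
    · refine Continuous.measurable ?_
      refine continuous_pi fun i => ?_
      fin_cases i
      · exact continuous_const.mul hc1
      · exact continuous_const
      · exact continuous_const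
    · refine Continuous.measurable ?_
      refine continuous_pi fun i => ?_
      fin_cases i
      · exact continuous_const
      · exact continuous_const.mul hc2
      · exact continuous_const
  periodic_time := ⟨1, one_pos, fun t x => by simp [altU, Int.fract_add_one]⟩
  periodic_space := by
    intro t x k
    unfold altU
    simp only [int_per hF1 hF2, int_per hG1 hG2]
  bounded := by
    have hM : 0 ≤ M := (abs_nonneg _).trans (hFM 0 0)
    refine ⟨2 * M, fun t x => ?_⟩
    rw [pi_norm_le_iff_of_nonneg (by positivity)]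
    intro i
    rw [Real.norm_eq_abs]
    unfold altU
    have h1 : |2 * F (x 1) (x 2)| ≤ 2 * M := by
      rw [abs_mul, abs_two]
      exact mul_le_mul_of_nonneg_left (hFM _ _) (by norm_num)
    have h2 : |2 * G (x 0) (x 2)| ≤ 2 * M := by
      rw [abs_mul, abs_two]
      exact mul_le_mul_of_nonneg_left (hGM _ _) (by norm_num)
    have h3 : |(0 : ℝ)| ≤ 2 * M := by
      rw [abs_zero]
      positivity
    split_ifs
    · fin_cases i
      · exact h1
      · exact h3
      · exact h3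
    · fin_cases i
      · exact h3
      · exact h2
      · exact h3
  lipschitz := by
    refine ⟨2 * K, fun t => LipschitzWith.of_dist_le_mul fun x y => ?_⟩
    have hd : 0 ≤ dist x y := dist_nonneg
    have h1 : |2 * F (x 1) (x 2) - 2 * F (y 1) (y 2)| ≤ 2 * K * dist x y := by
      rw [← mul_sub, abs_mul, abs_two, mul_assoc]
      exact mul_le_mul_of_nonneg_left
        (lip_abs hF _ _ _ _ _ (coord_le x y 1) (coord_le x y 2)) (by norm_num)
    have h2 : |2 * G (x 0) (x 2) - 2 * G (y 0) (y 2)| ≤ 2 * K * dist x y := by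
      rw [← mul_sub, abs_mul, abs_two, mul_assoc]
      exact mul_le_mul_of_nonneg_left
        (lip_abs hG _ _ _ _ _ (coord_le x y 0) (coord_le x y 2)) (by norm_num)
    have h3 : |(0 : ℝ) - 0| ≤ 2 * K * dist x y := by
      rw [sub_zero, abs_zero]
      positivity
    push_cast
    rw [dist_pi_le_iff (by positivity)]
    intro i
    rw [Real.dist_eq]
    unfold altU
    split_ifs
    · fin_cases i
      · exact h1
      · exact h3
      · exact h3
    · fin_cases i
      · exact h3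
      · exact h2
      · exact h3
  divFree := by
    intro t k
    by_cases ht : Int.fract t < 1 / 2
    · rw [altU_lt ht, Fin.sum_univ_three]
      have e1 : fc (fun x : R3 => (![2 * F (x 1) (x 2), 0, 0] : R3) 1) k = 0 := fc_zero k
      have e2 : fc (fun x : R3 => (![2 * F (x 1) (x 2), 0, 0] : R3) 2) k = 0 := fc_zero k
      rw [e1, e2]
      by_cases hk : k 0 = 0
      · simp [hk]
      · have e0 : fc (fun x : R3 => (![2 * F (x 1) (x 2), 0, 0] : R3) 0) k = 0 := by
          show fc (fun x : R3 => 2 * F (x 1) (x 2)) k = 0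
          refine fc_eq_zero _ ?_ 0 ?_ k hk
          · intro x l
            simp only [int_per hF1 hF2]
          · intro x s
            have h1 : (Pi.single (0 : Fin 3) s : R3) 1 = 0 :=
              Pi.single_eq_of_ne (by decide) _
            have h2 : (Pi.single (0 : Fin 3) s : R3) 2 = 0 :=
              Pi.single_eq_of_ne (by decide) _
            simp only [h1, h2, add_zero]
        rw [e0]
        simp
    · rw [altU_ge ht, Fin.sum_univ_three]
      have e1 : fc (fun x : R3 => (![0, 2 * G (x 0) (x 2), 0] : R3) 0) k = 0 := fc_zero k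
      have e2 : fc (fun x : R3 => (![0, 2 * G (x 0) (x 2), 0] : R3) 2) k = 0 := fc_zero k
      rw [e1, e2]
      by_cases hk : k 1 = 0
      · simp [hk]
      · have e0 : fc (fun x : R3 => (![0, 2 * G (x 0) (x 2), 0] : R3) 1) k = 0 := by
          show fc (fun x : R3 => 2 * G (x 0) (x 2)) k = 0
          refine fc_eq_zero _ ?_ 1 ?_ k hk
          · intro x l
            simp only [int_per hG1 hG2]
          · intro x s
            have h1 : (Pi.single (1 : Fin 3) s : R3) 0 = 0 :=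
              Pi.single_eq_of_ne (by decide) _
            have h2 : (Pi.single (1 : Fin 3) s : R3) 2 = 0 :=
              Pi.single_eq_of_ne (by decide) _
            simp only [h1, h2, add_zero]
        rw [e0]
        simp

/-! ## The flow -/

/-- One period of the flow. -/
noncomputable def oneStep (F G : ℝ → ℝ → ℝ) : Equiv.Perm R3 := (shXe F 1).trans (shYe G 1)

/-- The flow of the alternating shear velocity. -/
noncomputable def altPhi (F G : ℝ → ℝ → ℝ) (t : ℝ) : R3 ≃ R3 :=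
  ((oneStep F G ^ ⌊t⌋₊ : Equiv.Perm R3) : R3 ≃ R3).trans
    ((shXe F (min (2 * (t - ⌊t⌋₊)) 1)).trans (shYe G (max (2 * (t - ⌊t⌋₊) - 1) 0)))

lemma oneStep_pow_apply (F G : ℝ → ℝ → ℝ) (n : ℕ) (x : R3) :
    (oneStep F G ^ n) x = (fun y => shY G 1 (shX F 1 y))^[n] x := by
  rw [← Equiv.Perm.iterate_eq_pow]
  rfl

lemma altPhi_first {F G : ℝ → ℝ → ℝ} (n : ℕ) {t : ℝ} (h1 : (n : ℝ) ≤ t)
    (h2 : t ≤ (n : ℝ) + 1 / 2) (x : R3) :
    altPhi F G t x = shX F (2 * (t - n)) ((fun y => shY G 1 (shX F 1 y))^[n] x) := by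
  have hfl : ⌊t⌋₊ = n := by
    rw [Nat.floor_eq_iff ((Nat.cast_nonneg n).trans h1)]
    exact ⟨h1, by linarith⟩
  show shY G _ (shX F _ ((oneStep F G ^ ⌊t⌋₊) x)) = _
  rw [hfl, oneStep_pow_apply, min_eq_left (by linarith), max_eq_right (by linarith), shY_zero]

lemma altPhi_second {F G : ℝ → ℝ → ℝ} (n : ℕ) {t : ℝ} (h1 : (n : ℝ) + 1 / 2 ≤ t)
    (h2 : t ≤ (n : ℝ) + 1) (x : R3) :
    altPhi F G t x
      = shY G (2 * (t - n) - 1) (shX F 1 ((fun y => shY G 1 (shX F 1 y))^[n] x)) := by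
  rcases h2.lt_or_eq with h3 | h3
  · have hfl : ⌊t⌋₊ = n := by
      rw [Nat.floor_eq_iff ((Nat.cast_nonneg n).trans (by linarith))]
      exact ⟨by linarith, h3⟩
    show shY G _ (shX F _ ((oneStep F G ^ ⌊t⌋₊) x)) = _
    rw [hfl, oneStep_pow_apply, min_eq_right (by linarith), max_eq_left (by linarith)]
  · have e := altPhi_first (F := F) (G := G) (n + 1) (t := t) (by push_cast; linarith)
      (by push_cast; linarith) x
    rw [e, Function.iterate_succ_apply']
    have e1 : 2 * (t - ((n + 1 : ℕ) : ℝ)) = 0 := by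
      rw [h3]; push_cast; ring
    have e2 : 2 * (t - (n : ℝ)) - 1 = 1 := by
      rw [h3]; ring
    rw [e1, e2, shX_zero]

lemma int_const_Ico {w : ℝ → R3} {c : R3} {a b : ℝ} (hab : a ≤ b)
    (h : ∀ s ∈ Ico a b, w s = c) :
    IntervalIntegrable w volume a b ∧ ∫ s in a..b, w s = (b - a) • c := by
  have h' : ∀ s ∈ Ioo a b, w s = c := fun s hs => h s ⟨hs.1.le, hs.2⟩
  constructor
  · rw [intervalIntegrable_iff_integrableOn_Ioo_of_le hab]
    refine IntegrableOn.congr_fun (f := fun _ => c) ?_ (fun s hs => (h' s hs).symm)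
      measurableSet_Ioo
    exact integrableOn_const (by simp) (by simp)
  · rw [intervalIntegral.integral_of_le hab, integral_Ioc_eq_integral_Ioo,
      setIntegral_congr_fun measurableSet_Ioo h', setIntegral_const]
    simp [Real.volume_real_Ioo_of_le hab]

lemma fract_of_mem (n : ℕ) {s : ℝ} (h1 : (n : ℝ) ≤ s) (h2 : s < (n : ℝ) + 1) :
    Int.fract s = s - n := by
  rw [Int.fract_eq_iff]
  refine ⟨by linarith, by linarith, n, ?_⟩
  push_cast
  ring

lemma altPhi_int_first {F G : ℝ → ℝ → ℝ} (x : R3) (n : ℕ) {t : ℝ} (h1 : (n : ℝ) ≤ t)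
    (h2 : t ≤ (n : ℝ) + 1 / 2) :
    IntervalIntegrable (fun s => altU F G s (altPhi F G s x)) volume n t ∧
      ∫ s in (n : ℝ)..t, altU F G s (altPhi F G s x)
        = altPhi F G t x - (fun y => shY G 1 (shX F 1 y))^[n] x := by
  set z := (fun y => shY G 1 (shX F 1 y))^[n] x with hz
  obtain ⟨hi, he⟩ := int_const_Ico (w := fun s => altU F G s (altPhi F G s x))
    (c := ![2 * F (z 1) (z 2), 0, 0]) h1 (by
    intro s hs
    have hs1 : (n : ℝ) ≤ s := hs.1
    have hs2 : s < t := hs.2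
    have hfr : Int.fract s < 1 / 2 := by
      rw [fract_of_mem n hs1 (by linarith)]
      linarith
    show altU F G s (altPhi F G s x) = _
    rw [altU_lt hfr, altPhi_first n hs1 (by linarith), ← hz]
    simp)
  refine ⟨hi, ?_⟩
  rw [he, altPhi_first n h1 h2, ← hz]
  apply r3_ext
  · simp; ring
  · simp
  · simp

lemma altPhi_int_second {F G : ℝ → ℝ → ℝ} (x : R3) (n : ℕ) {t : ℝ} (h1 : (n : ℝ) + 1 / 2 ≤ t)
    (h2 : t ≤ (n : ℝ) + 1) :
    IntervalIntegrable (fun s => altU F G s (altPhi F G s x)) volume ((n : ℝ) + 1 / 2) t ∧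
      ∫ s in ((n : ℝ) + 1 / 2)..t, altU F G s (altPhi F G s x)
        = altPhi F G t x - shX F 1 ((fun y => shY G 1 (shX F 1 y))^[n] x) := by
  set z := shX F 1 ((fun y => shY G 1 (shX F 1 y))^[n] x) with hz
  obtain ⟨hi, he⟩ := int_const_Ico (w := fun s => altU F G s (altPhi F G s x))
    (c := ![0, 2 * G (z 0) (z 2), 0]) h1 (by
    intro s hs
    have hs1 : (n : ℝ) + 1 / 2 ≤ s := hs.1
    have hs2 : s < t := hs.2
    have hfr : ¬ Int.fract s < 1 / 2 := by
      rw [fract_of_mem n (by linarith) (by linarith)]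
      linarith
    show altU F G s (altPhi F G s x) = _
    rw [altU_ge hfr, altPhi_second n hs1 (by linarith), ← hz]
    simp)
  refine ⟨hi, ?_⟩
  rw [he, altPhi_second n h1 h2, ← hz]
  apply r3_ext
  · simp
  · simp; ring
  · simp

lemma altPhi_half {F G : ℝ → ℝ → ℝ} (n : ℕ) (x : R3) :
    altPhi F G ((n : ℝ) + 1 / 2) x = shX F 1 ((fun y => shY G 1 (shX F 1 y))^[n] x) := by
  rw [altPhi_first n (by linarith) le_rfl]
  congr 1
  ring

lemma altPhi_int_full {F G : ℝ → ℝ → ℝ} (x : R3) (n : ℕ) :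
    IntervalIntegrable (fun s => altU F G s (altPhi F G s x)) volume 0 n ∧
      ∫ s in (0 : ℝ)..n, altU F G s (altPhi F G s x)
        = (fun y => shY G 1 (shX F 1 y))^[n] x - x := by
  induction n with
  | zero => simp
  | succ n ih =>
    obtain ⟨i1, e1⟩ := ih
    obtain ⟨i2, e2⟩ := altPhi_int_first (F := F) (G := G) x n (t := (n : ℝ) + 1 / 2)
      (by linarith) le_rfl
    obtain ⟨i3, e3⟩ := altPhi_int_second (F := F) (G := G) x n (t := ((n + 1 : ℕ) : ℝ))
      (by push_cast; linarith) (by push_cast; linarith)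
    refine ⟨(i1.trans i2).trans i3, ?_⟩
    rw [← intervalIntegral.integral_add_adjacent_intervals (i1.trans i2) i3,
      ← intervalIntegral.integral_add_adjacent_intervals i1 i2, e1, e2, e3, altPhi_half]
    have e4 : altPhi F G ((n + 1 : ℕ) : ℝ) x = (fun y => shY G 1 (shX F 1 y))^[n + 1] x := by
      rw [altPhi_first (n + 1) le_rfl (by linarith)]
      rw [sub_self, mul_zero, shX_zero]
    rw [e4]
    abel

lemma altPhi_int {F G : ℝ → ℝ → ℝ} (x : R3) {t : ℝ} (ht : 0 ≤ t) :
    IntervalIntegrable (fun s => altU F G s (altPhi F G s x)) volume 0 t ∧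
      altPhi F G t x = x + ∫ s in (0 : ℝ)..t, altU F G s (altPhi F G s x) := by
  set n := ⌊t⌋₊ with hn
  have hn1 : (n : ℝ) ≤ t := Nat.floor_le ht
  have hn2 : t < (n : ℝ) + 1 := Nat.lt_floor_add_one t
  obtain ⟨i1, e1⟩ := altPhi_int_full (F := F) (G := G) x n
  rcases le_total t ((n : ℝ) + 1 / 2) with h | h
  · obtain ⟨i2, e2⟩ := altPhi_int_first (F := F) (G := G) x n hn1 h
    refine ⟨i1.trans i2, ?_⟩
    rw [← intervalIntegral.integral_add_adjacent_intervals i1 i2, e1, e2]
    abel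
  · obtain ⟨i2, e2⟩ := altPhi_int_first (F := F) (G := G) x n (t := (n : ℝ) + 1 / 2)
      (by linarith) le_rfl
    obtain ⟨i3, e3⟩ := altPhi_int_second (F := F) (G := G) x n h hn2.le
    refine ⟨(i1.trans i2).trans i3, ?_⟩
    rw [← intervalIntegral.integral_add_adjacent_intervals (i1.trans i2) i3,
      ← intervalIntegral.integral_add_adjacent_intervals i1 i2, e1, e2, e3, altPhi_half]
    abel

lemma altPhi_isFlow (F G : ℝ → ℝ → ℝ) : IsFlow (altU F G) (altPhi F G) := by
  constructor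
  · intro x t ht
    have ht' : (0 : ℝ) ≤ t := ht
    have hT : (0 : ℝ) ≤ t + 1 := by linarith
    have hi := (altPhi_int (F := F) (G := G) x hT).1
    have hc := intervalIntegral.continuousOn_primitive_interval' hi left_mem_uIcc
    rw [uIcc_of_le hT] at hc
    have h1 : ContinuousWithinAt (fun b => x + ∫ s in (0 : ℝ)..b, altU F G s (altPhi F G s x))
        (Icc 0 (t + 1)) t :=
      continuousWithinAt_const.add (hc t ⟨ht', by linarith⟩)
    have h2 : ContinuousWithinAt (fun b => altPhi F G b x) (Icc 0 (t + 1)) t := by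
      refine h1.congr ?_ ?_
      · intro b hb
        exact (altPhi_int x hb.1).2
      · exact (altPhi_int x ht').2
    refine h2.mono_of_mem_nhdsWithin ?_
    have : Icc (0 : ℝ) (t + 1) = Ici 0 ∩ Iic (t + 1) := by
      ext b; simp
    rw [this]
    exact inter_mem_nhdsWithin _ (Iic_mem_nhds (by linarith))
  · intro t ht x
    exact (altPhi_int x ht).2

theorem exists_altFlow {F G : ℝ → ℝ → ℝ} {K : NNReal} {M : ℝ}
    (hF : LipschitzWith K fun p : ℝ × ℝ => F p.1 p.2)
    (hG : LipschitzWith K fun p : ℝ × ℝ => G p.1 p.2)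
    (hFM : ∀ y z, |F y z| ≤ M) (hGM : ∀ x z, |G x z| ≤ M)
    (hF1 : ∀ y z, F (y + 1) z = F y z) (hF2 : ∀ y z, F y (z + 1) = F y z)
    (hG1 : ∀ x z, G (x + 1) z = G x z) (hG2 : ∀ x z, G x (z + 1) = G x z) :
    Admissible (altU F G) ∧ ∃ Φ : ℝ → R3 ≃ R3, IsFlow (altU F G) Φ ∧
      (∀ (n : ℕ) (x : R3),
        Φ ((n : ℝ) + 1 / 2) x = shX F 1 ((fun y => shY G 1 (shX F 1 y))^[n] x)) ∧
      (∀ t, 0 ≤ t → ∀ (x : R3) (k : Fin 3 → ℤ),
        Φ t (fun i => x i + (k i : ℝ)) = fun i => Φ t x i + (k i : ℝ)) ∧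
      (∀ t, 0 ≤ t → ∀ Bin ψ : R3 → R3, Periodic3 Bin → Periodic3 ψ →
        flux Φ Bin ψ t = ∫ x in cube, ∑ i, fderiv ℝ (Φ t) x (Bin x) i * ψ (Φ t x) i) ∧
      (∀ t, 0 ≤ t → ∀ ψ : R3 → R3, Periodic3 ψ → Continuous ψ →
        ∃ W : R3 → R3, Measurable W ∧ (∃ M, ∀ x i, |W x i| ≤ M) ∧
          ∀ Bin, IsL2 Bin → flux Φ Bin ψ t = ∫ x in cube, ∑ i, W x i * Bin x i) := by
  have hgood : ∀ t, Good (altPhi F G t) := by
    intro t
    have h1 : Good (oneStep F G) := (shXe_good hF hF1 hF2 1).trans (shYe_good hG hG1 hG2 1)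
    exact (h1.pow _).trans ((shXe_good hF hF1 hF2 _).trans (shYe_good hG hG1 hG2 _))
  refine ⟨altU_admissible hF hG hFM hGM hF1 hF2 hG1 hG2, altPhi F G, altPhi_isFlow F G,
    fun n x => altPhi_half n x, fun t _ => (hgood t).comm, ?_, ?_⟩
  · intro t _ Bin ψ hB hψ
    exact (hgood t).flux_eq Bin ψ hB hψ
  · intro t _ ψ hψ hc
    obtain ⟨W, hWm, hWb, hW⟩ := (hgood t).exists_weight ψ hψ hc
    refine ⟨W, hWm, hWb, fun Bin hB => ?_⟩
    have h := (hgood t).flux_eq Bin ψ hB.2.1 hψ
    show ∫ x in cube, ∑ i, ideal (altPhi F G) Bin t x i * ψ x i = _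
    unfold ideal
    rw [h]
    simp only [hW]

end Pool.Agent.LibH36.Dyn
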