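import Pool.Agent.Lib_helper43.Dyn.Defs

set_option autoImplicit false

/-!
# Transfer of functions on the unit cube to the Hilbert space `L²(𝕋³)`
-/

namespace Pool.Agent.LibH36.Dyn

open MeasureTheory Filter Topology Set
open scoped ENNReal ComplexConjugate
open Pool.Agent.Lib_helper43.Dyn

attribute [local instance] instMeasureSpaceUnitAddCircle

/-- The torus. -/
abbrev T3 := UnitAddTorus (Fin 3)

/-- `L²(𝕋³; ℂ)`. -/
noncomputable abbrev H := Lp ℂ 2 (volume : Measure T3)

local instance : IsProbabilityMeasure (volume : Measure UnitAddCircle) :=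
  inferInstanceAs (IsProbabilityMeasure AddCircle.haarAddCircle)

/-- The representative in `[0,1)`. -/
noncomputable def sec1 (a : UnitAddCircle) : ℝ := (AddCircle.equivIco (1 : ℝ) 0 a : ℝ)

/-- The representative in `[0,1)³`. -/
noncomputable def sec (x : T3) : R3 := fun i => sec1 (x i)

theorem sec1_mk (r : ℝ) : sec1 (r : UnitAddCircle) = Int.fract r := by
  unfold sec1
  rw [AddCircle.coe_equivIco_mk_apply]
  simp

theorem mk_sec1 (a : UnitAddCircle) : ((sec1 a : ℝ) : UnitAddCircle) = a :=
  AddCircle.coe_equivIco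

theorem measurable_sec1 : Measurable sec1 :=
  measurable_subtype_coe.comp (AddCircle.measurableEquivIco (1 : ℝ) 0).measurable

theorem measurePreserving_sec1 :
    MeasurePreserving sec1 (volume : Measure UnitAddCircle) (volume.restrict (Ico (0 : ℝ) 1)) := by
  have h1 := (UnitAddCircle.measurePreserving_mk 0)
  refine ⟨measurable_sec1, ?_⟩
  have hv : (volume : Measure UnitAddCircle) =
      Measure.map ((↑) : ℝ → UnitAddCircle) (volume.restrict (Ioc (0 : ℝ) (0 + 1))) := by
    rw [h1.map_eq]
    simp [volume, AddCircle.haarAddCircle]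
  rw [hv, Measure.map_map measurable_sec1 h1.measurable]
  have h2 : (sec1 ∘ ((↑) : ℝ → UnitAddCircle)) =ᵐ[volume.restrict (Ioc (0 : ℝ) (0 + 1))]
      fun x => x := by
    rw [Filter.EventuallyEq, ae_restrict_iff' measurableSet_Ioc]
    have : ∀ᵐ x : ℝ, x ≠ 1 := by
      rw [ae_iff]
      simp
    filter_upwards [this] with x hx hx2
    simp only [Function.comp_apply, sec1_mk]
    rw [Int.fract_eq_self]
    exact ⟨hx2.1.le, lt_of_le_of_ne (by simpa using hx2.2) hx⟩
  rw [Measure.map_congr h2, Measure.map_id', zero_add]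
  exact Measure.restrict_congr_set Ico_ae_eq_Ioc.symm

theorem cube_eq : cube = Set.pi Set.univ (fun _ : Fin 3 => Ico (0 : ℝ) 1) := by
  ext x
  simp [cube, Set.mem_pi]

theorem measurableSet_cube : MeasurableSet cube := by
  rw [cube_eq]
  exact MeasurableSet.univ_pi fun _ => measurableSet_Ico

theorem measurePreserving_sec :
    MeasurePreserving sec (volume : Measure T3) (volume.restrict cube) := by
  have h := measurePreserving_pi (fun _ : Fin 3 => (volume : Measure UnitAddCircle))
    (fun _ : Fin 3 => (volume.restrict (Ico (0 : ℝ) 1)))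
    (fun _ => measurePreserving_sec1)
  have e : (volume.restrict cube : Measure R3) =
      Measure.pi (fun _ : Fin 3 => (volume.restrict (Ico (0 : ℝ) 1))) := by
    rw [cube_eq, ← Measure.restrict_pi_pi]
    rfl
  rw [e]
  exact h

theorem sec_mem (x : T3) : sec x ∈ cube := by
  intro i
  have := (AddCircle.equivIco (1 : ℝ) 0 (x i)).2
  simpa [sec, sec1] using this

instance : IsProbabilityMeasure (volume.restrict cube : Measure R3) := by
  constructor
  rw [← measurePreserving_sec.map_eq, Measure.map_apply measurePreserving_sec.measurable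
    MeasurableSet.univ]
  simp

/-- The character `e^{2πi k·x}`. -/
noncomputable def ch (k : Fin 3 → ℤ) (x : R3) : ℂ :=
  Complex.exp (2 * Real.pi * Complex.I * ∑ i, (k i : ℂ) * (x i : ℂ))

theorem mFourier_eq (k : Fin 3 → ℤ) (x : T3) : UnitAddTorus.mFourier k x = ch k (sec x) := by
  have : ∀ i, x i = ((sec x i : ℝ) : UnitAddCircle) := fun i => (mk_sec1 (x i)).symm
  simp only [UnitAddTorus.mFourier, ContinuousMap.coe_mk, ch, Finset.mul_sum]
  rw [Complex.exp_sum]
  refine Finset.prod_congr rfl fun i _ => ?_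
  conv_lhs => rw [this i]
  rw [fourier_coe_apply]
  congr 1
  push_cast
  ring

theorem norm_ch (k : Fin 3 → ℤ) (x : R3) : ‖ch k x‖ = 1 := by
  have : 2 * (Real.pi : ℂ) * Complex.I * ∑ i, (k i : ℂ) * (x i : ℂ) =
      ((2 * Real.pi * ∑ i, (k i : ℝ) * x i : ℝ) : ℂ) * Complex.I := by
    push_cast; ring
  rw [ch, this, Complex.norm_exp_ofReal_mul_I]

theorem conj_ch (k : Fin 3 → ℤ) (x : R3) : conj (ch k x) =
    Complex.exp (-(2 * Real.pi * Complex.I * ∑ i, (k i : ℂ) * (x i : ℂ))) := by
  rw [ch, ← Complex.exp_conj]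
  congr 1
  simp only [map_mul, map_sum, map_intCast, Complex.conj_ofReal, Complex.conj_I]
  rw [show (starRingEnd ℂ) 2 = 2 from map_ofNat _ 2]
  ring

theorem continuous_ch (k : Fin 3 → ℤ) : Continuous (ch k) := by
  unfold ch
  fun_prop

/-- A function on the cube as an element of `L²(𝕋³)`. -/
noncomputable def vec (f : R3 → ℂ) (hf : MemLp f 2 (volume.restrict cube)) : H :=
  (hf.comp_measurePreserving measurePreserving_sec).toLp (f ∘ sec)

theorem vec_ae {f : R3 → ℂ} (hf : MemLp f 2 (volume.restrict cube)) :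
    (vec f hf : T3 → ℂ) =ᵐ[volume] f ∘ sec := MemLp.coeFn_toLp _

theorem inner_vec {f g : R3 → ℂ} (hf : MemLp f 2 (volume.restrict cube))
    (hg : MemLp g 2 (volume.restrict cube)) :
    inner ℂ (vec f hf) (vec g hg) = ∫ x in cube, conj (f x) * g x := by
  rw [L2.inner_def]
  have h1 : ∀ᵐ x : T3, inner ℂ ((vec f hf : T3 → ℂ) x) ((vec g hg : T3 → ℂ) x) =
      (fun y => conj (f y) * g y) (sec x) := by
    filter_upwards [vec_ae hf, vec_ae hg] with x h1 h2
    rw [h1, h2]
    simp [mul_comm]
  rw [integral_congr_ae h1, ← measurePreserving_sec.map_eq, integral_map]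
  · exact measurePreserving_sec.measurable.aemeasurable
  · rw [measurePreserving_sec.map_eq]
    exact (Complex.continuous_conj.comp_aestronglyMeasurable hf.1).mul hg.1

/-- The Hilbert basis of characters. -/
noncomputable abbrev bas : HilbertBasis (Fin 3 → ℤ) ℂ H := UnitAddTorus.mFourierBasis

theorem memLp_ch (k : Fin 3 → ℤ) : MemLp (ch k) 2 (volume.restrict cube) :=
  MemLp.of_bound (continuous_ch k).aestronglyMeasurable 1 (by simp [norm_ch])

theorem bas_eq (k : Fin 3 → ℤ) : bas k = vec (ch k) (memLp_ch k) := by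
  have h : (bas k : T3 → ℂ) =ᵐ[volume] UnitAddTorus.mFourier k := by
    have := UnitAddTorus.coeFn_mFourierLp (d := Fin 3) 2 k
    rw [show bas k = UnitAddTorus.mFourierLp 2 k from
      congrFun UnitAddTorus.coe_mFourierBasis k]
    exact this
  apply Lp.ext
  filter_upwards [h, vec_ae (memLp_ch k)] with x h1 h2
  rw [h1, h2]
  exact mFourier_eq k x

theorem memLp_mul {w : T3 → ℝ} (hw : Measurable w) {M : ℝ} (hM : ∀ x, |w x| ≤ M)
    {f : T3 → ℂ} (hf : MemLp f 2 volume) : MemLp (fun x => (w x : ℂ) * f x) 2 volume := by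
  refine MemLp.of_le_mul (c := M) hf ?_ ?_
  · exact (Complex.measurable_ofReal.comp hw).aestronglyMeasurable.mul hf.1
  · refine Eventually.of_forall fun x => ?_
    rw [norm_mul, Complex.norm_real, Real.norm_eq_abs]
    exact mul_le_mul_of_nonneg_right (hM x) (norm_nonneg _)

/-- Multiplication by a bounded real function. -/
noncomputable def mulL (w : T3 → ℝ) (hw : Measurable w) (M : ℝ) (hM : ∀ x, |w x| ≤ M) :
    H →L[ℂ] H :=
  LinearMap.mkContinuous
    { toFun := fun f => (memLp_mul hw hM (Lp.memLp f)).toLp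
      map_add' := by
        intro f g
        apply Lp.ext
        filter_upwards [MemLp.coeFn_toLp (memLp_mul hw hM (Lp.memLp (f + g))),
          MemLp.coeFn_toLp (memLp_mul hw hM (Lp.memLp f)),
          MemLp.coeFn_toLp (memLp_mul hw hM (Lp.memLp g)), Lp.coeFn_add f g,
          Lp.coeFn_add (memLp_mul hw hM (Lp.memLp f)).toLp (memLp_mul hw hM (Lp.memLp g)).toLp]
          with x h1 h2 h3 h4 h5
        rw [h1, h5, Pi.add_apply, h2, h3, h4, Pi.add_apply, mul_add]
      map_smul' := by
        intro c f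
        apply Lp.ext
        filter_upwards [MemLp.coeFn_toLp (memLp_mul hw hM (Lp.memLp (c • f))),
          MemLp.coeFn_toLp (memLp_mul hw hM (Lp.memLp f)), Lp.coeFn_smul c f,
          Lp.coeFn_smul c (memLp_mul hw hM (Lp.memLp f)).toLp]
          with x h1 h2 h3 h4
        rw [h1, RingHom.id_apply, h4, Pi.smul_apply, h2, h3, Pi.smul_apply, smul_eq_mul,
          smul_eq_mul]
        ring }
    M (by
      intro f
      refine Lp.norm_le_mul_norm_of_ae_le_mul ?_
      filter_upwards [MemLp.coeFn_toLp (memLp_mul hw hM (Lp.memLp f))] with x h1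
      simp only [LinearMap.coe_mk, AddHom.coe_mk]
      rw [h1, norm_mul, Complex.norm_real, Real.norm_eq_abs]
      exact mul_le_mul_of_nonneg_right (hM x) (norm_nonneg _))

theorem mulL_ae {w : T3 → ℝ} (hw : Measurable w) {M : ℝ} (hM : ∀ x, |w x| ≤ M) (f : H) :
    (mulL w hw M hM f : T3 → ℂ) =ᵐ[volume] fun x => (w x : ℂ) * f x :=
  MemLp.coeFn_toLp (memLp_mul hw hM (Lp.memLp f))

theorem norm_mulL_le {w : T3 → ℝ} (hw : Measurable w) {M : ℝ} (hM : ∀ x, |w x| ≤ M) (f : H) :
    ‖mulL w hw M hM f‖ ≤ M * ‖f‖ := by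
  refine Lp.norm_le_mul_norm_of_ae_le_mul ?_
  filter_upwards [mulL_ae hw hM f] with x h1
  rw [h1, norm_mul, Complex.norm_real, Real.norm_eq_abs]
  exact mul_le_mul_of_nonneg_right (hM x) (norm_nonneg _)

theorem inner_mulL {w : T3 → ℝ} (hw : Measurable w) {M : ℝ} (hM : ∀ x, |w x| ≤ M) (f g : H) :
    inner ℂ (mulL w hw M hM f) g = inner ℂ f (mulL w hw M hM g) := by
  rw [L2.inner_def, L2.inner_def]
  apply integral_congr_ae
  filter_upwards [mulL_ae hw hM f, mulL_ae hw hM g] with x h1 h2
  rw [h1, h2]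
  simp only [RCLike.inner_apply, map_mul, Complex.conj_ofReal]
  ring

end Pool.Agent.LibH36.Dyn
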