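import Pool.Agent.Lib_helper36.Dyn.TimeEnergy
import Pool.Agent.Lib_helper36.Dyn.Fourier

set_option autoImplicit false

/-!
# Zeldovich's antidynamo theorem: planar flows are not fast dynamos
-/

namespace Pool.Agent.LibH36.Dyn

open MeasureTheory Filter Topology Set
open scoped ComplexConjugate ENNReal
open Pool.Agent.Lib_helper43.Dyn

attribute [local instance] instMeasureSpaceUnitAddCircle

theorem memLp_of_isL2 {v : R3 → R3} (hm : Measurable v) (hn : normSq v < ⊤) (j : Fin 3) :
    MemLp (fun x => (v x j : ℂ)) 2 (volume.restrict cube) := by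
  have hmj : Measurable fun x => v x j := (measurable_pi_apply j).comp hm
  have hmc : AEStronglyMeasurable (fun x => (v x j : ℂ)) (volume.restrict cube) :=
    (Complex.measurable_ofReal.comp hmj).aestronglyMeasurable
  rw [memLp_two_iff_integrable_sq_norm hmc]
  refine ⟨(hmc.norm.pow 2), ?_⟩
  refine lt_of_le_of_lt ?_ hn
  apply lintegral_mono
  intro x
  show ‖(‖(v x j : ℂ)‖ ^ 2 : ℝ)‖ₑ ≤ ENNReal.ofReal (∑ i, v x i ^ 2)
  rw [Real.enorm_eq_ofReal (by positivity)]
  apply ENNReal.ofReal_le_ofReal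
  rw [Complex.norm_real, Real.norm_eq_abs, sq_abs]
  exact Finset.single_le_sum (f := fun i => v x i ^ 2) (fun _ _ => by positivity)
    (Finset.mem_univ j)

theorem norm_vec_sq {f : R3 → ℂ} (hf : MemLp f 2 (volume.restrict cube)) :
    ‖vec f hf‖ ^ 2 = ∫ x in cube, ‖f x‖ ^ 2 := by
  have h1 := inner_vec hf hf
  have h2 : (inner ℂ (vec f hf) (vec f hf) : ℂ) = ((‖vec f hf‖ ^ 2 : ℝ) : ℂ) := by
    rw [inner_self_eq_norm_sq_to_K]
    norm_cast
  have h3 : ∫ x in cube, conj (f x) * f x = ((∫ x in cube, ‖f x‖ ^ 2 : ℝ) : ℂ) := by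
    rw [← integral_complex_ofReal]
    refine integral_congr_ae (Eventually.of_forall fun x => ?_)
    exact conj_mul_self' (f x)
  rw [h2, h3] at h1
  exact_mod_cast h1

/-- The components of a field as vectors of `H`. -/
noncomputable def vf (v : R3 → R3) (j : Fin 3) : H := by
  classical
  exact if h : MemLp (fun x => (v x j : ℂ)) 2 (volume.restrict cube) then vec _ h else 0

theorem vf_eq {v : R3 → R3} {j : Fin 3}
    (h : MemLp (fun x => (v x j : ℂ)) 2 (volume.restrict cube)) : vf v j = vec _ h := by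
  unfold vf
  rw [dif_pos h]

theorem sum_norm_vf {v : R3 → R3} (hm : Measurable v) (hn : normSq v < ⊤) :
    ENNReal.ofReal (∑ j, ‖vf v j‖ ^ 2) = normSq v := by
  have h1 : ∀ j, ‖vf v j‖ ^ 2 = ∫ x in cube, v x j ^ 2 := by
    intro j
    rw [vf_eq (memLp_of_isL2 hm hn j), norm_vec_sq]
    refine integral_congr_ae (Eventually.of_forall fun x => ?_)
    simp
  have hint : ∀ j, Integrable (fun x => v x j ^ 2) (volume.restrict cube) := by
    intro j
    have := (memLp_two_iff_integrable_sq_norm (memLp_of_isL2 hm hn j).1).mp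
      (memLp_of_isL2 hm hn j)
    refine this.congr (Eventually.of_forall fun x => ?_)
    simp
  rw [Finset.sum_congr rfl fun j _ => h1 j, ← integral_finsetSum _ fun j _ => hint j,
    ofReal_integral_eq_lintegral_ofReal (integrable_finsetSum _ fun j _ => hint j)
      (Eventually.of_forall fun x => Finset.sum_nonneg fun _ _ => by positivity)]
  rfl

theorem vf_sub {v w : R3 → R3} (hv : ∀ j, MemLp (fun x => (v x j : ℂ)) 2 (volume.restrict cube))
    (hw : ∀ j, MemLp (fun x => (w x j : ℂ)) 2 (volume.restrict cube)) (j : Fin 3) :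
    vf v j - vf w j = vf (fun x => v x - w x) j := by
  have h : MemLp (fun x => ((v x - w x) j : ℂ)) 2 (volume.restrict cube) := by
    refine MemLp.ae_eq ?_ ((hv j).sub (hw j))
    refine Eventually.of_forall fun x => ?_
    simp
  rw [vf_eq (hv j), vf_eq (hw j), vf_eq h]
  apply Lp.ext
  filter_upwards [vec_ae (hv j), vec_ae (hw j), vec_ae h,
    Lp.coeFn_sub (vec _ (hv j)) (vec _ (hw j))] with x h1 h2 h3 h4
  rw [h4, Pi.sub_apply, h1, h2, h3]
  simp

theorem co_vf {v : R3 → R3} {j : Fin 3}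
    (h : MemLp (fun x => (v x j : ℂ)) 2 (volume.restrict cube)) (k : Fin 3 → ℤ) :
    inner ℂ (bas k) (vf v j) = fc (fun x => v x j) k := by
  rw [vf_eq h, bas_eq, inner_vec (memLp_ch k) h]
  unfold fc
  refine integral_congr_ae (Eventually.of_forall fun x => ?_)
  simp only [conj_ch]
  ring

/-- Multiplication by the components of a velocity field. -/
noncomputable def uop (w : R3 → R3) (hw : Measurable w) (M : ℝ) (hM : ∀ x, ‖w x‖ ≤ M) (j : Fin 3) :
    H →L[ℂ] H :=
  mulL (fun x => w (sec x) j)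
    (((measurable_pi_apply j).comp hw).comp measurePreserving_sec.measurable) M
    (fun x => (norm_le_pi_norm (w (sec x)) j).trans (hM _))

theorem uop_vf {w : R3 → R3} (hw : Measurable w) {M : ℝ} (hM : ∀ x, ‖w x‖ ≤ M) (i j : Fin 3)
    {v : R3 → R3} (h : MemLp (fun x => (v x j : ℂ)) 2 (volume.restrict cube)) (k : Fin 3 → ℤ) :
    inner ℂ (bas k) (uop w hw M hM i (vf v j)) = fc (fun x => w x i * v x j) k := by
  have h2 : MemLp (fun x => ((w x i * v x j : ℝ) : ℂ)) 2 (volume.restrict cube) := by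
    refine MemLp.of_le_mul (c := M) h ?_ ?_
    · have h3 : AEStronglyMeasurable (fun x => ((w x i : ℝ) : ℂ) * (v x j : ℂ))
          (volume.restrict cube) :=
        (Complex.measurable_ofReal.comp
          ((measurable_pi_apply i).comp hw)).aestronglyMeasurable.mul h.1
      refine h3.congr (Eventually.of_forall fun x => ?_)
      simp
    · refine Eventually.of_forall fun x => ?_
      rw [Complex.norm_real, Complex.norm_real, norm_mul]
      exact mul_le_mul_of_nonneg_right ((norm_le_pi_norm (w x) i).trans (hM x)) (norm_nonneg _)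
  have e : uop w hw M hM i (vf v j) = vec _ h2 := by
    rw [vf_eq h]
    apply Lp.ext
    filter_upwards [mulL_ae (((measurable_pi_apply i).comp hw).comp
      measurePreserving_sec.measurable) (fun x => (norm_le_pi_norm (w (sec x)) i).trans (hM _))
      (vec _ h), vec_ae h, vec_ae h2] with x h1 h3 h4
    rw [h4]
    refine h1.trans ?_
    rw [h3]
    simp
  rw [e, bas_eq, inner_vec (memLp_ch k) h2]
  unfold fc
  refine integral_congr_ae (Eventually.of_forall fun x => ?_)
  simp only [conj_ch]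
  ring

theorem uop_bas {w : R3 → R3} (hw : Measurable w) {M : ℝ} (hM : ∀ x, ‖w x‖ ≤ M) (i : Fin 3)
    (k l : Fin 3 → ℤ) :
    inner ℂ (bas k) (uop w hw M hM i (bas l)) = fc (fun x => w x i) (k - l) := by
  have h2 : MemLp (fun x => (w x i : ℂ) * ch l x) 2 (volume.restrict cube) := by
    refine MemLp.of_le_mul (c := M) (memLp_ch l) ?_ ?_
    · exact (Complex.measurable_ofReal.comp
          ((measurable_pi_apply i).comp hw)).aestronglyMeasurable.mul (memLp_ch l).1
    · refine Eventually.of_forall fun x => ?_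
      rw [norm_mul, Complex.norm_real]
      exact mul_le_mul_of_nonneg_right ((norm_le_pi_norm (w x) i).trans (hM x)) (norm_nonneg _)
  have e : uop w hw M hM i (bas l) = vec _ h2 := by
    rw [bas_eq]
    apply Lp.ext
    filter_upwards [mulL_ae (((measurable_pi_apply i).comp hw).comp
      measurePreserving_sec.measurable) (fun x => (norm_le_pi_norm (w (sec x)) i).trans (hM _))
      (vec _ (memLp_ch l)), vec_ae (memLp_ch l), vec_ae h2] with x h1 h3 h4
    rw [h4]
    refine h1.trans ?_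
    rw [h3]
    simp
  rw [e, bas_eq, inner_vec (memLp_ch k) h2]
  unfold fc
  refine integral_congr_ae (Eventually.of_forall fun x => ?_)
  simp only [conj_ch]
  rw [ch, mul_left_comm, ← Complex.exp_add]
  congr 2
  simp only [Pi.sub_apply, Int.cast_sub, sub_mul, Finset.sum_sub_distrib]
  ring

section Evolution

variable {u : ℝ → R3 → R3} {M : ℝ} {ε : ℝ} {Bin : R3 → R3} {B : ℝ → R3 → R3}

theorem meas_slice {u : ℝ → R3 → R3} (hu : Measurable (fun p : ℝ × R3 => u p.1 p.2)) (t : ℝ) :
    Measurable (u t) := hu.comp measurable_prodMk_left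

/-- The velocity operators. -/
noncomputable def UU (u : ℝ → R3 → R3) (hu : Measurable (fun p : ℝ × R3 => u p.1 p.2)) (M : ℝ)
    (hM : ∀ t x, ‖u t x‖ ≤ M) (t : ℝ) (j : Fin 3) : H →L[ℂ] H :=
  uop (u t) (meas_slice hu t) M (hM t) j

theorem UU_sym (hu : Measurable (fun p : ℝ × R3 => u p.1 p.2)) (hM : ∀ t x, ‖u t x‖ ≤ M)
    (t : ℝ) (j : Fin 3) (x y : H) :
    inner ℂ (UU u hu M hM t j x) y = inner ℂ x (UU u hu M hM t j y) :=
  inner_mulL (((measurable_pi_apply j).comp (meas_slice hu t)).comp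
    measurePreserving_sec.measurable)
    (fun x => (norm_le_pi_norm (u t (sec x)) j).trans (hM t _)) x y

theorem UU_bound (hu : Measurable (fun p : ℝ × R3 => u p.1 p.2)) (hM : ∀ t x, ‖u t x‖ ≤ M)
    (t : ℝ) (j : Fin 3) (x : H) : ‖UU u hu M hM t j x‖ ≤ M * ‖x‖ :=
  norm_mulL_le (((measurable_pi_apply j).comp (meas_slice hu t)).comp
    measurePreserving_sec.measurable)
    (fun x => (norm_le_pi_norm (u t (sec x)) j).trans (hM t _)) x

theorem isSolution_memLp (hB : IsSolution ε u Bin B) {t : ℝ} (ht : 0 ≤ t) (j : Fin 3) :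
    MemLp (fun x => (B t x j : ℂ)) 2 (volume.restrict cube) :=
  memLp_of_isL2 (hB.isL2 t ht).1 (hB.isL2 t ht).2.2 j

theorem co_B (hB : IsSolution ε u Bin B) {t : ℝ} (ht : 0 ≤ t) (k : Fin 3 → ℤ) (j : Fin 3) :
    co bas (fun i => vf (B t) i) k j = fc (fun x => B t x j) k :=
  co_vf (isSolution_memLp hB ht j) k

theorem fc_integrable {v : R3 → ℝ} (hv : MemLp (fun x => (v x : ℂ)) 2 (volume.restrict cube))
    (k : Fin 3 → ℤ) : Integrable (fun x => (v x : ℂ) *
      Complex.exp (-(2 * Real.pi * Complex.I * ∑ i, (k i : ℂ) * (x i : ℂ))))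
      (volume.restrict cube) := by
  have h1 : Integrable (fun x => (v x : ℂ)) (volume.restrict cube) :=
    hv.integrable (by norm_num)
  refine h1.mul_bdd (c := 1) ?_ ?_
  · exact Continuous.aestronglyMeasurable (by fun_prop)
  · refine Eventually.of_forall fun x => ?_
    rw [← conj_ch, Complex.norm_conj, norm_ch]

theorem memLp_prod {w v : R3 → R3} (hw : Measurable w) {M : ℝ} (hM : ∀ x, ‖w x‖ ≤ M) (i j : Fin 3)
    (h : MemLp (fun x => (v x j : ℂ)) 2 (volume.restrict cube)) :
    MemLp (fun x => ((w x i * v x j : ℝ) : ℂ)) 2 (volume.restrict cube) := by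
  refine MemLp.of_le_mul (c := M) h ?_ ?_
  · have h3 : AEStronglyMeasurable (fun x => ((w x i : ℝ) : ℂ) * (v x j : ℂ))
        (volume.restrict cube) :=
      (Complex.measurable_ofReal.comp
        ((measurable_pi_apply i).comp hw)).aestronglyMeasurable.mul h.1
    refine h3.congr (Eventually.of_forall fun x => ?_)
    simp
  · refine Eventually.of_forall fun x => ?_
    rw [Complex.norm_real, Complex.norm_real, norm_mul]
    exact mul_le_mul_of_nonneg_right ((norm_le_pi_norm (w x) i).trans (hM x)) (norm_nonneg _)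

theorem fc_sub {v w : R3 → ℝ} (hv : MemLp (fun x => (v x : ℂ)) 2 (volume.restrict cube))
    (hw : MemLp (fun x => (w x : ℂ)) 2 (volume.restrict cube)) (k : Fin 3 → ℤ) :
    fc (fun x => v x - w x) k = fc v k - fc w k := by
  unfold fc
  rw [← integral_sub (fc_integrable hv k) (fc_integrable hw k)]
  refine integral_congr_ae (Eventually.of_forall fun x => ?_)
  push_cast
  ring

theorem co_XX (hu : Measurable (fun p : ℝ × R3 => u p.1 p.2)) (hM : ∀ t x, ‖u t x‖ ≤ M)
    (h3 : ∀ t x, u t x 2 = 0) (hB : IsSolution ε u Bin B) {t : ℝ} (ht : 0 ≤ t) (k : Fin 3 → ℤ)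
    (j : Fin 3) :
    co bas (XX (UU u hu M hM t) (fun i => vf (B t) i)) k j =
      fc (fun x => crossProduct (u t x) (B t x) j) k := by
  have hb := fun j => isSolution_memLp hB ht j
  have hw := meas_slice hu t
  have key : ∀ i j, inner ℂ (bas k) (UU u hu M hM t i (vf (B t) j)) =
      fc (fun x => u t x i * B t x j) k := fun i j => uop_vf hw (hM t) i j (hb j) k
  have hp : ∀ i j, MemLp (fun x => ((u t x i * B t x j : ℝ) : ℂ)) 2 (volume.restrict cube) :=
    fun i j => memLp_prod hw (hM t) i j (hb j)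
  simp only [cross_apply]
  fin_cases j
  · simp only [Fin.zero_eta, Matrix.cons_val, h3, zero_mul, sub_zero]
    exact key 1 2
  · simp only [Fin.mk_one, Matrix.cons_val, h3, zero_mul, zero_sub]
    have e : co bas (XX (UU u hu M hM t) (fun i => vf (B t) i)) k 1 =
        -inner ℂ (bas k) (UU u hu M hM t 0 (vf (B t) 2)) := by
      simp [co, XX, inner_neg_right]
    rw [e, key 0 2]
    unfold fc
    rw [← integral_neg]
    refine integral_congr_ae (Eventually.of_forall fun x => ?_)
    push_cast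
    ring
  · simp only [Fin.reduceFinMk, Matrix.cons_val]
    have e : co bas (XX (UU u hu M hM t) (fun i => vf (B t) i)) k 2 =
        inner ℂ (bas k) (UU u hu M hM t 0 (vf (B t) 1)) -
          inner ℂ (bas k) (UU u hu M hM t 1 (vf (B t) 0)) := by
      simp [co, XX, inner_sub_right]
    rw [e, key 0 1, key 1 0, fc_sub (hp 0 1) (hp 1 0)]

/-- The slice conditions hold wherever the gradient is square summable. -/
theorem slice_of (hu : Admissible u) (hM : ∀ t x, ‖u t x‖ ≤ M)
    (h3 : ∀ t x, u t x 2 = 0) (hB : IsSolution ε u Bin B) {t : ℝ} (ht : 0 ≤ t)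
    (hfin : Summable fun k => q k * ∑ i, ‖co bas (fun i => vf (B t) i) k i‖ ^ 2) :
    Slice bas M (UU u hu.measurable M hM t) (fun i => vf (B t) i) where
  sym := UU_sym hu.measurable hM t
  bound := UU_bound hu.measurable hM t
  zero := by
    intro x
    apply Lp.ext
    have h0 := mulL_ae (((measurable_pi_apply 2).comp (meas_slice hu.measurable t)).comp
      measurePreserving_sec.measurable)
      (fun x => (norm_le_pi_norm (u t (sec x)) 2).trans (hM t _)) x
    refine h0.trans ?_
    filter_upwards [Lp.coeFn_zero ℂ 2 (volume : Measure T3)] with y hy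
    rw [hy]
    simp [h3]
  div := by
    intro k l
    have h1 := hu.divFree t (k - l)
    rw [← h1]
    refine Finset.sum_congr rfl fun j _ => ?_
    have h2 : inner ℂ (bas k) (UU u hu.measurable M hM t j (bas l)) =
        fc (fun x => u t x j) (k - l) := uop_bas _ _ j k l
    rw [h2]
    simp
  divV := by
    intro k
    have h1 := hB.divFree t ht k
    rw [← h1]
    refine Finset.sum_congr rfl fun j _ => ?_
    rw [co_vf (isSolution_memLp hB ht j) k]
  h1 := hfin

theorem meas_fc {f : ℝ → R3 → ℝ} (hf : Measurable (fun p : ℝ × R3 => f p.1 p.2))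
    (k : Fin 3 → ℤ) : StronglyMeasurable fun t => fc (f t) k := by
  unfold fc
  have : Measurable (fun p : ℝ × R3 => (f p.1 p.2 : ℂ) *
      Complex.exp (-(2 * Real.pi * Complex.I * ∑ i, (k i : ℂ) * (p.2 i : ℂ)))) := by
    refine (Complex.measurable_ofReal.comp hf).mul ?_
    exact Continuous.measurable (by fun_prop)
  exact this.stronglyMeasurable.integral_prod_right'

theorem evo_of (hu : Admissible u) (hM : ∀ t x, ‖u t x‖ ≤ M) (hM0 : 0 ≤ M)
    (h3 : ∀ t x, u t x 2 = 0) (hε : 0 < ε) (hB : IsSolution ε u Bin B) {T : ℝ} (hT : 0 ≤ T) :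
    Evo bas M ε T (UU u hu.measurable M hM) (fun t i => vf (B t) i) := by
  have hgradE : ∀ t : ℝ, 0 ≤ t → (∑' k : Fin 3 → ℤ,
      ENNReal.ofReal ((∑ i, (k i : ℝ) ^ 2) * ∑ i, ‖fc (fun x => B t x i) k‖ ^ 2)) =
      ∑' k : Fin 3 → ℤ, ENNReal.ofReal (q k * ∑ i, ‖co bas (fun i => vf (B t) i) k i‖ ^ 2) := by
    intro t ht
    simp only [co_B hB ht]
    rfl
  have hnn : ∀ (t : ℝ) (k : Fin 3 → ℤ),
      0 ≤ q k * ∑ i, ‖co bas (fun i => vf (B t) i) k i‖ ^ 2 := fun t k =>
    mul_nonneg (q_nonneg k) (Finset.sum_nonneg fun _ _ => by positivity)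
  have hmc : ∀ (k : Fin 3 → ℤ) (j : Fin 3), AEStronglyMeasurable
      (fun t => co bas (fun i => vf (B t) i) k j) (volume.restrict (Icc 0 T)) := by
    intro k j
    have h1 : Measurable (fun p : ℝ × R3 => B p.1 p.2 j) :=
      (measurable_pi_apply j).comp hB.measurable
    refine (meas_fc (f := fun t x => B t x j) h1 k).aestronglyMeasurable.congr ?_
    filter_upwards [ae_restrict_mem measurableSet_Icc] with t ht
    exact (co_B hB ht.1 k j).symm
  have hlin : ∫⁻ t in Icc 0 T, ∑' k : Fin 3 → ℤ,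
      ENNReal.ofReal (q k * ∑ i, ‖co bas (fun i => vf (B t) i) k i‖ ^ 2) < ⊤ := by
    have := hB.h1 T
    rw [setLIntegral_congr_fun measurableSet_Icc (fun t ht => hgradE t ht.1)] at this
    exact this
  have hmeasE : AEMeasurable (fun t => ∑' k : Fin 3 → ℤ,
      ENNReal.ofReal (q k * ∑ i, ‖co bas (fun i => vf (B t) i) k i‖ ^ 2))
      (volume.restrict (Icc 0 T)) := by
    refine AEMeasurable.tsum fun k => ?_
    refine (AEMeasurable.ennreal_ofReal ?_)
    refine AEMeasurable.const_mul ?_ _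
    exact (Finset.aestronglyMeasurable_fun_sum _ fun i _ =>
      ((hmc k i).norm.pow 2)).aemeasurable
  have hae := ae_lt_top' hmeasE hlin.ne
  have hsummable : ∀ t, (∑' k : Fin 3 → ℤ,
      ENNReal.ofReal (q k * ∑ i, ‖co bas (fun i => vf (B t) i) k i‖ ^ 2)) < ⊤ →
      Summable fun k => q k * ∑ i, ‖co bas (fun i => vf (B t) i) k i‖ ^ 2 := by
    intro t ht
    have := ENNReal.summable_toReal ht.ne
    refine this.congr fun k => ?_
    rw [ENNReal.toReal_ofReal (hnn t k)]
  have hIocIcc : (volume.restrict (Ioc 0 T) : Measure ℝ) ≤ volume.restrict (Icc 0 T) :=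
    Measure.restrict_mono Ioc_subset_Icc_self le_rfl
  refine ⟨hT, hM0, hε, ?_, ?_, ?_, ?_, ?_, ?_⟩
  · -- continuity
    intro j t ht
    have h1 := hB.continuous t ht.1
    have h2 : Tendsto (fun s => normSq (fun x => B s x - B t x)) (𝓝[Icc 0 T] t) (𝓝 0) :=
      h1.mono_left (nhdsWithin_mono t Icc_subset_Ici_self)
    rw [ContinuousWithinAt, tendsto_iff_norm_sub_tendsto_zero]
    have h3 : Tendsto (fun s => ‖vf (B s) j - vf (B t) j‖ ^ 2) (𝓝[Icc 0 T] t) (𝓝 0) := by
      have h4 : Tendsto (fun s => (normSq (fun x => B s x - B t x)).toReal)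
          (𝓝[Icc 0 T] t) (𝓝 0) := by
        have := (ENNReal.tendsto_toReal (ENNReal.zero_ne_top)).comp h2
        rw [ENNReal.toReal_zero] at this
        exact this
      have h5 : ∀ᶠ s in 𝓝[Icc 0 T] t, normSq (fun x => B s x - B t x) < ⊤ :=
        h2.eventually (gt_mem_nhds (by simp))
      refine squeeze_zero' (Eventually.of_forall fun s => by positivity) ?_ h4
      filter_upwards [h5, self_mem_nhdsWithin] with s hs hsm
      have m1 := (hB.isL2 s hsm.1).1
      have m2 := (hB.isL2 t ht.1).1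
      have e := vf_sub (isSolution_memLp hB hsm.1) (isSolution_memLp hB ht.1) j
      rw [e]
      have e2 := sum_norm_vf (m1.sub m2) hs
      have e3 : (normSq (fun x => B s x - B t x)) = normSq (B s - B t) := rfl
      rw [e3, ← e2, ENNReal.toReal_ofReal (Finset.sum_nonneg fun _ _ => by positivity)]
      exact Finset.single_le_sum (f := fun i => ‖vf (B s - B t) i‖ ^ 2)
        (fun _ _ => by positivity) (Finset.mem_univ j)
    have h6 := h3.sqrt
    simpa using h6
  · intro s _ j x
    exact UU_bound hu.measurable hM s j x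
  · have h4 : ∀ᵐ s ∂(volume.restrict (Icc 0 T)), Slice bas M (UU u hu.measurable M hM s)
        (fun i => vf (B s) i) := by
      filter_upwards [hae, ae_restrict_mem measurableSet_Icc] with s hs hsm
      exact slice_of hu hM h3 hB hsm.1 (hsummable s hs)
    exact ae_mono hIocIcc h4
  · intro k j
    have h1 : Measurable (fun p : ℝ × R3 => crossProduct (u p.1 p.2) (B p.1 p.2) j) := by
      have hu' := fun i => (measurable_pi_apply i).comp hu.measurable
      have hB' := fun i => (measurable_pi_apply i).comp hB.measurable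
      simp only [cross_apply]
      fin_cases j
      · simp only [Fin.zero_eta, Matrix.cons_val]
        exact ((hu' 1).mul (hB' 2)).sub ((hu' 2).mul (hB' 1))
      · simp only [Fin.mk_one, Matrix.cons_val]
        exact ((hu' 2).mul (hB' 0)).sub ((hu' 0).mul (hB' 2))
      · simp only [Fin.reduceFinMk, Matrix.cons_val]
        exact ((hu' 0).mul (hB' 1)).sub ((hu' 1).mul (hB' 0))
    refine (meas_fc (f := fun t x => crossProduct (u t x) (B t x) j) h1
      k).aestronglyMeasurable.congr ?_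
    filter_upwards [ae_restrict_mem measurableSet_Ioc] with s hs
    exact (co_XX hu.measurable hM h3 hB hs.1.le k j).symm
  · refine Integrable.mono_measure ?_ hIocIcc
    refine ⟨aesm_tsum (fun k => ?_) ?_, ?_⟩
    · exact (Finset.aestronglyMeasurable_fun_sum _ fun i _ => ((hmc k i).norm.pow 2)).const_mul _
    · filter_upwards [hae] with s hs using hsummable s hs
    · refine lt_of_le_of_lt (le_of_eq ?_) hlin
      apply lintegral_congr_ae
      filter_upwards [hae] with s hs
      rw [Real.enorm_eq_ofReal (tsum_nonneg (hnn s)),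
        ENNReal.ofReal_tsum_of_nonneg (hnn s) (hsummable s hs)]
  · intro k i t ht
    have h1 := hB.equation t ht.1 k i
    rw [co_B hB ht.1, co_B hB le_rfl, h1]
    congr 1
    apply intervalIntegral.integral_congr
    intro s hs
    rw [uIcc_of_le ht.1] at hs
    simp only [Fc]
    have e1 : co bas (XX (UU u hu.measurable M hM s) (fun i => vf (B s) i)) k =
        fun j => fc (fun x => crossProduct (u s x) (B s x) j) k := by
      funext j
      exact co_XX hu.measurable hM h3 hB hs.1 k j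
    rw [e1, co_B hB hs.1]

end Evolution

theorem cst_le {M ε T : ℝ} (hM : 0 ≤ M) (hε : 0 < ε) (hT : 1 ≤ T) :
    cst M ε T ≤ cst M ε 1 * T ^ 2 := by
  have hp := Real.pi_pos
  have h1 : T ≤ T ^ 2 := by nlinarith
  have h2 : 1 ≤ T ^ 2 := by nlinarith
  unfold cst
  set x := M ^ 2 / ε with hx
  have hx0 : 0 ≤ x := by positivity
  have e1 : 8 * M ^ 2 / ε = 8 * x := by rw [hx]; ring
  have e2 : 4 * M ^ 2 / ε = 4 * x := by rw [hx]; ring
  rw [e1, e2]
  set y := 1 / (4 * Real.pi ^ 2 * ε) with hy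
  set z := 1 / (8 * Real.pi ^ 2 * ε) with hz
  have hy0 : 0 ≤ y := by positivity
  have hz0 : 0 ≤ z := by positivity
  have hexp : (1 + x * 1) * 1 = 1 + x := by ring
  have a1 : (1 + x * T) * T ≤ (1 + x) * T ^ 2 := by nlinarith [mul_nonneg hx0 (sq_nonneg T)]
  have a2 : z + (1 + x * T) * T ≤ (z + (1 + x)) * T ^ 2 := by nlinarith
  have a3 : 4 * x * (z + (1 + x * T) * T) ≤ 4 * x * ((z + (1 + x)) * T ^ 2) :=
    mul_le_mul_of_nonneg_left a2 (by positivity)
  have a4 : 1 + 8 * x * T + 4 * x * (z + (1 + x * T) * T) ≤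
      (1 + 8 * x + 4 * x * (z + (1 + x))) * T ^ 2 := by
    have : 8 * x * T ≤ 8 * x * T ^ 2 := mul_le_mul_of_nonneg_left h1 (by positivity)
    nlinarith
  have a5 : y * (1 + 8 * x * T + 4 * x * (z + (1 + x * T) * T)) ≤
      y * ((1 + 8 * x + 4 * x * (z + (1 + x))) * T ^ 2) := mul_le_mul_of_nonneg_left a4 hy0
  have a6 : z ≤ z * T ^ 2 := by nlinarith
  nlinarith

/-- **Zeldovich's antidynamo theorem**: planar flows are not fast dynamos. -/
theorem planar_not_fast {u : ℝ → R3 → R3} (hu : Admissible u) (h3 : ∀ t x, u t x 2 = 0) :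
    ¬ FastDynamo u := by
  rintro ⟨ε, c₀, γ, hε, hc₀, hγ, hfast⟩
  obtain ⟨Bin, B, hBin, -, hpos, hB, hgrow⟩ := hfast ε hε le_rfl
  obtain ⟨M, hM⟩ := hu.bounded
  have hM0 : 0 ≤ M := (norm_nonneg _).trans (hM 0 0)
  -- the initial energy
  have h0 : normSq (B 0) = normSq Bin := by
    unfold normSq
    apply lintegral_congr_ae
    filter_upwards [ae_restrict_of_ae hB.initial] with x hx
    rw [hx]
  set β := ∑ i, ‖vf (B 0) i‖ ^ 2 with hβ
  have hβ0 : ENNReal.ofReal β = normSq Bin := by
    rw [← h0]; exact sum_norm_vf (hB.isL2 0 le_rfl).1 (hB.isL2 0 le_rfl).2.2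
  have hβpos : 0 < β := by
    rw [← ENNReal.ofReal_pos, hβ0]
    rw [l2norm] at hpos
    by_contra hcon
    have : normSq Bin = 0 := by simpa using hcon
    rw [this] at hpos
    norm_num at hpos
  -- squared growth
  have hg : ∀ t : ℝ, 0 ≤ t → c₀ ^ 2 * Real.exp (2 * γ * t) * β ≤ ∑ i, ‖vf (B t) i‖ ^ 2 := by
    intro t ht
    have h1 := hgrow t ht
    unfold l2norm at h1
    have h2 := ENNReal.rpow_le_rpow h1 (by norm_num : (0 : ℝ) ≤ 2)
    rw [ENNReal.mul_rpow_of_nonneg _ _ (by norm_num : (0 : ℝ) ≤ 2), ← ENNReal.rpow_mul,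
      ← ENNReal.rpow_mul] at h2
    norm_num at h2
    rw [← hβ0, ← sum_norm_vf (hB.isL2 t ht).1 (hB.isL2 t ht).2.2,
      ← ENNReal.ofReal_pow (by positivity), ← ENNReal.ofReal_mul (by positivity)] at h2
    have h4 := (ENNReal.ofReal_le_ofReal_iff
      (Finset.sum_nonneg fun _ _ => by positivity)).mp h2
    have h5 : (c₀ * Real.exp (γ * t)) ^ 2 = c₀ ^ 2 * Real.exp (2 * γ * t) := by
      rw [mul_pow, ← Real.exp_nat_mul]
      congr 2
      push_cast
      ring
    rw [h5] at h4
    exact h4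
  -- comparison for all T
  have hcmp : ∀ T : ℝ, 1 ≤ T → c₀ ^ 2 * γ ^ 3 / 3 * T ^ 4 ≤ cst M ε 1 * T ^ 2 := by
    intro T hT
    have hT0 : 0 ≤ T := by linarith
    have hevo := evo_of hu hM hM0 h3 hε hB hT0
    have h1 := hevo.main
    have h2 := cst_le hM0 hε hT
    have hcont : Integrable (fun s => ∑ i, ‖vf (B s) i‖ ^ 2) (volume.restrict (Ioc 0 T)) := by
      apply integrable_finsetSum
      intro i _
      exact ((((hevo.cont i).norm).pow 2).integrableOn_Icc).mono_set Ioc_subset_Icc_self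
    have hlow : ∫ s in Ioc 0 T, (c₀ ^ 2 * β * (4 * γ ^ 3 / 3)) * s ^ 3 ≤
        ∫ s in Ioc 0 T, ∑ i, ‖vf (B s) i‖ ^ 2 := by
      apply integral_mono_ae _ hcont
      · filter_upwards [ae_restrict_mem measurableSet_Ioc] with s hs
        have hs0 : 0 ≤ s := hs.1.le
        refine le_trans ?_ (hg s hs0)
        have h5 := Real.pow_div_factorial_le_exp (2 * γ * s) (by positivity) 3
        have h6 : (2 * γ * s) ^ 3 / (Nat.factorial 3 : ℕ) = 4 * γ ^ 3 / 3 * s ^ 3 := by
          norm_num [Nat.factorial]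
          ring
        rw [h6] at h5
        have h7 : c₀ ^ 2 * β * (4 * γ ^ 3 / 3 * s ^ 3) ≤ c₀ ^ 2 * β * Real.exp (2 * γ * s) :=
          mul_le_mul_of_nonneg_left h5 (by positivity)
        linarith
      · refine Integrable.const_mul ?_ _
        exact ((continuous_pow 3).integrableOn_Icc).mono_set Ioc_subset_Icc_self
    have hI : ∫ s in Ioc 0 T, (c₀ ^ 2 * β * (4 * γ ^ 3 / 3)) * s ^ 3 =
        c₀ ^ 2 * β * (4 * γ ^ 3 / 3) * (T ^ 4 / 4) := by
      rw [integral_const_mul, ← intervalIntegral.integral_of_le hT0, integral_pow]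
      norm_num
    rw [hI] at hlow
    have h8 : c₀ ^ 2 * β * (4 * γ ^ 3 / 3) * (T ^ 4 / 4) ≤ cst M ε 1 * T ^ 2 * β :=
      (hlow.trans h1).trans (mul_le_mul_of_nonneg_right h2 hβpos.le)
    have h9 : (c₀ ^ 2 * γ ^ 3 / 3 * T ^ 4) * β ≤ (cst M ε 1 * T ^ 2) * β := by
      calc (c₀ ^ 2 * γ ^ 3 / 3 * T ^ 4) * β =
          c₀ ^ 2 * β * (4 * γ ^ 3 / 3) * (T ^ 4 / 4) := by ring
        _ ≤ _ := h8
    exact le_of_mul_le_mul_right h9 hβpos
  -- contradiction
  set a := c₀ ^ 2 * γ ^ 3 / 3 with ha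
  have ha0 : 0 < a := by positivity
  set C := cst M ε 1 with hC
  set T := max 1 (|C| / a + 1) with hTdef
  have hT1 : 1 ≤ T := le_max_left _ _
  have hT2 : |C| / a + 1 ≤ T := le_max_right _ _
  have h10 := hcmp T hT1
  have h11 : |C| < a * T := by
    have : |C| / a < T := by linarith
    rw [div_lt_iff₀ ha0] at this
    linarith
  have h12 : a * T ^ 4 ≤ |C| * T ^ 2 :=
    h10.trans (mul_le_mul_of_nonneg_right (le_abs_self _) (by positivity))
  have h13 : a * T ^ 2 ≤ |C| := by
    have hT20 : 0 < T ^ 2 := by positivity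
    have : (a * T ^ 2) * T ^ 2 ≤ |C| * T ^ 2 := by
      calc (a * T ^ 2) * T ^ 2 = a * T ^ 4 := by ring
        _ ≤ _ := h12
    exact le_of_mul_le_mul_right this hT20
  have h14 : a * T ≤ a * T ^ 2 := by
    apply mul_le_mul_of_nonneg_left _ ha0.le
    nlinarith
  linarith

end Pool.Agent.LibH36.Dyn
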