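import Mathlib

set_option autoImplicit false

/-!
# Energy identities for countable systems of integral equations
-/

namespace Pool.Agent.LibH36.Dyn

open MeasureTheory Filter Topology Set
open scoped ComplexConjugate

theorem sq_identity {f g : ℝ → ℝ} {T : ℝ} (hT : 0 ≤ T) (hg : IntervalIntegrable g volume 0 T)
    (hf : ∀ t ∈ Icc (0 : ℝ) T, f t = f 0 + ∫ s in (0 : ℝ)..t, g s) :
    f T ^ 2 = f 0 ^ 2 + ∫ s in (0 : ℝ)..T, 2 * (f s * g s) := by
  set f' : ℝ → ℝ := fun t => ∫ s in (0 : ℝ)..t, g s with hf'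
  have hac : AbsolutelyContinuousOnInterval f' 0 T :=
    hg.absolutelyContinuousOnInterval_intervalIntegral (by simp)
  have hconst : AbsolutelyContinuousOnInterval (fun _ : ℝ => f 0) 0 T := by
    apply LipschitzOnWith.absolutelyContinuousOnInterval (K := 0)
    exact LipschitzWith.const (f 0) |>.lipschitzOnWith
  set F : ℝ → ℝ := fun t => f 0 + f' t with hF
  have hacF : AbsolutelyContinuousOnInterval F 0 T := hconst.add hac
  have h1 := hacF.integral_deriv_mul_eq_sub hacF
  have h2 : ∫ x in (0 : ℝ)..T, deriv F x * F x + F x * deriv F x =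
      ∫ s in (0 : ℝ)..T, 2 * (f s * g s) := by
    apply intervalIntegral.integral_congr_ae
    filter_upwards [hg.ae_hasDerivAt_integral] with x hx hxm
    have hxI : x ∈ uIcc 0 T := uIoc_subset_uIcc hxm
    have hd := (hx hxI 0 (by simp)).const_add (f 0)
    have : deriv F x = g x := hd.deriv
    rw [this]
    have hfx : f x = F x := by
      rw [uIcc_of_le hT] at hxI
      exact hf x hxI
    rw [hfx]
    ring
  rw [h2] at h1
  have h3 : F T = f T := (hf T ⟨hT, le_rfl⟩).symm
  have h4 : F 0 = f 0 := by simp [F, f']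
  rw [h3, h4] at h1
  linarith [h1, sq (f T), sq (f 0)]

theorem normSq_identity {c F : ℝ → ℂ} {T : ℝ} (hT : 0 ≤ T) (hF : IntervalIntegrable F volume 0 T)
    (hc : ∀ t ∈ Icc (0 : ℝ) T, c t = c 0 + ∫ s in (0 : ℝ)..t, F s) :
    ‖c T‖ ^ 2 = ‖c 0‖ ^ 2 + ∫ s in (0 : ℝ)..T, 2 * (conj (c s) * F s).re := by
  have hFre : IntervalIntegrable (fun s => (F s).re) volume 0 T := by
    refine ⟨?_, ?_⟩
    · exact hF.1.re
    · exact hF.2.re
  have hFim : IntervalIntegrable (fun s => (F s).im) volume 0 T := by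
    refine ⟨?_, ?_⟩
    · exact hF.1.im
    · exact hF.2.im
  have hsub : ∀ t ∈ Icc (0 : ℝ) T, IntervalIntegrable F volume 0 t := by
    intro t ht
    apply hF.mono_set
    rw [uIcc_of_le ht.1, uIcc_of_le hT]
    exact Icc_subset_Icc_right ht.2
  have hre : ∀ t ∈ Icc (0 : ℝ) T, (c t).re = (c 0).re + ∫ s in (0 : ℝ)..t, (F s).re := by
    intro t ht
    rw [hc t ht, Complex.add_re]
    congr 1
    rw [intervalIntegral.integral_of_le ht.1, intervalIntegral.integral_of_le ht.1]
    exact (integral_re (hsub t ht).1).symm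
  have him : ∀ t ∈ Icc (0 : ℝ) T, (c t).im = (c 0).im + ∫ s in (0 : ℝ)..t, (F s).im := by
    intro t ht
    rw [hc t ht, Complex.add_im]
    congr 1
    rw [intervalIntegral.integral_of_le ht.1, intervalIntegral.integral_of_le ht.1]
    exact (integral_im (hsub t ht).1).symm
  have h1 := sq_identity hT hFre hre
  have h2 := sq_identity hT hFim him
  have hcre : ContinuousOn (fun s => (c s).re) (uIcc 0 T) := by
    have : ContinuousOn (fun s => (c 0).re + ∫ r in (0 : ℝ)..s, (F r).re) (uIcc 0 T) :=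
      continuousOn_const.add
        (intervalIntegral.continuousOn_primitive_interval' hFre (by simp))
    refine this.congr fun s hs => ?_
    rw [uIcc_of_le hT] at hs
    exact hre s hs
  have hcim : ContinuousOn (fun s => (c s).im) (uIcc 0 T) := by
    have : ContinuousOn (fun s => (c 0).im + ∫ r in (0 : ℝ)..s, (F r).im) (uIcc 0 T) :=
      continuousOn_const.add
        (intervalIntegral.continuousOn_primitive_interval' hFim (by simp))
    refine this.congr fun s hs => ?_
    rw [uIcc_of_le hT] at hs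
    exact him s hs
  have i1 : IntervalIntegrable (fun s => 2 * ((c s).re * (F s).re)) volume 0 T :=
    (hFre.continuousOn_mul hcre).const_mul 2
  have i2 : IntervalIntegrable (fun s => 2 * ((c s).im * (F s).im)) volume 0 T :=
    (hFim.continuousOn_mul hcim).const_mul 2
  have e1 : ∫ s in (0 : ℝ)..T, 2 * (conj (c s) * F s).re =
      (∫ s in (0 : ℝ)..T, 2 * ((c s).re * (F s).re)) +
        ∫ s in (0 : ℝ)..T, 2 * ((c s).im * (F s).im) := by
    rw [← intervalIntegral.integral_add i1 i2]
    congr 1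
    ext s
    simp only [Complex.mul_re, Complex.conj_re, Complex.conj_im]
    ring
  rw [e1, Complex.sq_norm, Complex.sq_norm, Complex.normSq_apply, Complex.normSq_apply]
  nlinarith [h1, h2]

/-- Summed energy identity. -/
theorem energy {ι : Type*} [Countable ι] {T : ℝ} (hT : 0 ≤ T) {c F : ι → ℝ → ℂ}
    (hF : ∀ k, IntervalIntegrable (F k) volume 0 T)
    (hc : ∀ k, ∀ t ∈ Icc (0 : ℝ) T, c k t = c k 0 + ∫ s in (0 : ℝ)..t, F k s)
    (μ : ι → ℝ → ℝ)
    (hdom : ∀ k, ∀ᵐ s, s ∈ Ioc 0 T → |2 * (conj (c k s) * F k s).re| ≤ μ k s)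
    (hsum : ∀ᵐ s, s ∈ Ioc 0 T → Summable fun k => μ k s)
    (hint : IntervalIntegrable (fun s => ∑' k, μ k s) volume 0 T)
    (h0 : Summable fun k => ‖c k 0‖ ^ 2) :
    HasSum (fun k => ‖c k T‖ ^ 2)
      (∑' k, ‖c k 0‖ ^ 2 + ∫ s in (0 : ℝ)..T, ∑' k, 2 * (conj (c k s) * F k s).re) := by
  have hcc : ∀ k, ContinuousOn (c k) (uIcc 0 T) := by
    intro k
    have : ContinuousOn (fun s => c k 0 + ∫ r in (0 : ℝ)..s, F k r) (uIcc 0 T) :=
      continuousOn_const.add
        (intervalIntegral.continuousOn_primitive_interval' (hF k) (by simp))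
    refine this.congr fun s hs => ?_
    rw [uIcc_of_le hT] at hs
    exact hc k s hs
  have hmeas : ∀ k, IntervalIntegrable (fun s => 2 * (conj (c k s) * F k s).re) volume 0 T := by
    intro k
    have h1 : ContinuousOn (fun s => conj (c k s)) (uIcc 0 T) :=
      Complex.continuous_conj.comp_continuousOn (hcc k)
    have h2 := (hF k).continuousOn_mul h1
    have h3 : IntervalIntegrable (fun s => (conj (c k s) * F k s).re) volume 0 T :=
      ⟨h2.1.re, h2.2.re⟩
    exact h3.const_mul 2
  have key : HasSum (fun k => ∫ s in (0 : ℝ)..T, 2 * (conj (c k s) * F k s).re)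
      (∫ s in (0 : ℝ)..T, ∑' k, 2 * (conj (c k s) * F k s).re) := by
    apply intervalIntegral.hasSum_integral_of_dominated_convergence μ
    · intro k
      exact (hmeas k).aestronglyMeasurable_restrict_uIoc
    · intro k
      filter_upwards [hdom k] with s hs hsm
      rw [uIoc_of_le hT] at hsm
      exact hs hsm
    · filter_upwards [hsum] with s hs hsm
      rw [uIoc_of_le hT] at hsm
      exact hs hsm
    · exact hint
    · have hall : ∀ᵐ s, ∀ k, s ∈ Ioc 0 T → |2 * (conj (c k s) * F k s).re| ≤ μ k s :=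
        ae_all_iff.mpr hdom
      filter_upwards [hsum, hall] with s hs hs2 hsm
      rw [uIoc_of_le hT] at hsm
      exact (Summable.of_norm_bounded (hs hsm) (fun k => by
        rw [Real.norm_eq_abs]; exact hs2 k hsm)).hasSum
  have := h0.hasSum.add key
  refine this.congr_fun ?_
  intro k
  exact normSq_identity hT (hF k) (hc k)

section Form

variable {E : Type*} [NormedAddCommGroup E] [InnerProductSpace ℂ E]
variable {ι : Type*}

/-- The transport form is symmetric. -/
theorem form_sym (e : ι → E) {n : Type*} [Fintype n] (U : n → E →L[ℂ] E) (κ : ι → n → ℂ)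
    (hκ : ∀ k j, conj (κ k j) = κ k j)
    (hU : ∀ k l, ∑ j, (κ k j - κ l j) * inner ℂ (e k) (U j (e l)) = 0)
    (c : ι → ℂ) (f : E) (g : n → E)
    (hf : HasSum (fun k => c k • e k) f)
    (hg : ∀ j, HasSum (fun k => (κ k j * c k) • e k) (g j)) :
    ∑ j, inner ℂ (g j) (U j f) = ∑ j, inner ℂ f (U j (g j)) := by
  have t1 : Tendsto (fun S : Finset ι => ∑ j, inner ℂ (∑ k ∈ S, (κ k j * c k) • e k)
      (U j (∑ k ∈ S, c k • e k))) atTop (𝓝 (∑ j, inner ℂ (g j) (U j f))) := by
    apply tendsto_finsetSum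
    intro j _
    exact (hg j).inner (((U j).continuous.tendsto f).comp hf)
  have t2 : Tendsto (fun S : Finset ι => ∑ j, inner ℂ (∑ k ∈ S, c k • e k)
      (U j (∑ k ∈ S, (κ k j * c k) • e k))) atTop (𝓝 (∑ j, inner ℂ f (U j (g j)))) := by
    apply tendsto_finsetSum
    intro j _
    exact hf.inner (((U j).continuous.tendsto (g j)).comp (hg j))
  refine tendsto_nhds_unique t1 (t2.congr ?_)
  intro S
  rw [← sub_eq_zero, ← Finset.sum_sub_distrib]
  have h : ∀ j, inner ℂ (∑ k ∈ S, c k • e k) (U j (∑ k ∈ S, (κ k j * c k) • e k)) -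
      inner ℂ (∑ k ∈ S, (κ k j * c k) • e k) (U j (∑ k ∈ S, c k • e k)) =
      ∑ k ∈ S, ∑ l ∈ S, conj (c k) * c l * (-((κ k j - κ l j) * inner ℂ (e k) (U j (e l)))) := by
    intro j
    conv_rhs => rw [Finset.sum_comm]
    simp only [map_sum, map_smul, sum_inner, inner_sum, inner_smul_left, inner_smul_right,
      map_mul, hκ, Finset.mul_sum, ← Finset.sum_sub_distrib]
    refine Finset.sum_congr rfl fun k _ => Finset.sum_congr rfl fun l _ => ?_
    ring
  rw [Finset.sum_congr rfl fun j _ => h j, Finset.sum_comm]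
  apply Finset.sum_eq_zero
  intro k _
  rw [Finset.sum_comm]
  apply Finset.sum_eq_zero
  intro l _
  rw [← Finset.mul_sum, Finset.sum_neg_distrib, hU k l, neg_zero, mul_zero]

/-- For symmetric `U` the transport form has real values. -/
theorem form_im (e : ι → E) {n : Type*} [Fintype n] (U : n → E →L[ℂ] E) (κ : ι → n → ℂ)
    (hκ : ∀ k j, conj (κ k j) = κ k j)
    (hU : ∀ k l, ∑ j, (κ k j - κ l j) * inner ℂ (e k) (U j (e l)) = 0)
    (hs : ∀ j x y, inner ℂ (U j x) y = inner ℂ x (U j y))
    (c : ι → ℂ) (f : E) (g : n → E)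
    (hf : HasSum (fun k => c k • e k) f)
    (hg : ∀ j, HasSum (fun k => (κ k j * c k) • e k) (g j)) :
    (∑ j, inner ℂ (g j) (U j f)).im = 0 := by
  have h := form_sym e U κ hκ hU c f g hf hg
  have h2 : ∑ j, inner ℂ f (U j (g j)) = conj (∑ j, inner ℂ (g j) (U j f)) := by
    rw [map_sum]
    refine Finset.sum_congr rfl fun j _ => ?_
    rw [inner_conj_symm, hs]
  rw [h2] at h
  exact Complex.conj_eq_iff_im.mp h.symm

end Form

end Pool.Agent.LibH36.Dyn
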