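import Mathlib

set_option autoImplicit false

/-!
# Estimates for one Fourier mode of the planar induction equation
-/

namespace Pool.Agent.LibH36.Dyn

open scoped ComplexConjugate

/-- `|k|²`. -/
noncomputable def q (k : Fin 3 → ℤ) : ℝ := ∑ j, (k j : ℝ) ^ 2

/-- `|k_h|²`. -/
noncomputable def qh (k : Fin 3 → ℤ) : ℝ := (k 0 : ℝ) ^ 2 + (k 1 : ℝ) ^ 2

/-- The right-hand side of the equation for a Fourier mode. -/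
noncomputable def Fc (ε : ℝ) (k : Fin 3 → ℤ) (b e : Fin 3 → ℂ) (i : Fin 3) : ℂ :=
  2 * Real.pi * Complex.I * crossProduct (fun j => (k j : ℂ)) e i
    - 4 * Real.pi ^ 2 * ε * (∑ j, (k j : ℂ) ^ 2) * b i

/-- The horizontal potential. -/
noncomputable def pot (k : Fin 3 → ℤ) (b : Fin 3 → ℂ) : ℂ :=
  ((k 0 : ℂ) * b 1 - (k 1 : ℂ) * b 0) / (qh k : ℂ)

theorem q_eq (k : Fin 3 → ℤ) : q k = (k 0 : ℝ) ^ 2 + (k 1 : ℝ) ^ 2 + (k 2 : ℝ) ^ 2 := by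
  simp [q, Fin.sum_univ_three]

theorem q_cast (k : Fin 3 → ℤ) : (∑ j, (k j : ℂ) ^ 2) = (q k : ℂ) := by
  simp [q]

theorem qh_nonneg (k : Fin 3 → ℤ) : 0 ≤ qh k := by
  unfold qh; positivity

theorem q_nonneg (k : Fin 3 → ℤ) : 0 ≤ q k := by
  rw [q_eq]; positivity

theorem qh_le (k : Fin 3 → ℤ) : qh k ≤ q k := by
  rw [q_eq, qh]; nlinarith [sq_nonneg (k 2 : ℝ)]

theorem qh_zero_iff (k : Fin 3 → ℤ) : qh k = 0 ↔ k 0 = 0 ∧ k 1 = 0 := by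
  unfold qh
  constructor
  · intro h
    have h0 : (k 0 : ℝ) ^ 2 = 0 := by nlinarith [sq_nonneg (k 0 : ℝ), sq_nonneg (k 1 : ℝ)]
    have h1 : (k 1 : ℝ) ^ 2 = 0 := by nlinarith [sq_nonneg (k 0 : ℝ), sq_nonneg (k 1 : ℝ)]
    constructor
    · exact_mod_cast pow_eq_zero_iff (two_ne_zero) |>.mp h0
    · exact_mod_cast pow_eq_zero_iff (two_ne_zero) |>.mp h1
  · rintro ⟨h0, h1⟩
    simp [h0, h1]

theorem qh_one_le {k : Fin 3 → ℤ} (h : qh k ≠ 0) : 1 ≤ qh k := by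
  have e : qh k = ((k 0 ^ 2 + k 1 ^ 2 : ℤ) : ℝ) := by simp [qh]
  rw [e] at h ⊢
  have h2 : (k 0 ^ 2 + k 1 ^ 2 : ℤ) ≠ 0 := by exact_mod_cast h
  have h3 : 0 ≤ (k 0 ^ 2 + k 1 ^ 2 : ℤ) := by positivity
  have h4 : 1 ≤ (k 0 ^ 2 + k 1 ^ 2 : ℤ) := by omega
  exact_mod_cast h4

theorem pot_zero {k : Fin 3 → ℤ} (h : qh k = 0) (b : Fin 3 → ℂ) : pot k b = 0 := by
  simp [pot, h]

theorem abs_re_le (x y : ℂ) : |2 * (conj x * y).re| ≤ 2 * (‖x‖ * ‖y‖) := by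
  rw [abs_mul, abs_of_pos (by norm_num : (0 : ℝ) < 2)]
  have := Complex.abs_re_le_norm (conj x * y)
  rw [norm_mul, Complex.norm_conj] at this
  linarith

theorem norm_cross_le (k : Fin 3 → ℤ) (e : Fin 3 → ℂ) (i : Fin 3) (β : ℝ) (hβ : 0 ≤ β) :
    2 * (β * ‖crossProduct (fun j => (k j : ℂ)) e i‖) ≤ q k * β ^ 2 + ∑ j, ‖e j‖ ^ 2 := by
  have hn : ∀ z : ℤ, ‖(z : ℂ)‖ = |(z : ℝ)| := fun z => by simp
  have main : ∀ (a b : ℤ) (x y : ℂ), ‖(a : ℂ) * x - (b : ℂ) * y‖ ≤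
      |(a : ℝ)| * ‖x‖ + |(b : ℝ)| * ‖y‖ := by
    intro a b x y
    refine (norm_sub_le _ _).trans ?_
    rw [norm_mul, norm_mul, hn, hn]
  have key : ∀ (a b c x y z : ℝ), 0 ≤ x → 0 ≤ y → 0 ≤ z →
      2 * (β * (|a| * x + |b| * y)) ≤ (a ^ 2 + b ^ 2 + c ^ 2) * β ^ 2 + (x ^ 2 + y ^ 2 + z ^ 2) := by
    intro a b c x y z _ _ _
    have h1 : 0 ≤ (|a| * β - x) ^ 2 := sq_nonneg _
    have h2 : 0 ≤ (|b| * β - y) ^ 2 := sq_nonneg _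
    have h3 : 0 ≤ c ^ 2 * β ^ 2 := by positivity
    have h4 : 0 ≤ z ^ 2 := by positivity
    have h5 : |a| ^ 2 = a ^ 2 := sq_abs a
    have h6 : |b| ^ 2 = b ^ 2 := sq_abs b
    nlinarith
  rw [q_eq, Fin.sum_univ_three, cross_apply]
  fin_cases i
  · simp only [Fin.zero_eta, Matrix.cons_val]
    have h1 := main (k 1) (k 2) (e 2) (e 1)
    have h2 := key (k 1) (k 2) (k 0) ‖e 2‖ ‖e 1‖ ‖e 0‖ (norm_nonneg _) (norm_nonneg _)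
      (norm_nonneg _)
    nlinarith [mul_le_mul_of_nonneg_left h1 hβ]
  · simp only [Fin.mk_one, Matrix.cons_val]
    have h1 := main (k 2) (k 0) (e 0) (e 2)
    have h2 := key (k 2) (k 0) (k 1) ‖e 0‖ ‖e 2‖ ‖e 1‖ (norm_nonneg _) (norm_nonneg _)
      (norm_nonneg _)
    nlinarith [mul_le_mul_of_nonneg_left h1 hβ]
  · simp only [Fin.reduceFinMk, Matrix.cons_val]
    have h1 := main (k 0) (k 1) (e 1) (e 0)
    have h2 := key (k 0) (k 1) (k 2) ‖e 1‖ ‖e 0‖ ‖e 2‖ (norm_nonneg _) (norm_nonneg _)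
      (norm_nonneg _)
    nlinarith [mul_le_mul_of_nonneg_left h1 hβ]

/-- The common dominating function. -/
noncomputable def dom (ε : ℝ) (k : Fin 3 → ℤ) (b e : Fin 3 → ℂ) : ℝ :=
  (6 * Real.pi + 8 * Real.pi ^ 2 * ε) * (q k * ∑ j, ‖b j‖ ^ 2) + 4 * Real.pi * ∑ j, ‖e j‖ ^ 2

theorem sq_le_sum (b : Fin 3 → ℂ) (i : Fin 3) : ‖b i‖ ^ 2 ≤ ∑ j, ‖b j‖ ^ 2 :=
  Finset.single_le_sum (f := fun j => ‖b j‖ ^ 2) (fun _ _ => by positivity) (Finset.mem_univ i)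

theorem abs_le_dom {ε : ℝ} (hε : 0 ≤ ε) (k : Fin 3 → ℤ) (b e : Fin 3 → ℂ) (i : Fin 3) :
    |2 * (conj (b i) * Fc ε k b e i).re| ≤ dom ε k b e := by
  have h1 := abs_re_le (b i) (Fc ε k b e i)
  have h2 : ‖Fc ε k b e i‖ ≤ 2 * Real.pi * ‖crossProduct (fun j => (k j : ℂ)) e i‖ +
      4 * Real.pi ^ 2 * ε * q k * ‖b i‖ := by
    unfold Fc
    rw [q_cast]
    refine (norm_sub_le _ _).trans ?_
    simp only [norm_mul, Complex.norm_I, mul_one, norm_pow, Complex.norm_real, Real.norm_eq_abs,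
      abs_of_pos Real.pi_pos, abs_of_nonneg hε, abs_of_nonneg (q_nonneg k), Complex.norm_ofNat]
    exact le_rfl
  have h3 := norm_cross_le k e i ‖b i‖ (norm_nonneg _)
  have h4 := sq_le_sum b i
  have h5 : 0 ≤ ∑ j, ‖e j‖ ^ 2 := Finset.sum_nonneg fun _ _ => by positivity
  have hp := Real.pi_pos
  have h6 : ‖b i‖ * ‖Fc ε k b e i‖ ≤ 2 * Real.pi * (‖b i‖ *
      ‖crossProduct (fun j => (k j : ℂ)) e i‖) + 4 * Real.pi ^ 2 * ε * (q k * ‖b i‖ ^ 2) := by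
    calc ‖b i‖ * ‖Fc ε k b e i‖ ≤ ‖b i‖ * (2 * Real.pi *
          ‖crossProduct (fun j => (k j : ℂ)) e i‖ + 4 * Real.pi ^ 2 * ε * q k * ‖b i‖) :=
          mul_le_mul_of_nonneg_left h2 (norm_nonneg _)
      _ = _ := by ring
  have h7 : q k * ‖b i‖ ^ 2 ≤ q k * ∑ j, ‖b j‖ ^ 2 :=
    mul_le_mul_of_nonneg_left h4 (q_nonneg k)
  have h8 : 0 ≤ q k * ∑ j, ‖b j‖ ^ 2 :=
    mul_nonneg (q_nonneg k) (Finset.sum_nonneg fun _ _ => by positivity)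
  have h9 : 2 * Real.pi * (2 * (‖b i‖ * ‖crossProduct (fun j => (k j : ℂ)) e i‖)) ≤
      2 * Real.pi * (q k * ∑ j, ‖b j‖ ^ 2 + ∑ j, ‖e j‖ ^ 2) :=
    mul_le_mul_of_nonneg_left (by linarith) (by positivity)
  have h10 : 8 * Real.pi ^ 2 * ε * (q k * ‖b i‖ ^ 2) ≤
      8 * Real.pi ^ 2 * ε * (q k * ∑ j, ‖b j‖ ^ 2) :=
    mul_le_mul_of_nonneg_left h7 (by positivity)
  unfold dom
  have h11 : 0 ≤ Real.pi * (q k * ∑ j, ‖b j‖ ^ 2) := by positivity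
  have h12 : 0 ≤ Real.pi * ∑ j, ‖e j‖ ^ 2 := by positivity
  nlinarith

/-- The vertical component. -/
theorem Fc_two (ε : ℝ) (k : Fin 3 → ℤ) (b e : Fin 3 → ℂ) :
    Fc ε k b e 2 = 2 * Real.pi * Complex.I * ((k 0 : ℂ) * e 1 - (k 1 : ℂ) * e 0) -
      4 * Real.pi ^ 2 * ε * q k * b 2 := by
  simp [Fc, q_cast, cross_apply]

theorem mean_le {ε : ℝ} (hε : 0 < ε) {k : Fin 3 → ℤ} (hk : qh k = 0) (b e : Fin 3 → ℂ) :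
    2 * (conj (b 0) * Fc ε k b e 0).re + 2 * (conj (b 1) * Fc ε k b e 1).re ≤
      (1 / (2 * ε)) * (‖e 0‖ ^ 2 + ‖e 1‖ ^ 2) := by
  obtain ⟨h0, h1⟩ := (qh_zero_iff k).mp hk
  have e0 : Fc ε k b e 0 = 2 * Real.pi * Complex.I * (-((k 2 : ℂ) * e 1)) -
      4 * Real.pi ^ 2 * ε * (k 2 : ℂ) ^ 2 * b 0 := by
    simp [Fc, cross_apply, h0, h1, Fin.sum_univ_three]
  have e1 : Fc ε k b e 1 = 2 * Real.pi * Complex.I * ((k 2 : ℂ) * e 0) -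
      4 * Real.pi ^ 2 * ε * (k 2 : ℂ) ^ 2 * b 1 := by
    simp [Fc, cross_apply, h0, h1, Fin.sum_univ_three]
  have gen : ∀ (z : ℤ) (x y : ℂ), 2 * (conj x * (2 * Real.pi * Complex.I * ((z : ℂ) * y) -
      4 * Real.pi ^ 2 * ε * (z : ℂ) ^ 2 * x)).re ≤ (1 / (2 * ε)) * ‖y‖ ^ 2 := by
    intro z x y
    have t1 : conj x * (2 * Real.pi * Complex.I * ((z : ℂ) * y) -
      4 * Real.pi ^ 2 * ε * (z : ℂ) ^ 2 * x) =
        conj x * (2 * Real.pi * Complex.I * ((z : ℂ) * y)) -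
        ((4 * Real.pi ^ 2 * ε * (z : ℝ) ^ 2 * ‖x‖ ^ 2 : ℝ) : ℂ) := by
      have : conj x * x = ((‖x‖ ^ 2 : ℝ) : ℂ) := by
        rw [← Complex.normSq_eq_conj_mul_self, Complex.normSq_eq_norm_sq]
      push_cast at this ⊢
      linear_combination -(4 * Real.pi ^ 2 * ε * (z : ℂ) ^ 2) * this
    rw [t1, Complex.sub_re, Complex.ofReal_re]
    have t2 := (le_abs_self _).trans (abs_re_le x (2 * Real.pi * Complex.I * ((z : ℂ) * y)))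
    have t3 : ‖2 * Real.pi * Complex.I * ((z : ℂ) * y)‖ = 2 * Real.pi * (|(z : ℝ)| * ‖y‖) := by
      simp [abs_of_pos Real.pi_pos]
    rw [t3] at t2
    have t4 : 0 ≤ (2 * Real.pi * (|(z : ℝ)| * ‖x‖) * (2 * ε) - ‖y‖) ^ 2 := sq_nonneg _
    have t5 : |(z : ℝ)| ^ 2 = (z : ℝ) ^ 2 := sq_abs _
    have t6 : 4 * Real.pi * (|(z : ℝ)| * ‖x‖ * ‖y‖) ≤
        8 * Real.pi ^ 2 * ε * ((z : ℝ) ^ 2 * ‖x‖ ^ 2) + (1 / (2 * ε)) * ‖y‖ ^ 2 := by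
      have : 0 < 2 * ε := by linarith
      have e2 : 8 * Real.pi ^ 2 * ε * ((z : ℝ) ^ 2 * ‖x‖ ^ 2) + (1 / (2 * ε)) * ‖y‖ ^ 2 -
          4 * Real.pi * (|(z : ℝ)| * ‖x‖ * ‖y‖) =
          (1 / (2 * ε)) * (2 * Real.pi * (|(z : ℝ)| * ‖x‖) * (2 * ε) - ‖y‖) ^ 2 := by
        rw [← t5]
        field_simp
        ring
      have e3 : 0 ≤ (1 / (2 * ε)) * (2 * Real.pi * (|(z : ℝ)| * ‖x‖) * (2 * ε) - ‖y‖) ^ 2 := by
        positivity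
      linarith
    nlinarith
  rw [e0, e1]
  have g0 := gen (k 2) (b 0) (-e 1)
  have g1 := gen (k 2) (b 1) (e 0)
  rw [norm_neg, mul_neg] at g0
  linarith

/-- `F_a = (k₀ F₁ - k₁ F₀) / |k_h|²`. -/
theorem pot_Fc {ε : ℝ} {k : Fin 3 → ℤ} (hk : qh k ≠ 0) (b e : Fin 3 → ℂ) :
    pot k (Fc ε k b e) = 2 * Real.pi * Complex.I * (-e 2) +
      2 * Real.pi * Complex.I * ((k 2 : ℂ) / (qh k : ℂ) * ((k 0 : ℂ) * e 0 + (k 1 : ℂ) * e 1)) -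
      4 * Real.pi ^ 2 * ε * q k * pot k b := by
  have hk' : (qh k : ℂ) ≠ 0 := by exact_mod_cast hk
  have e1 : (qh k : ℂ) = (k 0 : ℂ) ^ 2 + (k 1 : ℂ) ^ 2 := by simp [qh]
  unfold pot Fc
  rw [q_cast]
  simp only [cross_apply, Matrix.cons_val]
  field_simp
  rw [e1]
  ring

theorem norm_pot_sq_le (k : Fin 3 → ℤ) (b : Fin 3 → ℂ) :
    qh k * ‖pot k b‖ ^ 2 ≤ ‖b 0‖ ^ 2 + ‖b 1‖ ^ 2 := by
  by_cases hk : qh k = 0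
  · rw [hk, zero_mul]; positivity
  have hpos : 0 < qh k := lt_of_le_of_ne (qh_nonneg k) (Ne.symm hk)
  have h1 : ‖pot k b‖ = ‖(k 0 : ℂ) * b 1 - (k 1 : ℂ) * b 0‖ / qh k := by
    rw [pot, norm_div, Complex.norm_real, Real.norm_eq_abs, abs_of_pos hpos]
  have h2 : ‖(k 0 : ℂ) * b 1 - (k 1 : ℂ) * b 0‖ ≤ |(k 0 : ℝ)| * ‖b 1‖ + |(k 1 : ℝ)| * ‖b 0‖ := by
    refine (norm_sub_le _ _).trans ?_
    simp
  have h3 : (|(k 0 : ℝ)| * ‖b 1‖ + |(k 1 : ℝ)| * ‖b 0‖) ^ 2 ≤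
      qh k * (‖b 0‖ ^ 2 + ‖b 1‖ ^ 2) := by
    unfold qh
    rw [← sq_abs (k 0 : ℝ), ← sq_abs (k 1 : ℝ)]
    nlinarith [sq_nonneg (|(k 0 : ℝ)| * ‖b 0‖ - |(k 1 : ℝ)| * ‖b 1‖)]
  have h4 : ‖(k 0 : ℂ) * b 1 - (k 1 : ℂ) * b 0‖ ^ 2 ≤ qh k * (‖b 0‖ ^ 2 + ‖b 1‖ ^ 2) :=
    (pow_le_pow_left₀ (norm_nonneg _) h2 2).trans h3
  rw [h1, div_pow]
  rw [show qh k * (‖(k 0 : ℂ) * b 1 - (k 1 : ℂ) * b 0‖ ^ 2 / qh k ^ 2) =
    ‖(k 0 : ℂ) * b 1 - (k 1 : ℂ) * b 0‖ ^ 2 / qh k by field_simp]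
  rw [div_le_iff₀ hpos]
  linarith

theorem norm_pot_sq_le' (k : Fin 3 → ℤ) (b : Fin 3 → ℂ) :
    ‖pot k b‖ ^ 2 ≤ ‖b 0‖ ^ 2 + ‖b 1‖ ^ 2 := by
  by_cases hk : qh k = 0
  · rw [pot_zero hk]; simp; positivity
  · have h1 := qh_one_le hk
    have h2 := norm_pot_sq_le k b
    nlinarith [sq_nonneg ‖pot k b‖]

theorem norm_pot_le_q (k : Fin 3 → ℤ) (b : Fin 3 → ℂ) :
    ‖pot k b‖ ^ 2 ≤ q k * ‖pot k b‖ ^ 2 := by
  by_cases hk : qh k = 0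
  · rw [pot_zero hk]; simp
  · have h1 := qh_one_le hk
    have h2 := qh_le k
    nlinarith [sq_nonneg ‖pot k b‖]

/-- The remainder of the horizontal field after subtracting the potential part. -/
theorem rem_le {k : Fin 3 → ℤ} (hk : qh k ≠ 0) {b : Fin 3 → ℂ}
    (hdiv : ∑ j, (k j : ℂ) * b j = 0) :
    ‖b 0 + (k 1 : ℂ) * pot k b‖ ^ 2 + ‖b 1 - (k 0 : ℂ) * pot k b‖ ^ 2 ≤ q k * ‖b 2‖ ^ 2 := by
  have hk' : (qh k : ℂ) ≠ 0 := by exact_mod_cast hk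
  have e1 : (qh k : ℂ) = (k 0 : ℂ) ^ 2 + (k 1 : ℂ) ^ 2 := by simp [qh]
  have hpos : 0 < qh k := lt_of_le_of_ne (qh_nonneg k) (Ne.symm hk)
  rw [Fin.sum_univ_three] at hdiv
  have r0 : b 0 + (k 1 : ℂ) * pot k b = -((k 0 : ℂ) * ((k 2 : ℂ) * b 2)) / (qh k : ℂ) := by
    unfold pot
    field_simp
    rw [e1]
    linear_combination (k 0 : ℂ) * hdiv
  have r1 : b 1 - (k 0 : ℂ) * pot k b = -((k 1 : ℂ) * ((k 2 : ℂ) * b 2)) / (qh k : ℂ) := by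
    unfold pot
    field_simp
    rw [e1]
    linear_combination (k 1 : ℂ) * hdiv
  have n : ∀ z : ℤ, ‖-((z : ℂ) * ((k 2 : ℂ) * b 2)) / (qh k : ℂ)‖ ^ 2 =
      (z : ℝ) ^ 2 * ((k 2 : ℝ) ^ 2 * ‖b 2‖ ^ 2) / qh k ^ 2 := by
    intro z
    rw [norm_div, norm_neg, norm_mul, norm_mul, Complex.norm_real, Real.norm_eq_abs,
      abs_of_pos hpos, Complex.norm_intCast, Complex.norm_intCast, div_pow, mul_pow, mul_pow,
      sq_abs, sq_abs]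
  rw [r0, r1, n, n, ← add_div, ← add_mul]
  rw [show (k 0 : ℝ) ^ 2 + (k 1 : ℝ) ^ 2 = qh k from rfl]
  rw [show qh k * ((k 2 : ℝ) ^ 2 * ‖b 2‖ ^ 2) / qh k ^ 2 = ((k 2 : ℝ) ^ 2 * ‖b 2‖ ^ 2) / qh k by
    field_simp]
  have h1 := qh_one_le hk
  rw [div_le_iff₀ hpos]
  have h2 : (k 2 : ℝ) ^ 2 ≤ q k := by rw [q_eq]; nlinarith [sq_nonneg (k 0 : ℝ), sq_nonneg (k 1 : ℝ)]
  have h3 : (k 2 : ℝ) ^ 2 * ‖b 2‖ ^ 2 ≤ q k * ‖b 2‖ ^ 2 :=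
    mul_le_mul_of_nonneg_right h2 (by positivity)
  have h4 : 0 ≤ q k * ‖b 2‖ ^ 2 := mul_nonneg (q_nonneg k) (by positivity)
  nlinarith

theorem hor_le {k : Fin 3 → ℤ} (hk : qh k ≠ 0) {b : Fin 3 → ℂ}
    (hdiv : ∑ j, (k j : ℂ) * b j = 0) :
    ‖b 0‖ ^ 2 + ‖b 1‖ ^ 2 ≤ 2 * (q k * ‖pot k b‖ ^ 2) + 2 * (q k * ‖b 2‖ ^ 2) := by
  have h := rem_le hk hdiv
  have t : ∀ x y : ℂ, ‖x‖ ^ 2 ≤ 2 * ‖x + y‖ ^ 2 + 2 * ‖y‖ ^ 2 := by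
    intro x y
    have h1 : ‖x‖ ≤ ‖x + y‖ + ‖y‖ := by
      calc ‖x‖ = ‖(x + y) - y‖ := by rw [add_sub_cancel_right]
        _ ≤ _ := norm_sub_le _ _
    nlinarith [sq_nonneg (‖x + y‖ - ‖y‖), norm_nonneg x, norm_nonneg (x + y), norm_nonneg y]
  have t0 := t (b 0) ((k 1 : ℂ) * pot k b)
  have t1 := t (b 1) (-((k 0 : ℂ) * pot k b))
  rw [← sub_eq_add_neg, norm_neg] at t1
  rw [norm_mul, Complex.norm_intCast, mul_pow, sq_abs] at t0 t1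
  have h2 := qh_le k
  have h3 : (k 0 : ℝ) ^ 2 * ‖pot k b‖ ^ 2 + (k 1 : ℝ) ^ 2 * ‖pot k b‖ ^ 2 ≤
      q k * ‖pot k b‖ ^ 2 := by
    rw [← add_mul]
    exact mul_le_mul_of_nonneg_right h2 (by positivity)
  linarith

theorem abs_le_qh {k : Fin 3 → ℤ} (hk : qh k ≠ 0) :
    |(k 0 : ℝ)| ≤ qh k ∧ |(k 1 : ℝ)| ≤ qh k := by
  have t : ∀ z : ℤ, |(z : ℝ)| ≤ (z : ℝ) ^ 2 := by
    intro z
    have h1 : |z| ≤ z ^ 2 := by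
      rcases eq_or_ne z 0 with h | h
      · simp [h]
      · have h2 := Int.one_le_abs h
        nlinarith [sq_abs z]
    exact_mod_cast h1
  unfold qh
  constructor
  · nlinarith [t (k 0), sq_nonneg (k 1 : ℝ)]
  · nlinarith [t (k 1), sq_nonneg (k 0 : ℝ)]

theorem norm_tail_le {k : Fin 3 → ℤ} (hk : qh k ≠ 0) (e : Fin 3 → ℂ) :
    ‖(k 2 : ℂ) / (qh k : ℂ) * ((k 0 : ℂ) * e 0 + (k 1 : ℂ) * e 1)‖ ≤
      |(k 2 : ℝ)| * (‖e 0‖ + ‖e 1‖) := by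
  have hpos : 0 < qh k := lt_of_le_of_ne (qh_nonneg k) (Ne.symm hk)
  obtain ⟨h0, h1⟩ := abs_le_qh hk
  rw [norm_mul, norm_div, Complex.norm_real, Real.norm_eq_abs, abs_of_pos hpos,
    Complex.norm_intCast]
  have h2 : ‖(k 0 : ℂ) * e 0 + (k 1 : ℂ) * e 1‖ ≤ qh k * (‖e 0‖ + ‖e 1‖) := by
    refine (norm_add_le _ _).trans ?_
    rw [norm_mul, norm_mul, Complex.norm_intCast, Complex.norm_intCast, mul_add]
    exact add_le_add (mul_le_mul_of_nonneg_right h0 (norm_nonneg _))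
      (mul_le_mul_of_nonneg_right h1 (norm_nonneg _))
  calc |(k 2 : ℝ)| / qh k * ‖(k 0 : ℂ) * e 0 + (k 1 : ℂ) * e 1‖ ≤
      |(k 2 : ℝ)| / qh k * (qh k * (‖e 0‖ + ‖e 1‖)) :=
        mul_le_mul_of_nonneg_left h2 (by positivity)
    _ = _ := by field_simp

theorem pot_abs_le_dom {ε : ℝ} (hε : 0 ≤ ε) (k : Fin 3 → ℤ) (b e : Fin 3 → ℂ) :
    |2 * (conj (pot k b) * pot k (Fc ε k b e)).re| ≤ dom ε k b e := by
  have hp := Real.pi_pos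
  have hbb : 0 ≤ q k * ∑ j, ‖b j‖ ^ 2 :=
    mul_nonneg (q_nonneg k) (Finset.sum_nonneg fun _ _ => by positivity)
  have hee : 0 ≤ ∑ j, ‖e j‖ ^ 2 := Finset.sum_nonneg fun _ _ => by positivity
  by_cases hk : qh k = 0
  · rw [pot_zero hk, pot_zero hk]
    simp only [map_zero, zero_mul, Complex.zero_re, mul_zero, abs_zero]
    unfold dom
    positivity
  have h1 := abs_re_le (pot k b) (pot k (Fc ε k b e))
  have h2 : ‖pot k (Fc ε k b e)‖ ≤ 2 * Real.pi * ‖e 2‖ +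
      2 * Real.pi * (|(k 2 : ℝ)| * (‖e 0‖ + ‖e 1‖)) + 4 * Real.pi ^ 2 * ε * q k * ‖pot k b‖ := by
    rw [pot_Fc hk]
    refine (norm_sub_le _ _).trans (add_le_add ((norm_add_le _ _).trans (add_le_add ?_ ?_)) ?_)
    · simp [abs_of_pos hp]
    · rw [norm_mul]
      have : ‖(2 * Real.pi * Complex.I : ℂ)‖ = 2 * Real.pi := by simp [abs_of_pos hp]
      rw [this]
      exact mul_le_mul_of_nonneg_left (norm_tail_le hk e) (by positivity)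
    · simp only [norm_mul, norm_pow, Complex.norm_real, Real.norm_eq_abs,
        abs_of_pos Real.pi_pos, abs_of_nonneg hε, abs_of_nonneg (q_nonneg k), Complex.norm_ofNat]
      exact le_rfl
  set α := ‖pot k b‖ with hα
  have hα0 : 0 ≤ α := norm_nonneg _
  have h3 : α * ‖pot k (Fc ε k b e)‖ ≤ α * (2 * Real.pi * ‖e 2‖ +
      2 * Real.pi * (|(k 2 : ℝ)| * (‖e 0‖ + ‖e 1‖)) + 4 * Real.pi ^ 2 * ε * q k * α) :=
    mul_le_mul_of_nonneg_left h2 hα0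
  have h4 : α ^ 2 ≤ q k * α ^ 2 := norm_pot_le_q k b
  have h5 : (k 2 : ℝ) ^ 2 ≤ q k := by
    rw [q_eq]; nlinarith [sq_nonneg (k 0 : ℝ), sq_nonneg (k 1 : ℝ)]
  have h6 : |(k 2 : ℝ)| ^ 2 = (k 2 : ℝ) ^ 2 := sq_abs _
  have h7 : α ^ 2 ≤ ∑ j, ‖b j‖ ^ 2 := by
    refine (norm_pot_sq_le' k b).trans ?_
    rw [Fin.sum_univ_three]; nlinarith [sq_nonneg ‖b 2‖]
  have h8 : q k * α ^ 2 ≤ q k * ∑ j, ‖b j‖ ^ 2 := mul_le_mul_of_nonneg_left h7 (q_nonneg k)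
  have h9 : 2 * (α * ‖e 2‖) ≤ α ^ 2 + ‖e 2‖ ^ 2 := by nlinarith [sq_nonneg (α - ‖e 2‖)]
  have h10 : 2 * (α * (|(k 2 : ℝ)| * (‖e 0‖ + ‖e 1‖))) ≤
      2 * (q k * α ^ 2) + ‖e 0‖ ^ 2 + ‖e 1‖ ^ 2 := by
    have := mul_le_mul_of_nonneg_right h5 (sq_nonneg α)
    nlinarith [sq_nonneg (α * |(k 2 : ℝ)| - ‖e 0‖), sq_nonneg (α * |(k 2 : ℝ)| - ‖e 1‖)]
  have h11 : ∑ j, ‖e j‖ ^ 2 = ‖e 0‖ ^ 2 + ‖e 1‖ ^ 2 + ‖e 2‖ ^ 2 := Fin.sum_univ_three _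
  unfold dom
  have h12 : 2 * Real.pi * (2 * (α * ‖e 2‖)) + 2 * Real.pi *
      (2 * (α * (|(k 2 : ℝ)| * (‖e 0‖ + ‖e 1‖)))) ≤
      2 * Real.pi * (3 * (q k * ∑ j, ‖b j‖ ^ 2) + ∑ j, ‖e j‖ ^ 2) := by
    rw [← mul_add]
    apply mul_le_mul_of_nonneg_left _ (by positivity)
    linarith
  have h13 : 8 * Real.pi ^ 2 * ε * (q k * α ^ 2) ≤
      8 * Real.pi ^ 2 * ε * (q k * ∑ j, ‖b j‖ ^ 2) :=
    mul_le_mul_of_nonneg_left h8 (by positivity)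
  have h14 : 0 ≤ Real.pi * ∑ j, ‖e j‖ ^ 2 := by positivity
  nlinarith

/-- Per-mode inequality for the potential. -/
theorem pot_le {ε : ℝ} (hε : 0 < ε) (k : Fin 3 → ℤ) (b e : Fin 3 → ℂ) :
    2 * (conj (pot k b) * pot k (Fc ε k b e)).re ≤
      4 * Real.pi * (conj (pot k b) * e 2).im - 6 * Real.pi ^ 2 * ε * (q k * ‖pot k b‖ ^ 2) +
        (4 / ε) * (‖e 0‖ ^ 2 + ‖e 1‖ ^ 2) := by
  have hp := Real.pi_pos
  by_cases hk : qh k = 0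
  · rw [pot_zero hk, pot_zero hk]
    simp only [map_zero, zero_mul, Complex.zero_re, Complex.zero_im, mul_zero, norm_zero]
    have : 0 ≤ (4 / ε) * (‖e 0‖ ^ 2 + ‖e 1‖ ^ 2) := by positivity
    simpa using this
  rw [pot_Fc hk]
  set a := pot k b with ha
  set τ := (k 2 : ℂ) / (qh k : ℂ) * ((k 0 : ℂ) * e 0 + (k 1 : ℂ) * e 1) with hτ
  have e1 : conj a * (2 * Real.pi * Complex.I * (-e 2) + 2 * Real.pi * Complex.I * τ -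
      4 * Real.pi ^ 2 * ε * q k * a) = 2 * Real.pi * (-(Complex.I * (conj a * e 2))) +
      conj a * (2 * Real.pi * Complex.I * τ) -
      ((4 * Real.pi ^ 2 * ε * q k * ‖a‖ ^ 2 : ℝ) : ℂ) := by
    have : conj a * a = ((‖a‖ ^ 2 : ℝ) : ℂ) := by
      rw [← Complex.normSq_eq_conj_mul_self, Complex.normSq_eq_norm_sq]
    push_cast at this ⊢
    linear_combination -(4 * Real.pi ^ 2 * ε * q k : ℂ) * this
  have e2 : (2 * Real.pi * (-(Complex.I * (conj a * e 2))) : ℂ).re =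
      2 * Real.pi * (conj a * e 2).im := by
    have : (2 * Real.pi * (-(Complex.I * (conj a * e 2))) : ℂ) =
        ((2 * Real.pi : ℝ) : ℂ) * (-(Complex.I * (conj a * e 2))) := by push_cast; ring
    rw [this, Complex.re_ofReal_mul, Complex.neg_re, Complex.I_mul_re, neg_neg]
  have t2 := (le_abs_self _).trans (abs_re_le a (2 * Real.pi * Complex.I * τ))
  have t3 : ‖2 * Real.pi * Complex.I * τ‖ = 2 * Real.pi * ‖τ‖ := by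
    simp [abs_of_pos Real.pi_pos]
  rw [t3] at t2
  have t4 := norm_tail_le hk e
  rw [← hτ] at t4
  have t5 : ‖a‖ * (2 * Real.pi * ‖τ‖) ≤
      2 * Real.pi * (‖a‖ * |(k 2 : ℝ)| * (‖e 0‖ + ‖e 1‖)) := by
    calc ‖a‖ * (2 * Real.pi * ‖τ‖) = 2 * Real.pi * (‖a‖ * ‖τ‖) := by ring
      _ ≤ 2 * Real.pi * (‖a‖ * (|(k 2 : ℝ)| * (‖e 0‖ + ‖e 1‖))) := by
          apply mul_le_mul_of_nonneg_left _ (by positivity)
          exact mul_le_mul_of_nonneg_left t4 (norm_nonneg _)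
      _ = _ := by ring
  have h5 : (k 2 : ℝ) ^ 2 ≤ q k := by
    rw [q_eq]; nlinarith [sq_nonneg (k 0 : ℝ), sq_nonneg (k 1 : ℝ)]
  have h6 : |(k 2 : ℝ)| ^ 2 = (k 2 : ℝ) ^ 2 := sq_abs _
  have t6 : 4 * Real.pi * (‖a‖ * |(k 2 : ℝ)| * (‖e 0‖ + ‖e 1‖)) ≤
      2 * Real.pi ^ 2 * ε * (q k * ‖a‖ ^ 2) + (4 / ε) * (‖e 0‖ ^ 2 + ‖e 1‖ ^ 2) := by
    have s1 : (k 2 : ℝ) ^ 2 * ‖a‖ ^ 2 ≤ q k * ‖a‖ ^ 2 :=
      mul_le_mul_of_nonneg_right h5 (sq_nonneg _)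
    have s2 : 2 * Real.pi ^ 2 * ε * ((k 2 : ℝ) ^ 2 * ‖a‖ ^ 2) ≤
        2 * Real.pi ^ 2 * ε * (q k * ‖a‖ ^ 2) := mul_le_mul_of_nonneg_left s1 (by positivity)
    have s3 : (2 / ε) * (‖e 0‖ + ‖e 1‖) ^ 2 ≤ (4 / ε) * (‖e 0‖ ^ 2 + ‖e 1‖ ^ 2) := by
      have : (4 / ε) * (‖e 0‖ ^ 2 + ‖e 1‖ ^ 2) - (2 / ε) * (‖e 0‖ + ‖e 1‖) ^ 2 =
        (2 / ε) * (‖e 0‖ - ‖e 1‖) ^ 2 := by ring
      have h : 0 ≤ (2 / ε) * (‖e 0‖ - ‖e 1‖) ^ 2 := by positivity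
      linarith
    have s4 : 2 * Real.pi ^ 2 * ε * ((k 2 : ℝ) ^ 2 * ‖a‖ ^ 2) + (2 / ε) * (‖e 0‖ + ‖e 1‖) ^ 2 -
        4 * Real.pi * (‖a‖ * |(k 2 : ℝ)| * (‖e 0‖ + ‖e 1‖)) =
        (2 / ε) * (Real.pi * ε * (‖a‖ * |(k 2 : ℝ)|) - (‖e 0‖ + ‖e 1‖)) ^ 2 := by
      rw [← h6]
      field_simp
      ring
    have s5 : 0 ≤ (2 / ε) * (Real.pi * ε * (‖a‖ * |(k 2 : ℝ)|) - (‖e 0‖ + ‖e 1‖)) ^ 2 := by
      positivity
    linarith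
  rw [e1, Complex.sub_re, Complex.add_re, Complex.ofReal_re, e2]
  nlinarith

end Pool.Agent.LibH36.Dyn
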