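import Pool.Agent.Lib_helper36.Dyn.Energy
import Pool.Agent.Lib_helper36.Dyn.Mode

set_option autoImplicit false

/-!
# The planar induction equation at a fixed time: cancellations
-/

namespace Pool.Agent.LibH36.Dyn

open MeasureTheory Filter Topology Set
open scoped ComplexConjugate

section Hilbert

variable {E : Type*} [NormedAddCommGroup E] [InnerProductSpace ℂ E]
variable {ι : Type*}

theorem hasSum_sq (bs : HilbertBasis ι ℂ E) (g : E) :
    HasSum (fun k => ‖inner ℂ (bs k) g‖ ^ 2) (‖g‖ ^ 2) := by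
  have h := bs.hasSum_inner_mul_inner g g
  have h2 := Complex.hasSum_re h
  have h3 : (inner ℂ g g : ℂ).re = ‖g‖ ^ 2 := by
    rw [inner_self_eq_norm_sq_to_K]
    norm_cast
  rw [h3] at h2
  refine h2.congr_fun ?_
  intro k
  have : inner ℂ g (bs k) = conj (inner ℂ (bs k) g : ℂ) := (inner_conj_symm _ _).symm
  rw [this, ← Complex.normSq_eq_conj_mul_self, Complex.ofReal_re, Complex.normSq_eq_norm_sq]

theorem exists_vec (bs : HilbertBasis ι ℂ E) {c : ι → ℂ} (hc : Summable fun k => ‖c k‖ ^ 2) :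
    ∃ g : E, (∀ k, inner ℂ (bs k) g = c k) ∧ HasSum (fun k => c k • bs k) g := by
  have hm : Memℓp c 2 := by
    rw [memℓp_gen_iff (by norm_num)]
    simpa using hc
  let w : lp (fun _ : ι => ℂ) 2 := ⟨c, hm⟩
  refine ⟨bs.repr.symm w, ?_, ?_⟩
  · intro k
    rw [← bs.repr_apply_apply, LinearIsometryEquiv.apply_symm_apply]
  · exact bs.hasSum_repr_symm w

theorem hasSum_inner (bs : HilbertBasis ι ℂ E) {c : ι → ℂ} {x y : E}
    (hx : ∀ k, inner ℂ (bs k) x = c k) :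
    HasSum (fun k => conj (c k) * inner ℂ (bs k) y) (inner ℂ x y) := by
  refine (bs.hasSum_inner_mul_inner x y).congr_fun ?_
  intro k
  rw [← hx k, inner_conj_symm]

end Hilbert

variable {E : Type*} [NormedAddCommGroup E] [InnerProductSpace ℂ E]

/-- The velocity (as bounded operators) and the magnetic field at a fixed time. -/
structure Slice (bs : HilbertBasis (Fin 3 → ℤ) ℂ E) (M : ℝ) (U : Fin 3 → E →L[ℂ] E)
    (V : Fin 3 → E) : Prop where
  sym : ∀ j x y, inner ℂ (U j x) y = inner ℂ x (U j y)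
  bound : ∀ j x, ‖U j x‖ ≤ M * ‖x‖
  zero : ∀ x, U 2 x = 0
  div : ∀ k l : Fin 3 → ℤ, ∑ j, ((k j : ℂ) - (l j : ℂ)) * inner ℂ (bs k) (U j (bs l)) = 0
  divV : ∀ k, ∑ j, (k j : ℂ) * inner ℂ (bs k) (V j) = 0
  h1 : Summable fun k => q k * ∑ i, ‖inner ℂ (bs k) (V i)‖ ^ 2

/-- `u × B`. -/
def XX (U : Fin 3 → E →L[ℂ] E) (V : Fin 3 → E) : Fin 3 → E :=
  ![U 1 (V 2), -(U 0 (V 2)), U 0 (V 1) - U 1 (V 0)]

variable {bs : HilbertBasis (Fin 3 → ℤ) ℂ E} {M : ℝ} {U : Fin 3 → E →L[ℂ] E} {V : Fin 3 → E}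

/-- Coefficients. -/
noncomputable def co (bs : HilbertBasis (Fin 3 → ℤ) ℂ E) (V : Fin 3 → E) (k : Fin 3 → ℤ) :
    Fin 3 → ℂ := fun i => inner ℂ (bs k) (V i)

theorem summable_coord {c : (Fin 3 → ℤ) → ℂ} (h : Summable fun k => q k * ‖c k‖ ^ 2) (j : Fin 3) :
    Summable fun k => ‖(k j : ℂ) * c k‖ ^ 2 := by
  refine Summable.of_nonneg_of_le (fun _ => by positivity) ?_ h
  intro k
  rw [norm_mul, mul_pow, Complex.norm_intCast, sq_abs]
  apply mul_le_mul_of_nonneg_right _ (by positivity)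
  exact Finset.single_le_sum (f := fun j => (k j : ℝ) ^ 2) (fun _ _ => by positivity)
    (Finset.mem_univ j)

theorem Slice.sum_q (h : Slice bs M U V) (i : Fin 3) :
    Summable fun k => q k * ‖co bs V k i‖ ^ 2 := by
  refine Summable.of_nonneg_of_le (fun k => mul_nonneg (q_nonneg k) (by positivity)) ?_ h.h1
  intro k
  exact mul_le_mul_of_nonneg_left (sq_le_sum (co bs V k) i) (q_nonneg k)

/-- The transport form vanishes on fields with square summable gradient. -/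
theorem Slice.transport (h : Slice bs M U V) {c : (Fin 3 → ℤ) → ℂ}
    (h0 : Summable fun k => ‖c k‖ ^ 2) (hc : Summable fun k => q k * ‖c k‖ ^ 2) :
    ∃ (A : E) (G : Fin 3 → E), (∀ k, inner ℂ (bs k) A = c k) ∧
      (∀ j k, inner ℂ (bs k) (G j) = (k j : ℂ) * c k) ∧
      (inner ℂ (G 0) (U 0 A) + inner ℂ (G 1) (U 1 A)).im = 0 := by
  obtain ⟨A, hA, hA2⟩ := exists_vec bs h0
  have hG := fun j => exists_vec bs (summable_coord hc j)
  choose G hG1 hG2 using hG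
  refine ⟨A, G, hA, hG1, ?_⟩
  have := form_im (fun k => bs k) U (fun k j => (k j : ℂ)) (by simp) h.div h.sym c A G hA2 hG2
  rw [Fin.sum_univ_three, h.zero, inner_zero_right, add_zero] at this
  exact this

theorem re_two_pi_I (z : ℂ) : (2 * Real.pi * Complex.I * z).re = -(2 * Real.pi * z.im) := by
  have : (2 * Real.pi * Complex.I * z : ℂ) = ((2 * Real.pi : ℝ) : ℂ) * (Complex.I * z) := by
    push_cast; ring
  rw [this, Complex.re_ofReal_mul, Complex.I_mul_re]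
  ring

theorem conj_mul_self' (z : ℂ) : conj z * z = ((‖z‖ ^ 2 : ℝ) : ℂ) := by
  rw [← Complex.normSq_eq_conj_mul_self, Complex.normSq_eq_norm_sq]

/-- Energy balance of the vertical component. -/
theorem Slice.vertical (h : Slice bs M U V) (ε : ℝ) :
    HasSum (fun k => 2 * (conj (co bs V k 2) *
        Fc ε k (co bs V k) (co bs (XX U V) k) 2).re)
      (-(8 * Real.pi ^ 2 * ε * ∑' k, q k * ‖co bs V k 2‖ ^ 2)) := by
  obtain ⟨A, G, hA, hG, him⟩ := h.transport (c := fun k => co bs V k 2)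
    (hasSum_sq bs (V 2)).summable (h.sum_q 2)
  have hAV : A = V 2 := by
    apply bs.repr.injective
    ext k
    rw [bs.repr_apply_apply, bs.repr_apply_apply, hA]
    rfl
  subst hAV
  have s0 := hasSum_inner bs (y := U 0 (V 2)) (hG 0)
  have s1 := hasSum_inner bs (y := U 1 (V 2)) (hG 1)
  have s2 := (Complex.hasSum_im (s0.add s1)).mul_left (4 * Real.pi)
  rw [him, mul_zero] at s2
  have s3 := (h.sum_q 2).hasSum.mul_left (8 * Real.pi ^ 2 * ε)
  have s4 := s2.sub s3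
  rw [zero_sub] at s4
  refine s4.congr_fun ?_
  intro k
  have e0 : co bs (XX U V) k 0 = inner ℂ (bs k) (U 1 (V 2)) := rfl
  have e1 : co bs (XX U V) k 1 = -inner ℂ (bs k) (U 0 (V 2)) := by
    simp [co, XX, inner_neg_right]
  rw [Fc_two, e0, e1]
  set b := co bs V k 2 with hb
  set x := (inner ℂ (bs k) (U 0 (V 2)) : ℂ)
  set y := (inner ℂ (bs k) (U 1 (V 2)) : ℂ)
  have e2 : conj b * (2 * Real.pi * Complex.I * ((k 0 : ℂ) * -x - (k 1 : ℂ) * y) -
      4 * Real.pi ^ 2 * ε * q k * b) = 2 * Real.pi * Complex.I *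
        (-(conj ((k 0 : ℂ) * b) * x + conj ((k 1 : ℂ) * b) * y)) -
      ((4 * Real.pi ^ 2 * ε * (q k * ‖b‖ ^ 2) : ℝ) : ℂ) := by
    have := conj_mul_self' b
    simp only [map_mul, map_intCast]
    push_cast at this ⊢
    linear_combination -(4 * Real.pi ^ 2 * ε * q k : ℂ) * this
  rw [e2, Complex.sub_re, re_two_pi_I, Complex.ofReal_re, Complex.neg_im]
  ring

/-- The horizontal mean part of the energy density. -/
noncomputable def mn (bs : HilbertBasis (Fin 3 → ℤ) ℂ E) (V : Fin 3 → E) (k : Fin 3 → ℤ) : ℝ :=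
  if qh k = 0 then ‖co bs V k 0‖ ^ 2 + ‖co bs V k 1‖ ^ 2 else 0

theorem mn_nonneg (bs : HilbertBasis (Fin 3 → ℤ) ℂ E) (V : Fin 3 → E) (k : Fin 3 → ℤ) :
    0 ≤ mn bs V k := by
  unfold mn
  split_ifs <;> positivity

theorem summable_mn (bs : HilbertBasis (Fin 3 → ℤ) ℂ E) (V : Fin 3 → E) :
    Summable (mn bs V) := by
  refine Summable.of_nonneg_of_le (mn_nonneg bs V) ?_
    ((hasSum_sq bs (V 0)).summable.add (hasSum_sq bs (V 1)).summable)
  intro k
  unfold mn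
  split_ifs
  · exact le_rfl
  · positivity

theorem Slice.sum_pot (h : Slice bs M U V) :
    Summable fun k => q k * ‖pot k (co bs V k)‖ ^ 2 := by
  refine Summable.of_nonneg_of_le (fun k => mul_nonneg (q_nonneg k) (by positivity)) ?_ h.h1
  intro k
  apply mul_le_mul_of_nonneg_left _ (q_nonneg k)
  refine (norm_pot_sq_le' k _).trans ?_
  rw [Fin.sum_univ_three]
  have : 0 ≤ ‖inner ℂ (bs k) (V 2)‖ ^ 2 := by positivity
  simp only [co]
  linarith

theorem summable_pot0 (bs : HilbertBasis (Fin 3 → ℤ) ℂ E) (V : Fin 3 → E) :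
    Summable fun k => ‖pot k (co bs V k)‖ ^ 2 := by
  refine Summable.of_nonneg_of_le (fun k => by positivity) ?_
    ((hasSum_sq bs (V 0)).summable.add (hasSum_sq bs (V 1)).summable)
  intro k
  exact norm_pot_sq_le' k _

theorem Slice.norm_XX (h : Slice bs M U V) :
    ‖XX U V 0‖ ^ 2 + ‖XX U V 1‖ ^ 2 ≤ 2 * M ^ 2 * ‖V 2‖ ^ 2 := by
  have h0 := h.bound 0 (V 2)
  have h1 := h.bound 1 (V 2)
  have e0 : XX U V 0 = U 1 (V 2) := rfl
  have e1 : XX U V 1 = -(U 0 (V 2)) := rfl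
  rw [e0, e1, norm_neg]
  have h2 := pow_le_pow_left₀ (norm_nonneg _) h0 2
  have h3 := pow_le_pow_left₀ (norm_nonneg _) h1 2
  rw [mul_pow] at h2 h3
  linarith

/-- Energy inequality for the potential at a fixed time. -/
theorem Slice.potential (h : Slice bs M U V) {ε : ℝ} (hε : 0 < ε) :
    ∑' k, 2 * (conj (pot k (co bs V k)) *
        pot k (Fc ε k (co bs V k) (co bs (XX U V) k))).re ≤
      -(4 * Real.pi ^ 2 * ε * ∑' k, q k * ‖pot k (co bs V k)‖ ^ 2) +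
        (8 * M ^ 2 / ε) * ‖V 2‖ ^ 2 +
        (4 * M ^ 2 / ε) * (∑' k, q k * ‖co bs V k 2‖ ^ 2 + ∑' k, mn bs V k) := by
  have hp := Real.pi_pos
  set a : (Fin 3 → ℤ) → ℂ := fun k => pot k (co bs V k) with ha
  have hs0 : Summable fun k => ‖a k‖ ^ 2 := summable_pot0 bs V
  have hsq : Summable fun k => q k * ‖a k‖ ^ 2 := h.sum_pot
  obtain ⟨A, G, hA, hG, him⟩ := h.transport hs0 hsq
  set R0 : E := V 0 + G 1 with hR0
  set R1 : E := V 1 - G 0 with hR1
  -- the norm of the remainder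
  have hR : ‖R0‖ ^ 2 + ‖R1‖ ^ 2 ≤ ∑' k, q k * ‖co bs V k 2‖ ^ 2 + ∑' k, mn bs V k := by
    have r0 := hasSum_sq bs R0
    have r1 := hasSum_sq bs R1
    refine hasSum_le ?_ (r0.add r1) ((h.sum_q 2).hasSum.add (summable_mn bs V).hasSum)
    intro k
    have i0 : inner ℂ (bs k) R0 = co bs V k 0 + (k 1 : ℂ) * pot k (co bs V k) := by
      rw [hR0, inner_add_right, hG 1 k]; rfl
    have i1 : inner ℂ (bs k) R1 = co bs V k 1 - (k 0 : ℂ) * pot k (co bs V k) := by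
      rw [hR1, inner_sub_right, hG 0 k]; rfl
    rw [i0, i1]
    by_cases hk : qh k = 0
    · rw [pot_zero hk, mul_zero, mul_zero, add_zero, sub_zero, mn, if_pos hk]
      have : 0 ≤ q k * ‖co bs V k 2‖ ^ 2 := mul_nonneg (q_nonneg k) (by positivity)
      linarith
    · have := rem_le hk (b := co bs V k) (h.divV k)
      rw [mn, if_neg hk, add_zero]
      exact this
  -- the inner product
  have hX2 : inner ℂ A (XX U V 2) = (inner ℂ A (U 0 (G 0)) + inner ℂ A (U 1 (G 1))) +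
      (inner ℂ A (U 0 R1) - inner ℂ A (U 1 R0)) := by
    have e2 : XX U V 2 = U 0 (V 1) - U 1 (V 0) := rfl
    rw [e2, hR0, hR1, map_add, map_sub, inner_sub_right, inner_sub_right, inner_add_right]
    ring
  have him2 : (inner ℂ A (U 0 (G 0)) + inner ℂ A (U 1 (G 1))).im = 0 := by
    have : inner ℂ A (U 0 (G 0)) + inner ℂ A (U 1 (G 1)) =
        conj (inner ℂ (G 0) (U 0 A) + inner ℂ (G 1) (U 1 A)) := by
      rw [map_add, inner_conj_symm, inner_conj_symm, h.sym, h.sym]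
    rw [this, Complex.conj_im, him, neg_zero]
  have hAn : ‖A‖ ^ 2 ≤ ∑' k, q k * ‖a k‖ ^ 2 := by
    have := hasSum_sq bs A
    simp only [hA] at this
    exact hasSum_le (fun k => norm_pot_le_q k _) this hsq.hasSum
  have him3 : (inner ℂ A (XX U V 2)).im ≤ ‖A‖ * (M * (‖R0‖ + ‖R1‖)) := by
    rw [hX2, Complex.add_im, him2, zero_add]
    have t1 : (inner ℂ A (U 0 R1) - inner ℂ A (U 1 R0)).im ≤
        ‖(inner ℂ A (U 0 R1) - inner ℂ A (U 1 R0) : ℂ)‖ :=
      (le_abs_self _).trans (Complex.abs_im_le_norm _)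
    refine t1.trans ((norm_sub_le _ _).trans ?_)
    have n1 : ‖(inner ℂ A (U 0 R1) : ℂ)‖ ≤ ‖A‖ * (M * ‖R1‖) :=
      (norm_inner_le_norm _ _).trans (mul_le_mul_of_nonneg_left (h.bound 0 R1) (norm_nonneg _))
    have n2 : ‖(inner ℂ A (U 1 R0) : ℂ)‖ ≤ ‖A‖ * (M * ‖R0‖) :=
      (norm_inner_le_norm _ _).trans (mul_le_mul_of_nonneg_left (h.bound 1 R0) (norm_nonneg _))
    linarith
  have hXs : HasSum (fun k => conj (a k) * co bs (XX U V) k 2) (inner ℂ A (XX U V 2)) :=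
    hasSum_inner bs hA
  have s1 := (Complex.hasSum_im hXs).mul_left (4 * Real.pi)
  have s2 := hsq.hasSum.mul_left (6 * Real.pi ^ 2 * ε)
  have s3 := ((hasSum_sq bs (XX U V 0)).add (hasSum_sq bs (XX U V 1))).mul_left (4 / ε)
  have s4 := (s1.sub s2).add s3
  -- summability of the left-hand side
  have hS : Summable fun k => 2 * (conj (pot k (co bs V k)) *
        pot k (Fc ε k (co bs V k) (co bs (XX U V) k))).re := by
    have hd : Summable fun k => dom ε k (co bs V k) (co bs (XX U V) k) := by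
      unfold dom
      refine (h.h1.mul_left _).add (Summable.mul_left _ ?_)
      exact summable_sum fun j _ => (hasSum_sq bs (XX U V j)).summable
    exact Summable.of_norm_bounded hd fun k => by
      rw [Real.norm_eq_abs]; exact pot_abs_le_dom hε.le k _ _
  have hle := hasSum_le (fun k => pot_le hε k (co bs V k) (co bs (XX U V) k)) hS.hasSum s4
  refine hle.trans ?_
  have hXX := h.norm_XX
  have hM2 : 0 ≤ M ^ 2 := sq_nonneg M
  -- AM-GM
  have g1 : 4 * Real.pi * (inner ℂ A (XX U V 2)).im ≤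
      2 * Real.pi ^ 2 * ε * ‖A‖ ^ 2 + (4 * M ^ 2 / ε) * (‖R0‖ ^ 2 + ‖R1‖ ^ 2) := by
    have g2 : 4 * Real.pi * (inner ℂ A (XX U V 2)).im ≤
        4 * Real.pi * (‖A‖ * (M * (‖R0‖ + ‖R1‖))) :=
      mul_le_mul_of_nonneg_left him3 (by positivity)
    have g3 : 2 * Real.pi ^ 2 * ε * ‖A‖ ^ 2 + (2 * M ^ 2 / ε) * (‖R0‖ + ‖R1‖) ^ 2 -
        4 * Real.pi * (‖A‖ * (M * (‖R0‖ + ‖R1‖))) =
        (2 / ε) * (Real.pi * ε * ‖A‖ - M * (‖R0‖ + ‖R1‖)) ^ 2 := by
      field_simp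
      ring
    have g4 : 0 ≤ (2 / ε) * (Real.pi * ε * ‖A‖ - M * (‖R0‖ + ‖R1‖)) ^ 2 := by positivity
    have g5 : (4 * M ^ 2 / ε) * (‖R0‖ ^ 2 + ‖R1‖ ^ 2) - (2 * M ^ 2 / ε) * (‖R0‖ + ‖R1‖) ^ 2 =
        (2 * M ^ 2 / ε) * (‖R0‖ - ‖R1‖) ^ 2 := by ring
    have g6 : 0 ≤ (2 * M ^ 2 / ε) * (‖R0‖ - ‖R1‖) ^ 2 := by positivity
    linarith
  have g7 : 2 * Real.pi ^ 2 * ε * ‖A‖ ^ 2 ≤ 2 * Real.pi ^ 2 * ε * ∑' k, q k * ‖a k‖ ^ 2 :=
    mul_le_mul_of_nonneg_left hAn (by positivity)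
  have g8 : (4 * M ^ 2 / ε) * (‖R0‖ ^ 2 + ‖R1‖ ^ 2) ≤
      (4 * M ^ 2 / ε) * (∑' k, q k * ‖co bs V k 2‖ ^ 2 + ∑' k, mn bs V k) :=
    mul_le_mul_of_nonneg_left hR (by positivity)
  have g9 : (4 / ε) * (‖XX U V 0‖ ^ 2 + ‖XX U V 1‖ ^ 2) ≤ (4 / ε) * (2 * M ^ 2 * ‖V 2‖ ^ 2) :=
    mul_le_mul_of_nonneg_left hXX (by positivity)
  have g10 : (4 / ε) * (2 * M ^ 2 * ‖V 2‖ ^ 2) = (8 * M ^ 2 / ε) * ‖V 2‖ ^ 2 := by ring
  have g11 : 6 * Real.pi ^ 2 * ε * ∑' k, q k * ‖a k‖ ^ 2 =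
      2 * Real.pi ^ 2 * ε * ∑' k, q k * ‖a k‖ ^ 2 + 4 * Real.pi ^ 2 * ε * ∑' k, q k * ‖a k‖ ^ 2 := by
    ring
  have g12 : ∑' k, q k * ‖a k‖ ^ 2 = ∑' k, q k * ‖pot k (co bs V k)‖ ^ 2 := rfl
  linarith

end Pool.Agent.LibH36.Dyn
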