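import Pool.Agent.Lib_helper36.Dyn.Slice

set_option autoImplicit false

/-!
# Energy estimates in time
-/

namespace Pool.Agent.LibH36.Dyn

open MeasureTheory Filter Topology Set
open scoped ComplexConjugate

theorem aesm_tsum {ι : Type*} [Countable ι] {μ : Measure ℝ} {f : ι → ℝ → ℝ}
    (hf : ∀ k, AEStronglyMeasurable (f k) μ) (hs : ∀ᵐ s ∂μ, Summable fun k => f k s) :
    AEStronglyMeasurable (fun s => ∑' k, f k s) μ := by
  refine aestronglyMeasurable_of_tendsto_ae (u := (atTop : Filter (Finset ι)))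
    (f := fun S s => ∑ k ∈ S, f k s) ?_ ?_
  · intro S
    exact Finset.aestronglyMeasurable_fun_sum S fun k _ => hf k
  · filter_upwards [hs] with s h
    exact h.hasSum

theorem integrable_tsum {ι : Type*} [Countable ι] {μ : Measure ℝ} {f g : ι → ℝ → ℝ}
    (hf : ∀ k, AEStronglyMeasurable (f k) μ) (hfg : ∀ k, ∀ᵐ s ∂μ, |f k s| ≤ g k s)
    (hs : ∀ᵐ s ∂μ, Summable fun k => g k s) (hg : Integrable (fun s => ∑' k, g k s) μ) :
    Integrable (fun s => ∑' k, f k s) μ := by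
  have hall : ∀ᵐ s ∂μ, ∀ k, |f k s| ≤ g k s := ae_all_iff.mpr hfg
  have hs' : ∀ᵐ s ∂μ, Summable fun k => f k s := by
    filter_upwards [hall, hs] with s h1 h2
    exact Summable.of_norm_bounded h2 fun k => by rw [Real.norm_eq_abs]; exact h1 k
  refine hg.mono (aesm_tsum hf hs') ?_
  filter_upwards [hall, hs] with s h1 h2
  have h3 : ‖∑' k, f k s‖ ≤ ∑' k, g k s :=
    tsum_of_norm_bounded h2.hasSum fun k => by rw [Real.norm_eq_abs]; exact h1 k
  exact h3.trans (le_abs_self _)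

theorem integral_lin3 {μ : Measure ℝ} [IsFiniteMeasure μ] {f g : ℝ → ℝ} (hf : Integrable f μ)
    (hg : Integrable g μ) (a b c : ℝ) :
    ∫ s, (a * f s + b * g s + c) ∂μ = a * (∫ s, f s ∂μ) + b * (∫ s, g s ∂μ) + μ.real univ * c := by
  have h1 : ∫ s, (a * f s + b * g s + c) ∂μ = ∫ s, (a * f s + b * g s) ∂μ + ∫ _, c ∂μ :=
    integral_add ((hf.const_mul a).add (hg.const_mul b)) (integrable_const c)
  have h2 : ∫ s, (a * f s + b * g s) ∂μ = ∫ s, a * f s ∂μ + ∫ s, b * g s ∂μ :=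
    integral_add (hf.const_mul a) (hg.const_mul b)
  rw [h1, h2, integral_const_mul, integral_const_mul, integral_const, smul_eq_mul]

theorem integrable_lin3 {μ : Measure ℝ} [IsFiniteMeasure μ] {f g : ℝ → ℝ} (hf : Integrable f μ)
    (hg : Integrable g μ) (a b c : ℝ) :
    Integrable (fun s => a * f s + b * g s + c) μ :=
  ((hf.const_mul a).add (hg.const_mul b)).add (integrable_const c)

variable {E : Type*} [NormedAddCommGroup E] [InnerProductSpace ℂ E]

/-- The time dependent data on `[0, T]`. -/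
structure Evo (bs : HilbertBasis (Fin 3 → ℤ) ℂ E) (M ε T : ℝ) (U : ℝ → Fin 3 → E →L[ℂ] E)
    (V : ℝ → Fin 3 → E) : Prop where
  hT : 0 ≤ T
  hM : 0 ≤ M
  hε : 0 < ε
  cont : ∀ j, ContinuousOn (fun t => V t j) (Icc 0 T)
  bound : ∀ s ∈ Icc 0 T, ∀ j x, ‖U s j x‖ ≤ M * ‖x‖
  slice : ∀ᵐ s ∂(volume.restrict (Ioc 0 T)), Slice bs M (U s) (V s)
  meas : ∀ k j, AEStronglyMeasurable (fun s => co bs (XX (U s) (V s)) k j)
    (volume.restrict (Ioc 0 T))
  grad : Integrable (fun s => ∑' k, q k * ∑ i, ‖co bs (V s) k i‖ ^ 2) (volume.restrict (Ioc 0 T))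
  eqn : ∀ k i, ∀ t ∈ Icc 0 T, co bs (V t) k i = co bs (V 0) k i +
    ∫ s in (0 : ℝ)..t, Fc ε k (co bs (V s) k) (co bs (XX (U s) (V s)) k) i

variable {bs : HilbertBasis (Fin 3 → ℤ) ℂ E} {M ε T : ℝ} {U : ℝ → Fin 3 → E →L[ℂ] E}
  {V : ℝ → Fin 3 → E}

theorem Evo.co_cont (h : Evo bs M ε T U V) (k : Fin 3 → ℤ) (i : Fin 3) :
    ContinuousOn (fun t => co bs (V t) k i) (Icc 0 T) :=
  ContinuousOn.inner (𝕜 := ℂ) continuousOn_const (h.cont i)

theorem Evo.exists_bound (h : Evo bs M ε T U V) :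
    ∃ K, 0 ≤ K ∧ ∀ t ∈ Icc 0 T, ∀ j, ‖V t j‖ ≤ K := by
  have : ∀ j, ∃ K, ∀ t ∈ Icc 0 T, ‖V t j‖ ≤ K := fun j =>
    isCompact_Icc.exists_bound_of_continuousOn (h.cont j)
  choose K hK using this
  refine ⟨∑ j, |K j|, Finset.sum_nonneg fun _ _ => abs_nonneg _, fun t ht j => ?_⟩
  refine (hK j t ht).trans ((le_abs_self _).trans ?_)
  exact Finset.single_le_sum (f := fun j => |K j|) (fun _ _ => abs_nonneg _) (Finset.mem_univ j)

theorem norm_co_le (bs : HilbertBasis (Fin 3 → ℤ) ℂ E) (V : Fin 3 → E) (k : Fin 3 → ℤ)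
    (j : Fin 3) : ‖co bs V k j‖ ≤ ‖V j‖ := by
  refine (norm_inner_le_norm _ _).trans ?_
  rw [bs.orthonormal.norm_eq_one, one_mul]

theorem Evo.XX_bound (h : Evo bs M ε T U V) :
    ∃ K, 0 ≤ K ∧ ∀ t ∈ Icc 0 T, ∀ j, ‖XX (U t) (V t) j‖ ≤ K := by
  obtain ⟨K, hK, hb⟩ := h.exists_bound
  have hM := h.hM
  refine ⟨2 * (M * K), by positivity, fun t ht j => ?_⟩
  have hu : ∀ i j, ‖U t i (V t j)‖ ≤ M * K := fun i j =>
    (h.bound t ht i _).trans (mul_le_mul_of_nonneg_left (hb t ht j) hM)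
  have hMK : 0 ≤ M * K := by positivity
  fin_cases j
  · have : XX (U t) (V t) 0 = U t 1 (V t 2) := rfl
    simp only [Fin.zero_eta, this]
    linarith [hu 1 2]
  · have : XX (U t) (V t) 1 = -(U t 0 (V t 2)) := rfl
    simp only [Fin.mk_one, this, norm_neg]
    linarith [hu 0 2]
  · have : XX (U t) (V t) 2 = U t 0 (V t 1) - U t 1 (V t 0) := rfl
    simp only [Fin.reduceFinMk, this]
    refine (norm_sub_le _ _).trans ?_
    linarith [hu 0 1, hu 1 0]

theorem Evo.Fc_integrable (h : Evo bs M ε T U V) (k : Fin 3 → ℤ) (i : Fin 3) :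
    IntervalIntegrable (fun s => Fc ε k (co bs (V s) k) (co bs (XX (U s) (V s)) k) i)
      volume 0 T := by
  rw [intervalIntegrable_iff_integrableOn_Ioc_of_le h.hT]
  obtain ⟨K, hK, hb⟩ := h.XX_bound
  have hsub : ∀ᵐ s ∂(volume.restrict (Ioc 0 T)), s ∈ Icc 0 T := by
    filter_upwards [ae_restrict_mem measurableSet_Ioc] with s hs using ⟨hs.1.le, hs.2⟩
  have hx : ∀ j, Integrable (fun s => co bs (XX (U s) (V s)) k j)
      (volume.restrict (Ioc 0 T)) := by
    intro j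
    refine Integrable.of_bound (h.meas k j) K ?_
    filter_upwards [hsub] with s hs
    exact (norm_co_le bs _ k j).trans (hb s hs j)
  have hv : ∀ j, Integrable (fun s => co bs (V s) k j) (volume.restrict (Ioc 0 T)) := by
    intro j
    exact ((h.co_cont k j).integrableOn_Icc).mono_set Ioc_subset_Icc_self
  have hc : Integrable (fun s => crossProduct (fun j => (k j : ℂ))
      (co bs (XX (U s) (V s)) k) i) (volume.restrict (Ioc 0 T)) := by
    simp only [cross_apply]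
    fin_cases i
    · simp only [Fin.zero_eta, Matrix.cons_val]
      exact ((hx 2).const_mul _).sub ((hx 1).const_mul _)
    · simp only [Fin.mk_one, Matrix.cons_val]
      exact ((hx 0).const_mul _).sub ((hx 2).const_mul _)
    · simp only [Fin.reduceFinMk, Matrix.cons_val]
      exact ((hx 1).const_mul _).sub ((hx 0).const_mul _)
  unfold IntegrableOn Fc
  exact (hc.const_mul _).sub ((hv i).const_mul _)

theorem Evo.mono (h : Evo bs M ε T U V) {t : ℝ} (ht : t ∈ Icc 0 T) : Evo bs M ε t U V where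
  hT := ht.1
  hM := h.hM
  hε := h.hε
  cont := fun j => (h.cont j).mono (Icc_subset_Icc_right ht.2)
  bound := fun s hs => h.bound s (Icc_subset_Icc_right ht.2 hs)
  slice := ae_mono (Measure.restrict_mono (Ioc_subset_Ioc_right ht.2) le_rfl) h.slice
  meas := fun k j => (h.meas k j).mono_measure
    (Measure.restrict_mono (Ioc_subset_Ioc_right ht.2) le_rfl)
  grad := h.grad.mono_measure (Measure.restrict_mono (Ioc_subset_Ioc_right ht.2) le_rfl)
  eqn := fun k i s hs => h.eqn k i s (Icc_subset_Icc_right ht.2 hs)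

theorem Evo.dom_facts (h : Evo bs M ε T U V) :
    (∀ᵐ s ∂(volume.restrict (Ioc 0 T)),
      Summable fun k => dom ε k (co bs (V s) k) (co bs (XX (U s) (V s)) k)) ∧
    Integrable (fun s => ∑' k, dom ε k (co bs (V s) k) (co bs (XX (U s) (V s)) k))
      (volume.restrict (Ioc 0 T)) := by
  obtain ⟨K, hK, hb⟩ := h.XX_bound
  have hsub : ∀ᵐ s ∂(volume.restrict (Ioc 0 T)), s ∈ Icc 0 T := by
    filter_upwards [ae_restrict_mem measurableSet_Ioc] with s hs using ⟨hs.1.le, hs.2⟩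
  have hX : ∀ s, HasSum (fun k => ∑ j, ‖co bs (XX (U s) (V s)) k j‖ ^ 2)
      (∑ j, ‖XX (U s) (V s) j‖ ^ 2) := fun s => hasSum_sum fun j _ => hasSum_sq bs _
  have hD : ∀ᵐ s ∂(volume.restrict (Ioc 0 T)),
      HasSum (fun k => dom ε k (co bs (V s) k) (co bs (XX (U s) (V s)) k))
        ((6 * Real.pi + 8 * Real.pi ^ 2 * ε) * (∑' k, q k * ∑ i, ‖co bs (V s) k i‖ ^ 2) +
          4 * Real.pi * ∑ j, ‖XX (U s) (V s) j‖ ^ 2) := by
    filter_upwards [h.slice] with s hs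
    exact (hs.h1.hasSum.mul_left _).add ((hX s).mul_left _)
  refine ⟨?_, ?_⟩
  · filter_upwards [hD] with s hs using hs.summable
  · have hXi : Integrable (fun s => ∑ j, ‖XX (U s) (V s) j‖ ^ 2) (volume.restrict (Ioc 0 T)) := by
      have hm : AEStronglyMeasurable (fun s => ∑ j, ‖XX (U s) (V s) j‖ ^ 2)
          (volume.restrict (Ioc 0 T)) := by
        have h1 : AEStronglyMeasurable (fun s => ∑' k, ∑ j, ‖co bs (XX (U s) (V s)) k j‖ ^ 2)
            (volume.restrict (Ioc 0 T)) := by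
          refine aesm_tsum (fun k => ?_) (Eventually.of_forall fun s => (hX s).summable)
          exact Finset.aestronglyMeasurable_fun_sum _ fun j _ => ((h.meas k j).norm.pow 2)
        refine h1.congr (Eventually.of_forall fun s => ?_)
        exact (hX s).tsum_eq
      refine Integrable.of_bound hm (3 * K ^ 2) ?_
      filter_upwards [hsub] with s hs
      rw [Real.norm_eq_abs, abs_of_nonneg (Finset.sum_nonneg fun _ _ => by positivity),
        Fin.sum_univ_three]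
      have := fun j => pow_le_pow_left₀ (norm_nonneg _) (hb s hs j) 2
      linarith [this 0, this 1, this 2]
    have h2 := (h.grad.const_mul (6 * Real.pi + 8 * Real.pi ^ 2 * ε)).add
      (hXi.const_mul (4 * Real.pi))
    refine h2.congr ?_
    filter_upwards [hD] with s hs
    exact hs.tsum_eq.symm

/-- Integrability of weighted sums dominated by the gradient. -/
theorem Evo.int_of_le (h : Evo bs M ε T U V) {f : (Fin 3 → ℤ) → ℝ → ℝ}
    (hf : ∀ k, AEStronglyMeasurable (f k) (volume.restrict (Ioc 0 T)))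
    (hle : ∀ k s, |f k s| ≤ q k * ∑ i, ‖co bs (V s) k i‖ ^ 2) :
    Integrable (fun s => ∑' k, f k s) (volume.restrict (Ioc 0 T)) := by
  refine integrable_tsum hf (fun k => Eventually.of_forall (hle k)) ?_ h.grad
  filter_upwards [h.slice] with s hs using hs.h1

theorem Evo.co_meas (h : Evo bs M ε T U V) (k : Fin 3 → ℤ) (i : Fin 3) :
    AEStronglyMeasurable (fun s => co bs (V s) k i) (volume.restrict (Ioc 0 T)) :=
  ((h.co_cont k i).mono Ioc_subset_Icc_self).aestronglyMeasurable measurableSet_Ioc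

theorem Evo.D2_int (h : Evo bs M ε T U V) :
    Integrable (fun s => ∑' k, q k * ‖co bs (V s) k 2‖ ^ 2) (volume.restrict (Ioc 0 T)) := by
  refine h.int_of_le (fun k => ((h.co_meas k 2).norm.pow 2).const_mul _) fun k s => ?_
  rw [abs_of_nonneg (mul_nonneg (q_nonneg k) (by positivity))]
  exact mul_le_mul_of_nonneg_left (sq_le_sum _ 2) (q_nonneg k)

theorem Evo.pot_meas (h : Evo bs M ε T U V) (k : Fin 3 → ℤ) :
    AEStronglyMeasurable (fun s => pot k (co bs (V s) k)) (volume.restrict (Ioc 0 T)) := by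
  unfold pot
  simp only [div_eq_mul_inv]
  exact (((h.co_meas k 1).const_mul _).sub ((h.co_meas k 0).const_mul _)).mul_const _

theorem Evo.Da_int (h : Evo bs M ε T U V) :
    Integrable (fun s => ∑' k, q k * ‖pot k (co bs (V s) k)‖ ^ 2)
      (volume.restrict (Ioc 0 T)) := by
  refine h.int_of_le (fun k => ((h.pot_meas k).norm.pow 2).const_mul _) fun k s => ?_
  rw [abs_of_nonneg (mul_nonneg (q_nonneg k) (by positivity))]
  apply mul_le_mul_of_nonneg_left _ (q_nonneg k)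
  refine (norm_pot_sq_le' k _).trans ?_
  rw [Fin.sum_univ_three]
  have : 0 ≤ ‖co bs (V s) k 2‖ ^ 2 := by positivity
  linarith

/-- Energy balance of the vertical component. -/
theorem Evo.vertical (h : Evo bs M ε T U V) :
    ‖V T 2‖ ^ 2 + 8 * Real.pi ^ 2 * ε *
      ∫ s in Ioc 0 T, ∑' k, q k * ‖co bs (V s) k 2‖ ^ 2 = ‖V 0 2‖ ^ 2 := by
  obtain ⟨hd1, hd2⟩ := h.dom_facts
  have h1 := energy (ι := Fin 3 → ℤ) h.hT (c := fun k t => co bs (V t) k 2)
    (F := fun k s => Fc ε k (co bs (V s) k) (co bs (XX (U s) (V s)) k) 2)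
    (fun k => h.Fc_integrable k 2) (fun k t ht => h.eqn k 2 t ht)
    (fun k s => dom ε k (co bs (V s) k) (co bs (XX (U s) (V s)) k))
    (fun k => Eventually.of_forall fun s _ => abs_le_dom h.hε.le k _ _ 2)
    ((ae_restrict_iff' measurableSet_Ioc).mp hd1)
    ((intervalIntegrable_iff_integrableOn_Ioc_of_le h.hT).mpr hd2)
    (hasSum_sq bs (V 0 2)).summable
  have h2 := h1.unique (hasSum_sq bs (V T 2))
  have h3 : ∑' k, ‖co bs (V 0) k 2‖ ^ 2 = ‖V 0 2‖ ^ 2 := (hasSum_sq bs (V 0 2)).tsum_eq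
  rw [h3, intervalIntegral.integral_of_le h.hT] at h2
  have h4 : ∫ s in Ioc 0 T, ∑' k, 2 * (conj (co bs (V s) k 2) *
      Fc ε k (co bs (V s) k) (co bs (XX (U s) (V s)) k) 2).re =
      ∫ s in Ioc 0 T, -(8 * Real.pi ^ 2 * ε * ∑' k, q k * ‖co bs (V s) k 2‖ ^ 2) := by
    apply integral_congr_ae
    filter_upwards [h.slice] with s hs
    exact (hs.vertical ε).tsum_eq
  rw [h4, integral_neg, integral_const_mul] at h2
  linarith

theorem Evo.vertical_le (h : Evo bs M ε T U V) {t : ℝ} (ht : t ∈ Icc 0 T) :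
    ‖V t 2‖ ^ 2 ≤ ‖V 0 2‖ ^ 2 := by
  have h1 := (h.mono ht).vertical
  have h2 : 0 ≤ ∫ s in Ioc 0 t, ∑' k, q k * ‖co bs (V s) k 2‖ ^ 2 :=
    integral_nonneg fun s => tsum_nonneg fun k => mul_nonneg (q_nonneg k) (by positivity)
  have h3 := h.hε
  have h4 : 0 ≤ 8 * Real.pi ^ 2 * ε *
      ∫ s in Ioc 0 t, ∑' k, q k * ‖co bs (V s) k 2‖ ^ 2 := by positivity
  linarith

theorem Evo.D2_le (h : Evo bs M ε T U V) :
    ∫ s in Ioc 0 T, ∑' k, q k * ‖co bs (V s) k 2‖ ^ 2 ≤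
      (1 / (8 * Real.pi ^ 2 * ε)) * ‖V 0 2‖ ^ 2 := by
  have h1 := h.vertical
  have h3 := h.hε
  have hp := Real.pi_pos
  rw [one_div, inv_mul_eq_div, le_div_iff₀ (by positivity)]
  nlinarith [sq_nonneg ‖V T 2‖]

/-- The horizontal mean grows at most linearly. -/
theorem Evo.mean (h : Evo bs M ε T U V) :
    ∑' k, mn bs (V T) k ≤ ‖V 0 0‖ ^ 2 + ‖V 0 1‖ ^ 2 + (M ^ 2 / ε) * (T * ‖V 0 2‖ ^ 2) := by
  have hε := h.hε
  have hM := h.hM
  have hT := h.hT
  apply (summable_mn bs (V T)).tsum_le_of_sum_le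
  intro S
  -- one mode
  have hmode : ∀ k, mn bs (V T) k ≤ (‖co bs (V 0) k 0‖ ^ 2 + ‖co bs (V 0) k 1‖ ^ 2) +
      (1 / (2 * ε)) * ∫ s in Ioc 0 T, (‖co bs (XX (U s) (V s)) k 0‖ ^ 2 +
        ‖co bs (XX (U s) (V s)) k 1‖ ^ 2) := by
    intro k
    have hpos : 0 ≤ ∫ s in Ioc 0 T, (‖co bs (XX (U s) (V s)) k 0‖ ^ 2 +
        ‖co bs (XX (U s) (V s)) k 1‖ ^ 2) := integral_nonneg fun s => by positivity
    by_cases hk : qh k = 0
    · rw [mn, if_pos hk]
      have n0 := normSq_identity hT (h.Fc_integrable k 0) (fun t ht => h.eqn k 0 t ht)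
      have n1 := normSq_identity hT (h.Fc_integrable k 1) (fun t ht => h.eqn k 1 t ht)
      rw [n0, n1]
      have hI : ∀ i, IntervalIntegrable (fun s => 2 * (conj (co bs (V s) k i) *
          Fc ε k (co bs (V s) k) (co bs (XX (U s) (V s)) k) i).re) volume 0 T := by
        intro i
        have c1 : ContinuousOn (fun s => conj (co bs (V s) k i)) (uIcc 0 T) := by
          rw [uIcc_of_le hT]
          exact Complex.continuous_conj.comp_continuousOn (h.co_cont k i)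
        have c2 := (h.Fc_integrable k i).continuousOn_mul c1
        have c3 : IntervalIntegrable (fun s => (conj (co bs (V s) k i) *
          Fc ε k (co bs (V s) k) (co bs (XX (U s) (V s)) k) i).re) volume 0 T :=
          ⟨c2.1.re, c2.2.re⟩
        exact c3.const_mul 2
      have e : (∫ s in (0 : ℝ)..T, 2 * (conj (co bs (V s) k 0) *
          Fc ε k (co bs (V s) k) (co bs (XX (U s) (V s)) k) 0).re) +
          ∫ s in (0 : ℝ)..T, 2 * (conj (co bs (V s) k 1) *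
          Fc ε k (co bs (V s) k) (co bs (XX (U s) (V s)) k) 1).re ≤
          (1 / (2 * ε)) * ∫ s in Ioc 0 T, (‖co bs (XX (U s) (V s)) k 0‖ ^ 2 +
            ‖co bs (XX (U s) (V s)) k 1‖ ^ 2) := by
        rw [intervalIntegral.integral_of_le hT, intervalIntegral.integral_of_le hT,
          ← integral_add (hI 0).1 (hI 1).1, ← integral_const_mul]
        apply integral_mono_ae ((hI 0).1.add (hI 1).1)
        · refine Integrable.const_mul ?_ _
          obtain ⟨K, hK, hb⟩ := h.XX_bound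
          refine Integrable.of_bound (((h.meas k 0).norm.pow 2).add ((h.meas k 1).norm.pow 2))
            (2 * K ^ 2) ?_
          filter_upwards [ae_restrict_mem measurableSet_Ioc] with s hs
          have hs' : s ∈ Icc 0 T := ⟨hs.1.le, hs.2⟩
          have b0 := pow_le_pow_left₀ (norm_nonneg _)
            ((norm_co_le bs (XX (U s) (V s)) k 0).trans (hb s hs' 0)) 2
          have b1 := pow_le_pow_left₀ (norm_nonneg _)
            ((norm_co_le bs (XX (U s) (V s)) k 1).trans (hb s hs' 1)) 2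
          rw [Real.norm_eq_abs, abs_of_nonneg (by positivity)]
          linarith
        · exact Eventually.of_forall fun s => mean_le hε hk _ _
      linarith
    · rw [mn, if_neg hk]
      have : 0 < 1 / (2 * ε) := by positivity
      positivity
  refine (Finset.sum_le_sum fun k _ => hmode k).trans ?_
  rw [Finset.sum_add_distrib, ← Finset.mul_sum, Finset.sum_add_distrib]
  have s0 : ∑ k ∈ S, ‖co bs (V 0) k 0‖ ^ 2 ≤ ‖V 0 0‖ ^ 2 :=
    sum_le_hasSum S (fun _ _ => by positivity) (hasSum_sq bs (V 0 0))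
  have s1 : ∑ k ∈ S, ‖co bs (V 0) k 1‖ ^ 2 ≤ ‖V 0 1‖ ^ 2 :=
    sum_le_hasSum S (fun _ _ => by positivity) (hasSum_sq bs (V 0 1))
  have hint : ∀ k, Integrable (fun s => ‖co bs (XX (U s) (V s)) k 0‖ ^ 2 +
        ‖co bs (XX (U s) (V s)) k 1‖ ^ 2) (volume.restrict (Ioc 0 T)) := by
    intro k
    obtain ⟨K, hK, hb⟩ := h.XX_bound
    refine Integrable.of_bound (((h.meas k 0).norm.pow 2).add ((h.meas k 1).norm.pow 2))
      (2 * K ^ 2) ?_
    filter_upwards [ae_restrict_mem measurableSet_Ioc] with s hs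
    have hs' : s ∈ Icc 0 T := ⟨hs.1.le, hs.2⟩
    have b0 := pow_le_pow_left₀ (norm_nonneg _)
      ((norm_co_le bs (XX (U s) (V s)) k 0).trans (hb s hs' 0)) 2
    have b1 := pow_le_pow_left₀ (norm_nonneg _)
      ((norm_co_le bs (XX (U s) (V s)) k 1).trans (hb s hs' 1)) 2
    rw [Real.norm_eq_abs, abs_of_nonneg (by positivity)]
    linarith
  rw [← integral_finsetSum S fun k _ => hint k]
  have s2 : ∫ s in Ioc 0 T, ∑ k ∈ S, (‖co bs (XX (U s) (V s)) k 0‖ ^ 2 +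
        ‖co bs (XX (U s) (V s)) k 1‖ ^ 2) ≤ ∫ s in Ioc 0 T, 2 * M ^ 2 * ‖V 0 2‖ ^ 2 := by
    apply integral_mono_ae (integrable_finsetSum S fun k _ => hint k)
      (integrable_const _)
    filter_upwards [ae_restrict_mem measurableSet_Ioc, h.slice] with s hs hsl
    have hs' : s ∈ Icc 0 T := ⟨hs.1.le, hs.2⟩
    have t1 : ∑ k ∈ S, (‖co bs (XX (U s) (V s)) k 0‖ ^ 2 +
        ‖co bs (XX (U s) (V s)) k 1‖ ^ 2) ≤ ‖XX (U s) (V s) 0‖ ^ 2 + ‖XX (U s) (V s) 1‖ ^ 2 :=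
      sum_le_hasSum S (fun _ _ => by positivity)
        ((hasSum_sq bs (XX (U s) (V s) 0)).add (hasSum_sq bs (XX (U s) (V s) 1)))
    have t2 := hsl.norm_XX
    have t3 := h.vertical_le hs'
    have t4 : 2 * M ^ 2 * ‖V s 2‖ ^ 2 ≤ 2 * M ^ 2 * ‖V 0 2‖ ^ 2 :=
      mul_le_mul_of_nonneg_left t3 (by positivity)
    linarith
  rw [integral_const] at s2
  simp only [MeasurableSet.univ, measureReal_restrict_apply, univ_inter, smul_eq_mul] at s2
  have s3 : (volume : Measure ℝ).real (Ioc 0 T) = T := by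
    rw [Real.volume_real_Ioc_of_le hT, sub_zero]
  rw [s3] at s2
  have s4 : (1 / (2 * ε)) * ∫ s in Ioc 0 T, ∑ k ∈ S, (‖co bs (XX (U s) (V s)) k 0‖ ^ 2 +
        ‖co bs (XX (U s) (V s)) k 1‖ ^ 2) ≤ (1 / (2 * ε)) * (T * (2 * M ^ 2 * ‖V 0 2‖ ^ 2)) :=
    mul_le_mul_of_nonneg_left s2 (by positivity)
  have s5 : (1 / (2 * ε)) * (T * (2 * M ^ 2 * ‖V 0 2‖ ^ 2)) =
      (M ^ 2 / ε) * (T * ‖V 0 2‖ ^ 2) := by
    field_simp
  linarith

theorem Evo.mean_le' (h : Evo bs M ε T U V) {t : ℝ} (ht : t ∈ Icc 0 T) :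
    ∑' k, mn bs (V t) k ≤ ‖V 0 0‖ ^ 2 + ‖V 0 1‖ ^ 2 + (M ^ 2 / ε) * (T * ‖V 0 2‖ ^ 2) := by
  refine (h.mono ht).mean.trans ?_
  have hε := h.hε
  have : (M ^ 2 / ε) * (t * ‖V 0 2‖ ^ 2) ≤ (M ^ 2 / ε) * (T * ‖V 0 2‖ ^ 2) :=
    mul_le_mul_of_nonneg_left (mul_le_mul_of_nonneg_right ht.2 (by positivity)) (by positivity)
  linarith

/-- `‖B‖²` as a sum over the modes. -/
theorem energy_split {bs : HilbertBasis (Fin 3 → ℤ) ℂ E} {M : ℝ} {U : Fin 3 → E →L[ℂ] E}
    {V : Fin 3 → E} (h : Slice bs M U V) :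
    ∑ i, ‖V i‖ ^ 2 ≤ ‖V 2‖ ^ 2 + ∑' k, mn bs V k +
      2 * (∑' k, q k * ‖pot k (co bs V k)‖ ^ 2) + 2 * ∑' k, q k * ‖co bs V k 2‖ ^ 2 := by
  have h1 := (hasSum_sq bs (V 0)).add (hasSum_sq bs (V 1))
  have h2 := ((summable_mn bs V).hasSum.add (h.sum_pot.hasSum.mul_left 2)).add
    ((h.sum_q 2).hasSum.mul_left 2)
  have h3 := hasSum_le (fun k => by
    show ‖co bs V k 0‖ ^ 2 + ‖co bs V k 1‖ ^ 2 ≤ mn bs V k +
      2 * (q k * ‖pot k (co bs V k)‖ ^ 2) + 2 * (q k * ‖co bs V k 2‖ ^ 2)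
    by_cases hk : qh k = 0
    · rw [mn, if_pos hk]
      have p1 : 0 ≤ q k * ‖pot k (co bs V k)‖ ^ 2 := mul_nonneg (q_nonneg k) (by positivity)
      have p2 : 0 ≤ q k * ‖co bs V k 2‖ ^ 2 := mul_nonneg (q_nonneg k) (by positivity)
      linarith
    · rw [mn, if_neg hk, zero_add]
      exact hor_le hk (h.divV k)) h1 h2
  rw [Fin.sum_univ_three]
  linarith

/-- The constant of the growth bound. -/
noncomputable def cst (M ε T : ℝ) : ℝ :=
  T + (1 + M ^ 2 / ε * T) * T +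
    2 * ((1 / (4 * Real.pi ^ 2 * ε)) * (1 + (8 * M ^ 2 / ε) * T +
      (4 * M ^ 2 / ε) * (1 / (8 * Real.pi ^ 2 * ε) + (1 + M ^ 2 / ε * T) * T))) +
    2 * (1 / (8 * Real.pi ^ 2 * ε))

/-- Polynomial growth of the time integral of the energy. -/
theorem Evo.main (h : Evo bs M ε T U V) :
    ∫ s in Ioc 0 T, ∑ i, ‖V s i‖ ^ 2 ≤ cst M ε T * ∑ i, ‖V 0 i‖ ^ 2 := by
  have hε := h.hε
  have hT := h.hT
  have hM := h.hM
  have hp := Real.pi_pos
  set β := ∑ i, ‖V 0 i‖ ^ 2 with hβ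
  have hβ3 : β = ‖V 0 0‖ ^ 2 + ‖V 0 1‖ ^ 2 + ‖V 0 2‖ ^ 2 := Fin.sum_univ_three _
  have hβ0 : 0 ≤ β := Finset.sum_nonneg fun _ _ => by positivity
  have hV2 : ‖V 0 2‖ ^ 2 ≤ β := by rw [hβ3]; nlinarith [sq_nonneg ‖V 0 0‖, sq_nonneg ‖V 0 1‖]
  have hvol : (volume : Measure ℝ).real (Ioc 0 T) = T := by
    rw [Real.volume_real_Ioc_of_le hT, sub_zero]
  have hmn : ∀ t ∈ Icc 0 T, ∑' k, mn bs (V t) k ≤ (1 + M ^ 2 / ε * T) * β := by
    intro t ht
    have h1 := h.mean_le' ht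
    have h2 : (M ^ 2 / ε) * (T * ‖V 0 2‖ ^ 2) ≤ (M ^ 2 / ε) * (T * β) :=
      mul_le_mul_of_nonneg_left (mul_le_mul_of_nonneg_left hV2 hT) (by positivity)
    nlinarith [sq_nonneg ‖V 0 2‖]
  set D2 := ∫ s in Ioc 0 T, ∑' k, q k * ‖co bs (V s) k 2‖ ^ 2 with hD2
  set Da := ∫ s in Ioc 0 T, ∑' k, q k * ‖pot k (co bs (V s) k)‖ ^ 2 with hDa
  have hD2le : D2 ≤ (1 / (8 * Real.pi ^ 2 * ε)) * β :=
    h.D2_le.trans (mul_le_mul_of_nonneg_left hV2 (by positivity))
  -- the estimate for the potential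
  have hDale : 4 * Real.pi ^ 2 * ε * Da ≤ β + (8 * M ^ 2 / ε) * (T * β) +
      (4 * M ^ 2 / ε) * (D2 + T * ((1 + M ^ 2 / ε * T) * β)) := by
    obtain ⟨hd1, hd2⟩ := h.dom_facts
    have hpeq : ∀ k, ∀ t ∈ Icc 0 T, pot k (co bs (V t) k) = pot k (co bs (V 0) k) +
        ∫ s in (0 : ℝ)..t, pot k (Fc ε k (co bs (V s) k) (co bs (XX (U s) (V s)) k)) := by
      intro k t ht
      have i0 := (h.mono ht).Fc_integrable k 0
      have i1 := (h.mono ht).Fc_integrable k 1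
      have e : ∫ s in (0 : ℝ)..t, pot k (Fc ε k (co bs (V s) k) (co bs (XX (U s) (V s)) k)) =
          ((k 0 : ℂ) * (∫ s in (0 : ℝ)..t, Fc ε k (co bs (V s) k)
            (co bs (XX (U s) (V s)) k) 1) - (k 1 : ℂ) * (∫ s in (0 : ℝ)..t,
            Fc ε k (co bs (V s) k) (co bs (XX (U s) (V s)) k) 0)) / (qh k : ℂ) := by
        rw [← intervalIntegral.integral_const_mul, ← intervalIntegral.integral_const_mul,
          ← intervalIntegral.integral_sub (i1.const_mul _) (i0.const_mul _),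
          ← intervalIntegral.integral_div]
        rfl
      rw [e, pot, pot, h.eqn k 0 t ht, h.eqn k 1 t ht]
      ring
    have hpint : ∀ k, IntervalIntegrable (fun s => pot k (Fc ε k (co bs (V s) k)
        (co bs (XX (U s) (V s)) k))) volume 0 T := by
      intro k
      unfold pot
      simp only [div_eq_mul_inv]
      exact (((h.Fc_integrable k 1).const_mul _).sub
        ((h.Fc_integrable k 0).const_mul _)).mul_const _
    have h1 := energy (ι := Fin 3 → ℤ) h.hT (c := fun k t => pot k (co bs (V t) k))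
      (F := fun k s => pot k (Fc ε k (co bs (V s) k) (co bs (XX (U s) (V s)) k)))
      hpint hpeq (fun k s => dom ε k (co bs (V s) k) (co bs (XX (U s) (V s)) k))
      (fun k => Eventually.of_forall fun s _ => pot_abs_le_dom h.hε.le k _ _)
      ((ae_restrict_iff' measurableSet_Ioc).mp hd1)
      ((intervalIntegrable_iff_integrableOn_Ioc_of_le h.hT).mpr hd2)
      (summable_pot0 bs (V 0))
    have h2 : 0 ≤ ∑' k, ‖pot k (co bs (V 0) k)‖ ^ 2 + ∫ s in (0 : ℝ)..T,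
        ∑' k, 2 * (conj (pot k (co bs (V s) k)) *
          pot k (Fc ε k (co bs (V s) k) (co bs (XX (U s) (V s)) k))).re :=
      h1.nonneg fun k => by positivity
    rw [intervalIntegral.integral_of_le hT] at h2
    have h3 : ∑' k, ‖pot k (co bs (V 0) k)‖ ^ 2 ≤ β := by
      have := hasSum_le (fun k => norm_pot_sq_le' k (co bs (V 0) k))
        (summable_pot0 bs (V 0)).hasSum ((hasSum_sq bs (V 0 0)).add (hasSum_sq bs (V 0 1)))
      rw [hβ3]
      nlinarith [sq_nonneg ‖V 0 2‖]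
    have hpointwise : ∀ᵐ s ∂(volume.restrict (Ioc 0 T)),
        ∑' k, 2 * (conj (pot k (co bs (V s) k)) *
          pot k (Fc ε k (co bs (V s) k) (co bs (XX (U s) (V s)) k))).re ≤
        -(4 * Real.pi ^ 2 * ε) * (∑' k, q k * ‖pot k (co bs (V s) k)‖ ^ 2) +
          (4 * M ^ 2 / ε) * (∑' k, q k * ‖co bs (V s) k 2‖ ^ 2) +
          ((8 * M ^ 2 / ε) * β + (4 * M ^ 2 / ε) * ((1 + M ^ 2 / ε * T) * β)) := by
      filter_upwards [h.slice, ae_restrict_mem measurableSet_Ioc] with s hs hsm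
      have hs' : s ∈ Icc 0 T := ⟨hsm.1.le, hsm.2⟩
      have p1 := hs.potential hε
      have p2 := hmn s hs'
      have p3 := (h.vertical_le hs').trans hV2
      have p4 : (8 * M ^ 2 / ε) * ‖V s 2‖ ^ 2 ≤ (8 * M ^ 2 / ε) * β :=
        mul_le_mul_of_nonneg_left p3 (by positivity)
      have p5 : (4 * M ^ 2 / ε) * ∑' k, mn bs (V s) k ≤
          (4 * M ^ 2 / ε) * ((1 + M ^ 2 / ε * T) * β) :=
        mul_le_mul_of_nonneg_left p2 (by positivity)
      rw [mul_add] at p1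
      linarith
    have hmeasL : Integrable (fun s => ∑' k, 2 * (conj (pot k (co bs (V s) k)) *
          pot k (Fc ε k (co bs (V s) k) (co bs (XX (U s) (V s)) k))).re)
          (volume.restrict (Ioc 0 T)) := by
      refine integrable_tsum (fun k => ?_) (fun k => Eventually.of_forall fun s =>
        pot_abs_le_dom h.hε.le k _ _) hd1 hd2
      have m1 := (Complex.continuous_conj.comp_aestronglyMeasurable (h.pot_meas k)).mul
        (hpint k).1.aestronglyMeasurable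
      exact (Complex.continuous_re.comp_aestronglyMeasurable m1).const_mul 2
    have h4 := integral_mono_ae hmeasL
      (integrable_lin3 h.Da_int h.D2_int (-(4 * Real.pi ^ 2 * ε)) (4 * M ^ 2 / ε)
        ((8 * M ^ 2 / ε) * β + (4 * M ^ 2 / ε) * ((1 + M ^ 2 / ε * T) * β))) hpointwise
    have h5 : ∫ s in Ioc 0 T, (-(4 * Real.pi ^ 2 * ε) *
          (∑' k, q k * ‖pot k (co bs (V s) k)‖ ^ 2) +
          (4 * M ^ 2 / ε) * (∑' k, q k * ‖co bs (V s) k 2‖ ^ 2) +
          ((8 * M ^ 2 / ε) * β + (4 * M ^ 2 / ε) * ((1 + M ^ 2 / ε * T) * β))) =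
        -(4 * Real.pi ^ 2 * ε) * Da + (4 * M ^ 2 / ε) * D2 +
          T * ((8 * M ^ 2 / ε) * β + (4 * M ^ 2 / ε) * ((1 + M ^ 2 / ε * T) * β)) := by
      rw [integral_lin3 h.Da_int h.D2_int]
      simp only [MeasurableSet.univ, measureReal_restrict_apply, univ_inter, hvol]
      rfl
    have h6 := h4.trans (le_of_eq h5)
    nlinarith
  -- final assembly
  have hcontint : Integrable (fun s => ∑ i, ‖V s i‖ ^ 2) (volume.restrict (Ioc 0 T)) := by
    apply integrable_finsetSum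
    intro i _
    exact ((((h.cont i).norm).pow 2).integrableOn_Icc).mono_set Ioc_subset_Icc_self
  have hfin : ∀ᵐ s ∂(volume.restrict (Ioc 0 T)), ∑ i, ‖V s i‖ ^ 2 ≤
      2 * (∑' k, q k * ‖pot k (co bs (V s) k)‖ ^ 2) +
      2 * (∑' k, q k * ‖co bs (V s) k 2‖ ^ 2) + (β + (1 + M ^ 2 / ε * T) * β) := by
    filter_upwards [h.slice, ae_restrict_mem measurableSet_Ioc] with s hs hsm
    have hs' : s ∈ Icc 0 T := ⟨hsm.1.le, hsm.2⟩
    have p1 := energy_split hs
    have p2 := hmn s hs'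
    have p3 := (h.vertical_le hs').trans hV2
    linarith
  have h7 := integral_mono_ae hcontint
    (integrable_lin3 h.Da_int h.D2_int 2 2 (β + (1 + M ^ 2 / ε * T) * β)) hfin
  have h8 : ∫ s in Ioc 0 T, (2 * (∑' k, q k * ‖pot k (co bs (V s) k)‖ ^ 2) +
      2 * (∑' k, q k * ‖co bs (V s) k 2‖ ^ 2) + (β + (1 + M ^ 2 / ε * T) * β)) =
      2 * Da + 2 * D2 + T * (β + (1 + M ^ 2 / ε * T) * β) := by
    rw [integral_lin3 h.Da_int h.D2_int]
    simp only [MeasurableSet.univ, measureReal_restrict_apply, univ_inter, hvol]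
    rfl
  refine (h7.trans (le_of_eq h8)).trans ?_
  have hDa2 : Da ≤ (1 / (4 * Real.pi ^ 2 * ε)) * (β + (8 * M ^ 2 / ε) * (T * β) +
      (4 * M ^ 2 / ε) * (D2 + T * ((1 + M ^ 2 / ε * T) * β))) := by
    rw [one_div, inv_mul_eq_div, le_div_iff₀ (by positivity)]
    linarith
  have hDa3 : (1 / (4 * Real.pi ^ 2 * ε)) * (β + (8 * M ^ 2 / ε) * (T * β) +
      (4 * M ^ 2 / ε) * (D2 + T * ((1 + M ^ 2 / ε * T) * β))) ≤
      (1 / (4 * Real.pi ^ 2 * ε)) * (β + (8 * M ^ 2 / ε) * (T * β) +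
      (4 * M ^ 2 / ε) * ((1 / (8 * Real.pi ^ 2 * ε)) * β + T * ((1 + M ^ 2 / ε * T) * β))) := by
    apply mul_le_mul_of_nonneg_left _ (by positivity)
    have : (4 * M ^ 2 / ε) * (D2 + T * ((1 + M ^ 2 / ε * T) * β)) ≤
      (4 * M ^ 2 / ε) * ((1 / (8 * Real.pi ^ 2 * ε)) * β + T * ((1 + M ^ 2 / ε * T) * β)) :=
      mul_le_mul_of_nonneg_left (by linarith) (by positivity)
    linarith
  unfold cst
  have hfinal : 2 * ((1 / (4 * Real.pi ^ 2 * ε)) * (β + (8 * M ^ 2 / ε) * (T * β) +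
      (4 * M ^ 2 / ε) * ((1 / (8 * Real.pi ^ 2 * ε)) * β + T * ((1 + M ^ 2 / ε * T) * β)))) +
      2 * ((1 / (8 * Real.pi ^ 2 * ε)) * β) + T * (β + (1 + M ^ 2 / ε * T) * β) =
      (T + (1 + M ^ 2 / ε * T) * T +
    2 * ((1 / (4 * Real.pi ^ 2 * ε)) * (1 + (8 * M ^ 2 / ε) * T +
      (4 * M ^ 2 / ε) * (1 / (8 * Real.pi ^ 2 * ε) + (1 + M ^ 2 / ε * T) * T))) +
    2 * (1 / (8 * Real.pi ^ 2 * ε))) * β := by ring
  linarith

end Pool.Agent.LibH36.Dyn
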